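import Mathlib

set_option autoImplicit false

namespace Pool.Agent.Hhelper31.PC

open MeasureTheory Metric Set Filter Topology
open scoped ENNReal NNReal

/-- the Euclidean plane -/
abbrev E : Type := EuclideanSpace ℝ (Fin 2)

/-- Lipschitz maps do not increase area by more than the square of the constant. -/
theorem volume_image_le {K : ℝ≥0} {f : E → E} (hf : LipschitzWith K f) (s : Set E) :
    volume (f '' s) ≤ (K : ℝ≥0∞) ^ 2 * volume s := by
  have h := Measure.isAddLeftInvariant_eq_smul (volume : Measure E)
    (Measure.hausdorffMeasure (2 : ℕ))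
  rw [h]
  simp only [Measure.smul_apply]
  have h2 := hf.hausdorffMeasure_image_le (d := ((2 : ℕ) : ℝ)) (by norm_num) s
  have h3 : ((K : ℝ≥0∞) ^ ((2 : ℕ) : ℝ)) = (K : ℝ≥0∞) ^ 2 := by
    rw [ENNReal.rpow_natCast]
  rw [h3] at h2
  rw [mul_smul_comm]
  gcongr

theorem volume_image_le_one {f : E → E} (hf : LipschitzWith 1 f) (s : Set E) :
    volume (f '' s) ≤ volume s := by
  simpa using volume_image_le hf s

theorem preconn_frontier {s t : Set E} (hs : IsPreconnected s) (h1 : (s ∩ t).Nonempty)
    (h2 : (s ∩ tᶜ).Nonempty) : (s ∩ frontier t).Nonempty := by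
  by_contra hn
  rw [Set.not_nonempty_iff_eq_empty] at hn
  have hcov : s ⊆ interior t ∪ interior tᶜ := by
    intro x hx
    by_cases hxt : x ∈ interior t
    · exact Or.inl hxt
    · right
      rw [interior_compl]
      intro hxc
      have : x ∈ s ∩ frontier t := ⟨hx, hxc, hxt⟩
      rw [hn] at this
      exact this
  have hdis : Disjoint (interior t) (interior tᶜ) :=
    disjoint_compl_right.mono interior_subset interior_subset
  have h3 : (s ∩ interior t).Nonempty := by
    obtain ⟨x, hx, hxt⟩ := h1
    rcases hcov hx with h | h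
    · exact ⟨x, hx, h⟩
    · exact absurd hxt (interior_subset h)
  have h4 : (s ∩ interior tᶜ).Nonempty := by
    obtain ⟨x, hx, hxt⟩ := h2
    rcases hcov hx with h | h
    · exact absurd (interior_subset h) hxt
    · exact ⟨x, hx, h⟩
  obtain ⟨x, _, hx1, hx2⟩ := hs _ _ isOpen_interior isOpen_interior hcov h3 h4
  exact Set.disjoint_left.1 hdis hx1 hx2

/-- The class of maps moving points by at most `a`, continuous, and such that the frontier of the
image of a compact set comes from the frontier of that set. -/
structure Reg (f : E → E) (a : ℝ) : Prop where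
  cont : Continuous f
  disp : ∀ x, ‖f x - x‖ ≤ a
  fr : ∀ K : Set E, IsCompact K → frontier (f '' K) ⊆ f '' frontier K

theorem Reg.nonneg {f : E → E} {a : ℝ} (h : Reg f a) : 0 ≤ a :=
  (norm_nonneg _).trans (h.disp 0)

theorem Reg.mono {f : E → E} {a b : ℝ} (h : Reg f a) (hab : a ≤ b) : Reg f b :=
  ⟨h.cont, fun x => (h.disp x).trans hab, h.fr⟩

theorem Reg.id : Reg id 0 := ⟨continuous_id, fun x => by simp, fun K _ => by simp⟩

theorem Reg.comp {f g : E → E} {a b : ℝ} (hg : Reg g b) (hf : Reg f a) : Reg (g ∘ f) (a + b) := by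
  refine ⟨hg.cont.comp hf.cont, fun x => ?_, fun K hK => ?_⟩
  · calc ‖g (f x) - x‖ = ‖(g (f x) - f x) + (f x - x)‖ := by rw [sub_add_sub_cancel]
      _ ≤ ‖g (f x) - f x‖ + ‖f x - x‖ := norm_add_le _ _
      _ ≤ b + a := add_le_add (hg.disp _) (hf.disp _)
      _ = a + b := add_comm _ _
  · rw [image_comp, image_comp]
    exact (hg.fr _ (hK.image hf.cont)).trans (image_mono (hf.fr K hK))

/-- Uniform limits stay in the class. -/
theorem Reg.lim {f : ℕ → E → E} {g : E → E} {a : ℝ} (hf : ∀ n, Reg (f n) a)
    (h : TendstoUniformly f g atTop) : Reg g a := by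
  have hcont : Continuous g := h.continuous (Eventually.frequently (Eventually.of_forall
    (fun n => (hf n).cont)))
  have hpt : ∀ x, Tendsto (fun n => f n x) atTop (𝓝 (g x)) := fun x => h.tendsto_at x
  refine ⟨hcont, fun x => ?_, fun K hK => ?_⟩
  · exact le_of_tendsto ((hpt x).sub_const x).norm (Eventually.of_forall (fun n => (hf n).disp x))
  · intro y hy
    by_contra hyn
    have hcl : IsClosed (g '' frontier K) :=
      ((hK.of_isClosed_subset isClosed_frontier hK.isClosed.frontier_subset).image hcont).isClosed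
    obtain ⟨η, hη, hball⟩ := Metric.isOpen_iff.1 hcl.isOpen_compl y hyn
    -- work with radius η/3
    have hgK : IsClosed (g '' K) := (hK.image hcont).isClosed
    rw [Metric.tendstoUniformly_iff] at h
    have h3 := h (η / 3) (by positivity)
    obtain ⟨N, hN⟩ := eventually_atTop.1 h3
    -- for n ≥ N, frontier (f n '' K) misses ball y (η/3)
    have hmiss : ∀ n ≥ N, ∀ z ∈ ball y (η / 3), z ∉ frontier (f n '' K) := by
      intro n hn z hz hzf
      obtain ⟨x, hx, hxz⟩ := (hf n).fr K hK hzf
      have h4 : dist (g x) (f n x) < η / 3 := hN n hn x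
      have h5 : g x ∈ ball y η := by
        rw [mem_ball] at hz ⊢
        calc dist (g x) y ≤ dist (g x) (f n x) + dist (f n x) y := dist_triangle _ _ _
          _ < η / 3 + η / 3 := by
            apply add_lt_add h4
            rw [hxz]; exact hz
          _ < η := by linarith
      exact hball h5 ⟨x, hx, rfl⟩
    have hdich : ∀ n ≥ N, ball y (η / 3) ⊆ f n '' K ∨ Disjoint (ball y (η / 3)) (f n '' K) := by
      intro n hn
      have hpre : IsPreconnected (ball y (η / 3)) := (convex_ball y (η / 3)).isPreconnected
      by_cases hd : Disjoint (ball y (η / 3)) (f n '' K)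
      · exact Or.inr hd
      · left
        rw [Set.not_disjoint_iff] at hd
        obtain ⟨z, hz1, hz2⟩ := hd
        by_contra hns
        rw [Set.not_subset] at hns
        obtain ⟨w, hw1, hw2⟩ := hns
        obtain ⟨v, hv1, hv2⟩ := preconn_frontier hpre ⟨z, hz1, hz2⟩ ⟨w, hw1, hw2⟩
        exact hmiss n hn v hv1 hv2
    have hyK : y ∈ g '' K := by
      have := frontier_subset_closure hy
      rwa [hgK.closure_eq] at this
    -- infinitely often contained
    have hfreq : ∀ n ≥ N, ball y (η / 3) ⊆ f n '' K := by
      intro n hn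
      rcases hdich n hn with h1 | h1
      · exact h1
      · exfalso
        obtain ⟨x, hx, hxy⟩ := hyK
        have h4 : dist (g x) (f n x) < η / 3 := hN n hn x
        have h5 : f n x ∈ ball y (η / 3) := by
          rw [mem_ball, dist_comm, ← hxy]
          exact h4
        exact Set.disjoint_left.1 h1 h5 ⟨x, hx, rfl⟩
    have hsub : ball y (η / 3) ⊆ g '' K := by
      intro z hz
      -- z = f n (x n), x n in K
      have : ∀ n, ∃ x ∈ K, f (N + n) x = z := fun n => hfreq (N + n) (Nat.le_add_right _ _) hz
      choose x hxK hxz using this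
      rw [← hgK.closure_eq]
      rw [Metric.mem_closure_iff]
      intro ε hε
      obtain ⟨M, hM⟩ := eventually_atTop.1 (h ε hε)
      refine ⟨g (x M), ⟨x M, hxK M, rfl⟩, ?_⟩
      rw [← hxz M, dist_comm]
      exact hM (N + M) (Nat.le_add_left _ _) (x M)
    have hyint : y ∈ interior (g '' K) :=
      mem_interior.2 ⟨ball y (η / 3), hsub, isOpen_ball, mem_ball_self (by positivity)⟩
    exact hy.2 hyint

/-- near-identity maps in the class cover the eroded set -/
theorem Reg.cover {f : E → E} {a : ℝ} (hf : Reg f a) {s : Set E} {y : E}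
    (hy : closedBall y (3 * a) ⊆ s) : y ∈ f '' s := by
  by_cases ha : a = 0
  · refine ⟨y, hy (mem_closedBall_self (by rw [ha]; norm_num)), ?_⟩
    have := hf.disp y
    rw [ha] at this
    exact sub_eq_zero.1 (norm_le_zero_iff.1 this)
  have hapos : 0 < a := lt_of_le_of_ne hf.nonneg (Ne.symm ha)
  have hK : IsCompact (closedBall y (3 * a)) := isCompact_closedBall _ _
  suffices y ∈ f '' closedBall y (3 * a) from image_mono hy this
  by_contra hn
  have h1 : f y ∈ f '' closedBall y (3 * a) :=
    ⟨y, mem_closedBall_self (by positivity), rfl⟩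
  have h2 : IsPreconnected (closedBall y a) := (convex_closedBall y a).isPreconnected
  have h3 : f y ∈ closedBall y a := by
    rw [mem_closedBall, dist_eq_norm]; exact hf.disp y
  obtain ⟨v, hv1, hv2⟩ := preconn_frontier h2 ⟨f y, h3, h1⟩
    ⟨y, mem_closedBall_self hapos.le, hn⟩
  obtain ⟨x, hx, hxv⟩ := hf.fr _ hK hv2
  have h4 : dist x y = 3 * a := by
    have : frontier (closedBall y (3 * a)) = sphere y (3 * a) :=
      frontier_closedBall y (by positivity)
    rw [this] at hx
    exact hx
  have h5 : dist (f x) x ≤ a := by rw [dist_eq_norm]; exact hf.disp x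
  have h6 : dist (f x) y ≤ a := by rw [hxv]; exact hv1
  have h7 : dist x y ≤ dist (f x) x + dist (f x) y := by
    rw [dist_comm (f x) x]; exact dist_triangle _ _ _
  linarith

end Pool.Agent.Hhelper31.PC
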