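import Mathlib
import Pool.Agent.Hhelper31.PC.Near

set_option autoImplicit false

namespace Pool.Agent.Hhelper31.PC

open MeasureTheory Metric Set Filter Topology
open scoped ENNReal NNReal

/-- soft threshold -/
noncomputable def sft (s m : ℝ) : ℝ := max (s - m) 0 + min (s + m) 0

theorem sft_zero (s : ℝ) : sft s 0 = s := by
  unfold sft
  rcases le_total s 0 with h | h
  · rw [sub_zero, add_zero, max_eq_right h, min_eq_left h, zero_add]
  · rw [sub_zero, add_zero, max_eq_left h, min_eq_right h, add_zero]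

theorem sft_eq_zero {s m : ℝ} (h : |s| ≤ m) : sft s m = 0 := by
  unfold sft
  rw [abs_le] at h
  rw [max_eq_right (by linarith), min_eq_right (by linarith), add_zero]

theorem sft_lip_s {m : ℝ} (hm : 0 ≤ m) (s s' : ℝ) : |sft s m - sft s' m| ≤ |s - s'| := by
  wlog h : s ≤ s' generalizing s s' with H
  · rw [abs_sub_comm, abs_sub_comm s]
    exact H s' s (le_of_not_ge h)
  rw [abs_of_nonpos (by linarith : s - s' ≤ 0)]
  unfold sft
  rw [abs_le]
  constructor <;>
  · rcases le_total (s - m) 0 with h1 | h1 <;> rcases le_total (s + m) 0 with h2 | h2 <;>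
    rcases le_total (s' - m) 0 with h3 | h3 <;> rcases le_total (s' + m) 0 with h4 | h4 <;>
    simp only [max_eq_right, max_eq_left, min_eq_left, min_eq_right, h1, h2, h3, h4] <;>
    linarith

theorem sft_lip_m (s m m' : ℝ) : |sft s m - sft s m'| ≤ 2 * |m - m'| := by
  unfold sft
  have h1 : |max (s - m) 0 - max (s - m') 0| ≤ |m - m'| := by
    have := abs_max_sub_max_le_abs (s - m) (s - m') 0
    rw [show s - m - (s - m') = -(m - m') by ring, abs_neg] at this
    exact this
  have h2 : |min (s + m) 0 - min (s + m') 0| ≤ |m - m'| := by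
    have := abs_min_sub_min_le_max (s + m) 0 (s + m') 0
    rw [show s + m - (s + m') = m - m' by ring, sub_zero, abs_zero, max_eq_left (abs_nonneg _)] at this
    exact this
  calc |max (s - m) 0 + min (s + m) 0 - (max (s - m') 0 + min (s + m') 0)|
      = |(max (s - m) 0 - max (s - m') 0) + (min (s + m) 0 - min (s + m') 0)| := by congr 1; ring
    _ ≤ |max (s - m) 0 - max (s - m') 0| + |min (s + m) 0 - min (s + m') 0| := abs_add_le _ _
    _ ≤ 2 * |m - m'| := by linarith

theorem sft_mono {s s' m m' : ℝ} (h : |m - m'| ≤ s' - s) : sft s m ≤ sft s' m' := by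
  unfold sft
  rw [abs_le] at h
  apply add_le_add
  · exact max_le_max (by linarith) le_rfl
  · exact min_le_min (by linarith) le_rfl

theorem sft_disp (s m : ℝ) : |sft s m - s| ≤ 2 * |m| := by
  have := sft_lip_m s m 0
  rwa [sft_zero, sub_zero] at this

/-- the flattening map -/
noncomputable def kap (x0 n : E) (m : E → ℝ) (x : E) : E :=
  x + (sft (inner ℝ (x - x0) n) (m x) - inner ℝ (x - x0) n) • n

theorem kap_lip {x0 n : E} (hn : ‖n‖ = 1) {m : E → ℝ} (hm : ∀ x, 0 ≤ m x) {l : ℝ}
    (hl : ∀ x y, |m x - m y| ≤ l * dist x y) (x y : E) :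
    dist (kap x0 n m x) (kap x0 n m y) ≤ (1 + 2 * l) * dist x y := by
  rw [dist_eq_norm]
  set s := inner ℝ (x - x0) n with hs
  set s' := inner ℝ (y - x0) n with hs'
  have hss : inner ℝ (x - y) n = s - s' := by
    rw [hs, hs', ← inner_sub_left]
    congr 1
    abel
  set δ := sft s (m x) - sft s' (m x) with hδ
  have h1 : |δ| ≤ |s - s'| := sft_lip_s (hm x) s s'
  have e1 : kap x0 n m x - kap x0 n m y = ((x - y) + (δ - (s - s')) • n)
      + (sft s' (m x) - sft s' (m y)) • n := by
    unfold kap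
    rw [hδ]
    simp only [sub_smul, ← hs, ← hs']
    abel
  have h2 : ‖(x - y) + (δ - (s - s')) • n‖ ≤ ‖x - y‖ := by
    have h3 : ‖(x - y) + (δ - (s - s')) • n‖ ^ 2 ≤ ‖x - y‖ ^ 2 := by
      rw [norm_add_sq_real, inner_smul_right, hss, norm_smul, hn, mul_one, Real.norm_eq_abs, sq_abs]
      have h4 : δ ^ 2 ≤ (s - s') ^ 2 := by
        rw [← sq_abs δ, ← sq_abs (s - s')]
        exact pow_le_pow_left₀ (abs_nonneg _) h1 2
      nlinarith
    exact (pow_le_pow_iff_left₀ (norm_nonneg _) (norm_nonneg _) two_ne_zero).1 h3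
  have h3 : ‖(sft s' (m x) - sft s' (m y)) • n‖ ≤ 2 * (l * dist x y) := by
    rw [norm_smul, hn, mul_one, Real.norm_eq_abs]
    exact (sft_lip_m s' _ _).trans (by linarith [hl x y])
  calc ‖kap x0 n m x - kap x0 n m y‖ ≤ ‖(x - y) + (δ - (s - s')) • n‖
        + ‖(sft s' (m x) - sft s' (m y)) • n‖ := by rw [e1]; exact norm_add_le _ _
    _ ≤ ‖x - y‖ + 2 * (l * dist x y) := add_le_add h2 h3
    _ = (1 + 2 * l) * dist x y := by rw [dist_eq_norm]; ring

theorem kap_disp {x0 n : E} (hn : ‖n‖ = 1) {m : E → ℝ} (x : E) :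
    ‖kap x0 n m x - x‖ ≤ 2 * |m x| := by
  unfold kap
  rw [add_sub_cancel_left, norm_smul, hn, mul_one, Real.norm_eq_abs]
  exact sft_disp _ _

theorem kap_of_m_zero {x0 n : E} {m : E → ℝ} {x : E} (h : m x = 0) : kap x0 n m x = x := by
  unfold kap
  rw [h, sft_zero, sub_self, zero_smul, add_zero]

theorem kap_along {x0 n : E} (hn : ‖n‖ = 1) (m : E → ℝ) (y : E) (c : ℝ) :
    kap x0 n m (y + c • n) = y + (sft (inner ℝ (y - x0) n + c) (m (y + c • n))
      - inner ℝ (y - x0) n) • n := by
  unfold kap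
  have h1 : inner ℝ (y + c • n - x0) n = inner ℝ (y - x0) n + c := by
    have : y + c • n - x0 = (y - x0) + c • n := by abel
    rw [this, inner_add_left, inner_smul_left, real_inner_self_eq_norm_sq, hn]
    simp
  rw [h1, add_assoc, ← add_smul]
  congr 2
  ring

/-- general criterion for membership in the class -/
theorem Reg.of_fibers {f : E → E} {a : ℝ} (hc : Continuous f) (hd : ∀ x, ‖f x - x‖ ≤ a)
    (hs : Function.Surjective f) (hf : ∀ y, IsPreconnected (f ⁻¹' {y})) : Reg f a := by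
  refine ⟨hc, hd, fun K hK y hy => ?_⟩
  by_contra hyn
  have hproper : IsProperMap f := by
    rw [isProperMap_iff_tendsto_cocompact]
    refine ⟨hc, ?_⟩
    have h1 : Tendsto (fun x => ‖f x‖) (cocompact E) atTop := by
      have h2 : Tendsto (fun x : E => ‖x‖ - a) (cocompact E) atTop :=
        tendsto_atTop_add_const_right _ _ (tendsto_norm_cocompact_atTop)
      apply tendsto_atTop_mono _ h2
      intro x
      have h3 := hd x
      have h4 : ‖x‖ ≤ ‖f x‖ + ‖f x - x‖ := by
        calc ‖x‖ = ‖f x - (f x - x)‖ := by rw [sub_sub_cancel]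
          _ ≤ _ := norm_sub_le _ _
      linarith
    rw [← Metric.cobounded_eq_cocompact (α := E)] at h1 ⊢
    exact tendsto_norm_atTop_iff_cobounded.1 h1
  have hcl : IsClosed (f '' (interior K)ᶜ) := hproper.isClosedMap _ isOpen_interior.isClosed_compl
  have hKcl : IsClosed (f '' K) := (hK.image hc).isClosed
  have hyK : y ∈ f '' K := hKcl.frontier_subset hy
  obtain ⟨x0, hx0, hx0y⟩ := hyK
  have hfib : f ⁻¹' {y} ⊆ interior K := by
    intro x hx
    by_contra hxn
    by_cases hxK : x ∈ K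
    · exact hyn ⟨x, ⟨subset_closure hxK, hxn⟩, hx⟩
    · obtain ⟨z, hz1, hz2⟩ := preconn_frontier (hf y) ⟨x0, hx0y, hx0⟩ ⟨x, hx, hxK⟩
      exact hyn ⟨z, hz2, hz1⟩
  have hyV : y ∈ (f '' (interior K)ᶜ)ᶜ := by
    rintro ⟨x, hx, hxy⟩
    exact hx (hfib hxy)
  have hsub : (f '' (interior K)ᶜ)ᶜ ⊆ f '' K := by
    intro z hz
    obtain ⟨x, rfl⟩ := hs z
    by_cases hx : x ∈ interior K
    · exact ⟨x, interior_subset hx, rfl⟩
    · exact absurd ⟨x, hx, rfl⟩ hz
  have : y ∈ interior (f '' K) := mem_interior.2 ⟨_, hsub, hcl.isOpen_compl, hyV⟩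
  exact hy.2 this

theorem kap_cont {x0 n : E} {m : E → ℝ} (hm : Continuous m) : Continuous (kap x0 n m) := by
  unfold kap sft
  fun_prop

theorem kap_fiber {x0 n : E} (hn : ‖n‖ = 1) {m : E → ℝ} {l : ℝ} (hl1 : l ≤ 1)
    (hl : ∀ x y, |m x - m y| ≤ l * dist x y) (y : E) : Convex ℝ (kap x0 n m ⁻¹' {y}) := by
  have hdist : ∀ c c' : ℝ, dist (y + c • n) (y + c' • n) = |c - c'| := by
    intro c c'
    rw [dist_add_left, dist_eq_norm, ← sub_smul, norm_smul, hn, mul_one, Real.norm_eq_abs]
  have hmono : ∀ c c' : ℝ, c ≤ c' → sft (inner ℝ (y - x0) n + c) (m (y + c • n))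
      ≤ sft (inner ℝ (y - x0) n + c') (m (y + c' • n)) := by
    intro c c' hcc
    apply sft_mono
    have h1 := hl (y + c • n) (y + c' • n)
    rw [hdist, abs_sub_comm c, abs_of_nonneg (by linarith : 0 ≤ c' - c)] at h1
    nlinarith
  have hchar : ∀ x, kap x0 n m x = y → ∃ c : ℝ, x = y + c • n ∧
      sft (inner ℝ (y - x0) n + c) (m (y + c • n)) = inner ℝ (y - x0) n := by
    intro x hx
    set c := -(sft (inner ℝ (x - x0) n) (m x) - inner ℝ (x - x0) n) with hc
    have e : x = y + c • n := by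
      rw [← hx, hc]
      unfold kap
      rw [neg_smul]
      abel
    refine ⟨c, e, ?_⟩
    rw [e, kap_along hn] at hx
    have h2 : (sft (inner ℝ (y - x0) n + c) (m (y + c • n)) - inner ℝ (y - x0) n) • n = 0 := by
      have := congrArg (fun z => z - y) hx
      simpa using this
    have h3 : n ≠ 0 := by
      intro h; rw [h, norm_zero] at hn; exact zero_ne_one hn
    exact sub_eq_zero.1 ((smul_eq_zero.1 h2).resolve_right h3)
  intro x1 hx1 x2 hx2 α β hα hβ hαβ
  obtain ⟨c1, e1, f1⟩ := hchar x1 hx1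
  obtain ⟨c2, e2, f2⟩ := hchar x2 hx2
  have e3 : α • x1 + β • x2 = y + (α * c1 + β * c2) • n := by
    rw [e1, e2, smul_add, smul_add, smul_smul, smul_smul, add_smul]
    have : α • y + β • y = y := by rw [← add_smul, hαβ, one_smul]
    calc α • y + (α * c1) • n + (β • y + (β * c2) • n)
        = (α • y + β • y) + ((α * c1) • n + (β * c2) • n) := by abel
      _ = _ := by rw [this]
  show kap x0 n m (α • x1 + β • x2) = y
  rw [e3, kap_along hn]
  have key : sft (inner ℝ (y - x0) n + (α * c1 + β * c2)) (m (y + (α * c1 + β * c2) • n))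
      = inner ℝ (y - x0) n := by
    have g1 : α * c1 + β * c2 = c1 + β * (c2 - c1) := by
      have : α = 1 - β := by linarith
      rw [this]; ring
    have g2 : α * c1 + β * c2 = c2 + α * (c1 - c2) := by
      have : β = 1 - α := by linarith
      rw [this]; ring
    rcases le_total c1 c2 with h | h
    · have k1 : α * c1 + β * c2 ≤ c2 := by
        have := mul_nonneg hα (sub_nonneg.2 h)
        rw [g2]; linarith
      have k2 : c1 ≤ α * c1 + β * c2 := by
        have := mul_nonneg hβ (sub_nonneg.2 h)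
        rw [g1]; linarith
      have r1 := hmono _ _ k1
      have r2 := hmono _ _ k2
      rw [f2] at r1
      rw [f1] at r2
      exact le_antisymm r1 r2
    · have k1 : α * c1 + β * c2 ≤ c1 := by
        have := mul_nonneg hβ (sub_nonneg.2 h)
        rw [g1]; linarith
      have k2 : c2 ≤ α * c1 + β * c2 := by
        have := mul_nonneg hα (sub_nonneg.2 h)
        rw [g2]; linarith
      have r1 := hmono _ _ k1
      have r2 := hmono _ _ k2
      rw [f1] at r1
      rw [f2] at r2
      exact le_antisymm r1 r2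
  rw [key, sub_self, zero_smul, add_zero]

theorem kap_surj {x0 n : E} (hn : ‖n‖ = 1) {m : E → ℝ} (hmc : Continuous m) {w : ℝ}
    (hw : ∀ x, |m x| ≤ w) : Function.Surjective (kap x0 n m) := by
  intro y
  have hcont : Continuous (fun c : ℝ => sft (inner ℝ (y - x0) n + c) (m (y + c • n))) := by
    unfold sft
    fun_prop
  have hw0 : 0 ≤ w := (abs_nonneg _).trans (hw y)
  have hb : ∀ c : ℝ, |sft (inner ℝ (y - x0) n + c) (m (y + c • n)) - (inner ℝ (y - x0) n + c)|
      ≤ 2 * w := fun c => (sft_disp _ _).trans (by linarith [hw (y + c • n)])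
  have h1 := hb (-(2 * w))
  have h2 := hb (2 * w)
  rw [abs_le] at h1 h2
  have := intermediate_value_Icc (show -(2 * w) ≤ 2 * w by linarith) hcont.continuousOn
  obtain ⟨c, _, hc⟩ := this (show inner ℝ (y - x0) n ∈ _ from ⟨by linarith, by linarith⟩)
  refine ⟨y + c • n, ?_⟩
  rw [kap_along hn]
  simp only at hc
  rw [hc, sub_self, zero_smul, add_zero]

theorem kap_reg {x0 n : E} (hn : ‖n‖ = 1) {m : E → ℝ} (hmc : Continuous m) {l w : ℝ} (hl1 : l ≤ 1)
    (hl : ∀ x y, |m x - m y| ≤ l * dist x y) (hw : ∀ x, |m x| ≤ w) : Reg (kap x0 n m) (2 * w) :=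
  Reg.of_fibers (kap_cont hmc) (fun x => (kap_disp hn x).trans (by linarith [hw x]))
    (kap_surj hn hmc hw) (fun y => (kap_fiber hn hl1 hl y).isPreconnected)

end Pool.Agent.Hhelper31.PC
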