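import Mathlib
import Pool.Agent.Hhelper31.PC.Flat

set_option autoImplicit false

namespace Pool.Agent.Hhelper31.PC

open MeasureTheory Metric Set Filter Topology
open scoped ENNReal NNReal

section
variable {Y : Type*} [AddCommGroup Y] [Module ℝ Y]

/-- selections of finitely many affine functions -/
def FA (f : E → Y) : Prop := ∃ s : Set (E →ᵃ[ℝ] Y), s.Finite ∧ ∀ x, ∃ A ∈ s, f x = A x

theorem FA.affine (A : E →ᵃ[ℝ] Y) : FA (fun x => A x) := ⟨{A}, finite_singleton _, fun _ => ⟨A, rfl, rfl⟩⟩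

theorem FA.const (c : Y) : FA (fun _ : E => c) := FA.affine (AffineMap.const ℝ E c)

theorem FA.add {f g : E → Y} (hf : FA f) (hg : FA g) : FA (fun x => f x + g x) := by
  obtain ⟨s, hs, h1⟩ := hf
  obtain ⟨t, ht, h2⟩ := hg
  refine ⟨image2 (· + ·) s t, hs.image2 _ ht, fun x => ?_⟩
  obtain ⟨A, hA, e1⟩ := h1 x
  obtain ⟨B, hB, e2⟩ := h2 x
  exact ⟨A + B, mem_image2_of_mem hA hB, by simp only [e1, e2]; rfl⟩

theorem FA.sub {f g : E → Y} (hf : FA f) (hg : FA g) : FA (fun x => f x - g x) := by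
  obtain ⟨s, hs, h1⟩ := hf
  obtain ⟨t, ht, h2⟩ := hg
  refine ⟨image2 (· - ·) s t, hs.image2 _ ht, fun x => ?_⟩
  obtain ⟨A, hA, e1⟩ := h1 x
  obtain ⟨B, hB, e2⟩ := h2 x
  exact ⟨A - B, mem_image2_of_mem hA hB, by simp only [e1, e2]; rfl⟩

/-- a function that picks at every point one of two selections -/
theorem FA.pick {f g h : E → Y} (hf : FA f) (hg : FA g) (hh : ∀ x, h x = f x ∨ h x = g x) : FA h := by
  obtain ⟨s, hs, h1⟩ := hf
  obtain ⟨t, ht, h2⟩ := hg
  refine ⟨s ∪ t, hs.union ht, fun x => ?_⟩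
  rcases hh x with h | h
  · obtain ⟨A, hA, e1⟩ := h1 x
    exact ⟨A, Or.inl hA, by rw [h, e1]⟩
  · obtain ⟨A, hA, e1⟩ := h2 x
    exact ⟨A, Or.inr hA, by rw [h, e1]⟩

theorem FA.smul_const {f : E → ℝ} (hf : FA f) (n : Y) : FA (fun x => f x • n) := by
  obtain ⟨s, hs, h1⟩ := hf
  refine ⟨(fun A => (LinearMap.toSpanSingleton ℝ Y n).toAffineMap.comp A) '' s, hs.image _,
    fun x => ?_⟩
  obtain ⟨A, hA, e1⟩ := h1 x
  exact ⟨_, mem_image_of_mem _ hA, by simp only [e1]; rfl⟩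

theorem FA.comp {f : E → E} {g : E → Y} (hg : FA g) (hf : FA f) : FA (g ∘ f) := by
  obtain ⟨s, hs, h1⟩ := hf
  obtain ⟨t, ht, h2⟩ := hg
  refine ⟨image2 (fun B A => B.comp A) t s, ht.image2 _ hs, fun x => ?_⟩
  obtain ⟨A, hA, e1⟩ := h1 x
  obtain ⟨B, hB, e2⟩ := h2 (f x)
  refine ⟨B.comp A, mem_image2_of_mem hB hA, ?_⟩
  rw [Function.comp_apply, e2, e1]
  rfl

/-- finite families of selections -/
theorem FA.pick_finite {ι : Type*} [Finite ι] {f : ι → E → Y} {h : E → Y} (hf : ∀ i, FA (f i))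
    (hh : ∀ x, ∃ i, h x = f i x) : FA h := by
  choose s hs h1 using hf
  refine ⟨⋃ i, s i, finite_iUnion hs, fun x => ?_⟩
  obtain ⟨i, hi⟩ := hh x
  obtain ⟨A, hA, e⟩ := h1 i x
  exact ⟨A, mem_iUnion.2 ⟨i, hA⟩, by rw [hi, e]⟩

end

theorem FA.max {f g : E → ℝ} (hf : FA f) (hg : FA g) : FA (fun x => max (f x) (g x)) :=
  hf.pick hg (fun _ => max_choice _ _)

theorem FA.min {f g : E → ℝ} (hf : FA f) (hg : FA g) : FA (fun x => min (f x) (g x)) :=
  hf.pick hg (fun _ => min_choice _ _)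

theorem FA.const_mul {f : E → ℝ} (hf : FA f) (c : ℝ) : FA (fun x => c * f x) := by
  have := hf.smul_const c
  simpa [mul_comm] using this

theorem FA.abs {f : E → ℝ} (hf : FA f) : FA (fun x => |f x|) := by
  have h1 : FA (fun x => (-1) * f x) := hf.const_mul (-1)
  apply hf.pick h1
  intro x
  rcases abs_choice (f x) with h | h
  · left; exact h
  · right; simpa using h

theorem FA.id : FA (fun x : E => x) := FA.affine (AffineMap.id ℝ E)

theorem FA.inner_sub (x0 n : E) : FA (fun x : E => inner ℝ (x - x0) n) := by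
  have h1 : FA (fun x : E => inner ℝ n x - inner ℝ n x0) := by
    have h2 : FA (fun x : E => (inner ℝ n x : ℝ)) := by
      have := FA.affine ((innerSL ℝ n).toLinearMap.toAffineMap)
      exact this
    exact h2.sub (FA.const _)
  have e : (fun x : E => (inner ℝ (x - x0) n : ℝ)) = fun x : E => (inner ℝ n x - inner ℝ n x0 : ℝ) := by
    ext x
    rw [inner_sub_left, real_inner_comm, real_inner_comm n x0]
  rw [e]
  exact h1

theorem FA.sft {f g : E → ℝ} (hf : FA f) (hg : FA g) : FA (fun x => sft (f x) (g x)) := by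
  unfold PC.sft
  exact ((hf.sub hg).max (FA.const 0)).add ((hf.add hg).min (FA.const 0))

theorem FA.kap {x0 n : E} {m : E → ℝ} (hm : FA m) : FA (kap x0 n m) := by
  unfold PC.kap
  exact FA.id.add ((((FA.inner_sub x0 n).sft hm).sub (FA.inner_sub x0 n)).smul_const n)

/-- subsets of finite unions of lines -/
def InLines (S : Set E) : Prop := ∃ T : Set (E × E), T.Finite ∧
  ∀ x ∈ S, ∃ p ∈ T, ∃ t : ℝ, x = p.1 + t • p.2

theorem InLines.mono {S S' : Set E} (h : InLines S) (hS : S' ⊆ S) : InLines S' := by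
  obtain ⟨T, hT, h1⟩ := h
  exact ⟨T, hT, fun x hx => h1 x (hS hx)⟩

theorem InLines.union {S S' : Set E} (h : InLines S) (h' : InLines S') : InLines (S ∪ S') := by
  obtain ⟨T, hT, h1⟩ := h
  obtain ⟨T', hT', h1'⟩ := h'
  refine ⟨T ∪ T', hT.union hT', fun x hx => ?_⟩
  rcases hx with hx | hx
  · obtain ⟨p, hp, h⟩ := h1 x hx
    exact ⟨p, Or.inl hp, h⟩
  · obtain ⟨p, hp, h⟩ := h1' x hx
    exact ⟨p, Or.inr hp, h⟩

theorem InLines.iUnion {ι : Type*} [Finite ι] {S : ι → Set E} (h : ∀ i, InLines (S i)) :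
    InLines (⋃ i, S i) := by
  choose T hT h1 using h
  refine ⟨⋃ i, T i, finite_iUnion hT, fun x hx => ?_⟩
  obtain ⟨i, hi⟩ := mem_iUnion.1 hx
  obtain ⟨p, hp, h⟩ := h1 i x hi
  exact ⟨p, mem_iUnion.2 ⟨i, hp⟩, h⟩

theorem InLines.image {S : Set E} (h : InLines S) {f : E → E} (hf : FA f) : InLines (f '' S) := by
  obtain ⟨T, hT, h1⟩ := h
  obtain ⟨s, hs, h2⟩ := hf
  refine ⟨image2 (fun (A : E →ᵃ[ℝ] E) (p : E × E) => (A p.1, A.linear p.2)) s T, hs.image2 _ hT, ?_⟩
  rintro _ ⟨x, hx, rfl⟩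
  obtain ⟨p, hp, t, ht⟩ := h1 x hx
  obtain ⟨A, hA, e⟩ := h2 x
  refine ⟨_, mem_image2_of_mem hA hp, t, ?_⟩
  rw [e, ht]
  simp only
  rw [add_comm p.1, ← vadd_eq_add, AffineMap.map_vadd, map_smul, vadd_eq_add, add_comm]

theorem InLines.of_finite {S : Set E} (h : S.Finite) : InLines S :=
  ⟨(fun x => (x, 0)) '' S, h.image _, fun x hx => ⟨_, mem_image_of_mem _ hx, 0, by simp⟩⟩

theorem InLines.line {S : Set E} (x0 e : E) (h : ∀ x ∈ S, ∃ t : ℝ, x = x0 + t • e) : InLines S :=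
  ⟨{(x0, e)}, finite_singleton _, fun x hx => ⟨(x0, e), rfl, h x hx⟩⟩

/-- bounded subsets of finite unions of lines are covered by finitely many segments -/
theorem InLines.segments {S : Set E} (h : InLines S) (hb : Bornology.IsBounded S) :
    ∃ T : Set (E × E), T.Finite ∧ S ⊆ ⋃ p ∈ T, segment ℝ p.1 p.2 := by
  obtain ⟨T, hT, h1⟩ := h
  obtain ⟨R, hR⟩ := hb.subset_closedBall 0
  let F : E × E → E × E := fun p => (p.1 - ((R + ‖p.1‖) / ‖p.2‖) • p.2, p.1 + ((R + ‖p.1‖) / ‖p.2‖) • p.2)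
  refine ⟨F '' T, hT.image _, fun x hx => ?_⟩
  obtain ⟨p, hp, t, ht⟩ := h1 x hx
  simp only [mem_iUnion, exists_prop]
  refine ⟨F p, mem_image_of_mem _ hp, ?_⟩
  by_cases hv : p.2 = 0
  · have e1 : x = p.1 := by rw [ht, hv, smul_zero, add_zero]
    have e2 : F p = (p.1, p.1) := by
      simp only [F, hv, smul_zero, sub_zero, add_zero]
    rw [e2, e1]
    exact left_mem_segment _ _ _
  · have hv' : 0 < ‖p.2‖ := norm_pos_iff.2 hv
    set L := (R + ‖p.1‖) / ‖p.2‖ with hL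
    have hxR : ‖x‖ ≤ R := by simpa using hR hx
    have htL : |t| ≤ L := by
      rw [hL, le_div_iff₀ hv']
      have : t • p.2 = x - p.1 := by rw [ht, add_sub_cancel_left]
      calc |t| * ‖p.2‖ = ‖t • p.2‖ := by rw [norm_smul, Real.norm_eq_abs]
        _ = ‖x - p.1‖ := by rw [this]
        _ ≤ ‖x‖ + ‖p.1‖ := norm_sub_le _ _
        _ ≤ R + ‖p.1‖ := by linarith
    have hL0 : 0 ≤ L := (abs_nonneg _).trans htL
    rw [abs_le] at htL
    show x ∈ segment ℝ (p.1 - L • p.2) (p.1 + L • p.2)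
    rcases eq_or_lt_of_le hL0 with h0 | h0
    · have : t = 0 := by
        rw [← h0] at htL
        linarith [htL.1, htL.2]
      rw [ht, this, ← h0]
      simp
    · refine ⟨(L - t) / (2 * L), (L + t) / (2 * L), ?_, ?_, ?_, ?_⟩
      · apply div_nonneg <;> linarith
      · apply div_nonneg <;> linarith
      · field_simp; ring
      · rw [ht, smul_sub, smul_add, smul_smul, smul_smul]
        have e1 : (L - t) / (2 * L) + (L + t) / (2 * L) = 1 := by field_simp; ring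
        have e2 : (L + t) / (2 * L) * L - (L - t) / (2 * L) * L = t := by field_simp; ring
        calc ((L - t) / (2 * L)) • p.1 - ((L - t) / (2 * L) * L) • p.2
              + (((L + t) / (2 * L)) • p.1 + ((L + t) / (2 * L) * L) • p.2)
            = ((L - t) / (2 * L) + (L + t) / (2 * L)) • p.1
              + ((L + t) / (2 * L) * L - (L - t) / (2 * L) * L) • p.2 := by
                rw [add_smul, sub_smul]; abel
          _ = p.1 + t • p.2 := by rw [e1, e2, one_smul]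

end Pool.Agent.Hhelper31.PC
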