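import Mathlib
import Pool.Agent.Hhelper31.PC.FA

set_option autoImplicit false

namespace Pool.Agent.Hhelper31.PC

open MeasureTheory Metric Set Filter Topology
open scoped ENNReal NNReal

/-- Lipschitz condition with a real constant -/
def Lp (c : ℝ) (f : E → E) : Prop := ∀ x y, dist (f x) (f y) ≤ c * dist x y

theorem Lp.lip {c : ℝ} {f : E → E} (h : Lp c f) : LipschitzWith (Real.toNNReal c) f := by
  apply LipschitzWith.of_dist_le_mul
  intro x y
  apply (h x y).trans
  gcongr
  exact Real.le_coe_toNNReal c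

theorem Lp.cont {c : ℝ} {f : E → E} (h : Lp c f) : Continuous f := h.lip.continuous

theorem Lp.comp {a b : ℝ} {f g : E → E} (hg : Lp b g) (hf : Lp a f) (hb : 0 ≤ b) :
    Lp (b * a) (g ∘ f) := by
  intro x y
  calc dist (g (f x)) (g (f y)) ≤ b * dist (f x) (f y) := hg _ _
    _ ≤ b * (a * dist x y) := by gcongr; exact hf x y
    _ = b * a * dist x y := by ring

theorem Lp.mono {a b : ℝ} {f : E → E} (hf : Lp a f) (h : a ≤ b) : Lp b f := fun x y =>
  (hf x y).trans (by gcongr)

/-- the maps used for straightening -/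
structure Nice (f : E → E) (η : ℝ) : Prop where
  lip : Lp (1 + η) f
  reg : Reg f η
  fa : FA f

theorem Nice.mono {f : E → E} {a b : ℝ} (h : Nice f a) (hab : a ≤ b) : Nice f b :=
  ⟨h.lip.mono (by linarith), h.reg.mono hab, h.fa⟩

theorem Nice.comp {f g : E → E} {a b : ℝ} (hg : Nice g b) (hf : Nice f a) :
    Nice (g ∘ f) (a + b + a * b) := by
  have ha := hf.reg.nonneg
  have hb := hg.reg.nonneg
  refine ⟨(hg.lip.comp hf.lip (by linarith)).mono (le_of_eq (by ring)), ?_, hg.fa.comp hf.fa⟩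
  exact (hg.reg.comp hf.reg).mono (by nlinarith)

theorem Nice.id : Nice (fun x => x) 0 :=
  ⟨fun x y => by simp, Reg.id, FA.id⟩

theorem exit_point {C : Set E} (hC : IsClosed C) {x y : E} (hx : x ∈ C) (hy : y ∉ C) :
    ∃ z ∈ segment ℝ x y, z ∈ C ∧ z ∈ closure Cᶜ := by
  obtain ⟨z, hz, hz'⟩ := preconn_frontier (convex_segment x y).isPreconnected
    ⟨x, left_mem_segment ℝ x y, hx⟩ ⟨y, right_mem_segment ℝ x y, hy⟩
  rw [frontier_eq_closure_inter_closure] at hz'
  exact ⟨z, hz, hC.closure_eq ▸ hz'.1, hz'.2⟩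

theorem fix_closure {C : Set E} {κ : E → E} (hκ : Continuous κ) (hid : ∀ x, x ∉ C → κ x = x) {z : E}
    (hz : z ∈ closure Cᶜ) : κ z = z := by
  have h1 : IsClosed {z | κ z = z} := isClosed_eq hκ continuous_id
  have h2 : Cᶜ ⊆ {z | κ z = z} := fun x hx => hid x hx
  exact closure_minimal h2 h1 hz

theorem seg_dist {x y z : E} (hz : z ∈ segment ℝ x y) : dist x z + dist z y = dist x y :=
  dist_add_dist_of_mem_segment hz

section
variable {ι : Type*} {C : ι → Set E} {κ : ι → E → E} {G : E → E}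

theorem glue_lip (hC : ∀ i, IsClosed (C i)) (hdisj : ∀ i j, i ≠ j → Disjoint (C i) (C j))
    {c : ℝ} (hc : 1 ≤ c) (hκ : ∀ i, Lp c (κ i)) (hid : ∀ i x, x ∉ C i → κ i x = x)
    (hG1 : ∀ i x, x ∈ C i → G x = κ i x) (hG2 : ∀ x, (∀ i, x ∉ C i) → G x = x) : Lp c G := by
  have hA : ∀ z y, G z = z → dist z (G y) ≤ c * dist z y := by
    intro z y hz
    by_cases hy : ∃ j, y ∈ C j
    · obtain ⟨j, hj⟩ := hy
      rw [hG1 j y hj]
      by_cases hzj : z ∈ C j
      · have := hκ j z y
        rw [← hG1 j z hzj, hz] at this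
        exact this
      · obtain ⟨z', h1, h2, h3⟩ := exit_point (hC j) hj hzj
        have h4 := fix_closure (hκ j).cont (hid j) h3
        have h5 := seg_dist h1
        calc dist z (κ j y) ≤ dist z z' + dist z' (κ j y) := dist_triangle _ _ _
          _ = dist z' z + dist (κ j y) (κ j z') := by rw [h4, dist_comm z z', dist_comm z' (κ j y)]
          _ ≤ dist z' z + c * dist y z' := by gcongr; exact hκ j y z'
          _ ≤ c * dist z' z + c * dist y z' := by
              gcongr
              nlinarith [dist_nonneg (x := z') (y := z)]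
          _ = c * dist y z := by rw [← h5]; ring
          _ = c * dist z y := by rw [dist_comm]
    · push Not at hy
      rw [hG2 y hy]
      nlinarith [dist_nonneg (x := z) (y := y)]
  intro x y
  by_cases hx : ∃ i, x ∈ C i
  · obtain ⟨i, hi⟩ := hx
    by_cases hy : y ∈ C i
    · rw [hG1 i x hi, hG1 i y hy]
      exact hκ i x y
    · obtain ⟨z, h1, h2, h3⟩ := exit_point (hC i) hi hy
      have h4 := fix_closure (hκ i).cont (hid i) h3
      have h5 := seg_dist h1
      have h6 : G z = z := by rw [hG1 i z h2, h4]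
      calc dist (G x) (G y) ≤ dist (G x) z + dist z (G y) := dist_triangle _ _ _
        _ = dist (κ i x) (κ i z) + dist z (G y) := by rw [hG1 i x hi, h4]
        _ ≤ c * dist x z + c * dist z y := add_le_add (hκ i x z) (hA z y h6)
        _ = c * dist x y := by rw [← h5]; ring
  · push Not at hx
    rw [hG2 x hx]
    exact hA x y (hG2 x hx)

theorem glue_reg (hdisj : ∀ i j, i ≠ j → Disjoint (C i) (C j)) {a : ℝ}
    (hGc : Continuous G) (ha0 : 0 ≤ a)
    (hd : ∀ i x, ‖κ i x - x‖ ≤ a) (hs : ∀ i, Function.Surjective (κ i))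
    (hf : ∀ i y, IsPreconnected (κ i ⁻¹' {y})) (hid : ∀ i x, x ∉ C i → κ i x = x)
    (hmap : ∀ i x, x ∈ C i → κ i x ∈ C i)
    (hG1 : ∀ i x, x ∈ C i → G x = κ i x) (hG2 : ∀ x, (∀ i, x ∉ C i) → G x = x) : Reg G a := by
  have hback : ∀ i x, κ i x ∈ C i → x ∈ C i := by
    intro i x hx
    by_contra hn
    rw [hid i x hn] at hx
    exact hn hx
  apply Reg.of_fibers hGc
  · intro x
    by_cases hx : ∃ i, x ∈ C i
    · obtain ⟨i, hi⟩ := hx
      rw [hG1 i x hi]
      exact hd i x
    · push Not at hx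
      rw [hG2 x hx, sub_self, norm_zero]
      exact ha0
  · intro y
    by_cases hy : ∃ i, y ∈ C i
    · obtain ⟨i, hi⟩ := hy
      obtain ⟨x, hx⟩ := hs i y
      exact ⟨x, by rw [hG1 i x (hback i x (hx ▸ hi)), hx]⟩
    · push Not at hy
      exact ⟨y, hG2 y hy⟩
  · intro y
    by_cases hy : ∃ i, y ∈ C i
    · obtain ⟨i, hi⟩ := hy
      have : G ⁻¹' {y} = κ i ⁻¹' {y} := by
        ext x
        constructor
        · intro hx
          have hx' : G x = y := hx
          by_cases hxC : ∃ j, x ∈ C j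
          · obtain ⟨j, hj⟩ := hxC
            rw [hG1 j x hj] at hx'
            have h1 : y ∈ C j := hx' ▸ hmap j x hj
            have h2 : i = j := by
              by_contra hij
              exact Set.disjoint_left.1 (hdisj i j hij) hi h1
            rw [h2]
            exact hx'
          · push Not at hxC
            rw [hG2 x hxC] at hx'
            exact absurd (hx' ▸ hi) (hxC i)
        · intro hx
          have hx' : κ i x = y := hx
          show G x = y
          rw [hG1 i x (hback i x (hx' ▸ hi)), hx']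
      rw [this]
      exact hf i y
    · push Not at hy
      have : G ⁻¹' {y} = {y} := by
        ext x
        constructor
        · intro hx
          have hx' : G x = y := hx
          by_cases hxC : ∃ j, x ∈ C j
          · obtain ⟨j, hj⟩ := hxC
            rw [hG1 j x hj] at hx'
            exact absurd (hx' ▸ hmap j x hj) (hy j)
          · push Not at hxC
            rw [hG2 x hxC] at hx'
            exact hx'
        · intro hx
          rw [mem_singleton_iff] at hx
          rw [hx]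
          exact hG2 y hy
      rw [this]
      exact isPreconnected_singleton

end

/-! ### the flattening of one box -/

/-- rotation by a right angle -/
noncomputable def perp (e : E) : E := WithLp.toLp 2 ![-e 1, e 0]

theorem perp_zero (e : E) : perp e 0 = -e 1 := rfl
theorem perp_one (e : E) : perp e 1 = e 0 := rfl

theorem inner_E (x y : E) : inner ℝ x y = x 0 * y 0 + x 1 * y 1 := by
  rw [PiLp.inner_apply, Fin.sum_univ_two]
  simp only [RCLike.inner_apply, conj_trivial]
  ring

theorem inner_cont (x0 n : E) : Continuous (fun x : E => (inner ℝ (x - x0) n : ℝ)) := by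
  fun_prop

theorem norm_sq_E' (x : E) : ‖x‖ ^ 2 = x 0 ^ 2 + x 1 ^ 2 := by
  rw [EuclideanSpace.norm_sq_eq, Fin.sum_univ_two, Real.norm_eq_abs, Real.norm_eq_abs, sq_abs,
    sq_abs]

theorem perp_norm (e : E) : ‖perp e‖ = ‖e‖ := by
  have h : ‖perp e‖ ^ 2 = ‖e‖ ^ 2 := by
    rw [norm_sq_E', norm_sq_E', perp_zero, perp_one]
    ring
  exact (pow_left_inj₀ (norm_nonneg _) (norm_nonneg _) two_ne_zero).1 h

theorem inner_perp (e : E) : inner ℝ e (perp e) = 0 := by
  rw [inner_E, perp_zero, perp_one]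
  ring

theorem inner_perp' (e : E) : inner ℝ (perp e) e = 0 := by
  rw [inner_E, perp_zero, perp_one]
  ring

theorem decomp {e : E} (he : ‖e‖ = 1) (v : E) :
    v = (inner ℝ v e) • e + (inner ℝ v (perp e)) • perp e := by
  have h : e 0 ^ 2 + e 1 ^ 2 = 1 := by rw [← norm_sq_E', he, one_pow]
  ext i
  rw [PiLp.add_apply, PiLp.smul_apply, PiLp.smul_apply, inner_E, inner_E, smul_eq_mul, smul_eq_mul]
  fin_cases i
  · show v 0 = (v 0 * e 0 + v 1 * e 1) * e 0 + (v 0 * perp e 0 + v 1 * perp e 1) * perp e 0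
    rw [perp_zero, perp_one]
    have : (v 0 * e 0 + v 1 * e 1) * e 0 + (v 0 * -e 1 + v 1 * e 0) * -e 1
      = v 0 * (e 0 ^ 2 + e 1 ^ 2) := by ring
    rw [this, h, mul_one]
  · show v 1 = (v 0 * e 0 + v 1 * e 1) * e 1 + (v 0 * perp e 0 + v 1 * perp e 1) * perp e 1
    rw [perp_zero, perp_one]
    have : (v 0 * e 0 + v 1 * e 1) * e 1 + (v 0 * -e 1 + v 1 * e 0) * e 0
      = v 1 * (e 0 ^ 2 + e 1 ^ 2) := by ring
    rw [this, h, mul_one]

theorem pyth {e : E} (he : ‖e‖ = 1) (v : E) :
    ‖v‖ ^ 2 = (inner ℝ v e) ^ 2 + (inner ℝ v (perp e)) ^ 2 := by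
  have h : e 0 ^ 2 + e 1 ^ 2 = 1 := by rw [← norm_sq_E', he, one_pow]
  rw [norm_sq_E', inner_E, inner_E, perp_zero, perp_one]
  have : (v 0 * e 0 + v 1 * e 1) ^ 2 + (v 0 * -e 1 + v 1 * e 0) ^ 2
    = (v 0 ^ 2 + v 1 ^ 2) * (e 0 ^ 2 + e 1 ^ 2) := by ring
  rw [this, h, mul_one]

theorem sft_abs_le {s m : ℝ} (hm : 0 ≤ m) : |sft s m| ≤ |s| := by
  have := sft_lip_s hm s 0
  rw [sft_eq_zero (s := 0) (m := m) (by rwa [abs_zero]), sub_zero, sub_zero] at this
  exact this

section
variable (x0 e : E) (r θ : ℝ)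

/-- the box -/
def bC : Set E := {x | |inner ℝ (x - x0) e| ≤ r / 2 ∧ |inner ℝ (x - x0) (perp e)| ≤ r / 2}

/-- the open zone that is flattened -/
def bZ : Set E := {x | |inner ℝ (x - x0) e| < r / 4 ∧ |inner ℝ (x - x0) (perp e)| < θ * r}

/-- the cutoff function -/
noncomputable def cut (x : E) : ℝ :=
  max 0 (min (θ * r) (4 * θ * (r / 2 - max |inner ℝ (x - x0) e| |inner ℝ (x - x0) (perp e)|)))

/-- flattening of one box -/
noncomputable def flt : E → E := kap x0 (perp e) (cut x0 e r θ)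

variable {x0 e r θ}

theorem cut_nonneg (x : E) : 0 ≤ cut x0 e r θ x := le_max_left _ _

theorem cut_le (hr : 0 < r) (hθ : 0 < θ) (x : E) : cut x0 e r θ x ≤ θ * r :=
  max_le (by positivity) (min_le_left _ _)

theorem cut_zero (hθ : 0 < θ) {x : E} (hx : x ∉ bC x0 e r) : cut x0 e r θ x = 0 := by
  unfold cut
  apply max_eq_left
  apply (min_le_right _ _).trans
  apply mul_nonpos_of_nonneg_of_nonpos (by positivity)
  by_contra h
  push Not at h
  apply hx
  constructor
  · have := le_max_left |(inner ℝ (x - x0) e : ℝ)| |inner ℝ (x - x0) (perp e)|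
    linarith
  · have := le_max_right |(inner ℝ (x - x0) e : ℝ)| |inner ℝ (x - x0) (perp e)|
    linarith

theorem cut_full (hr : 0 < r) (hθ : 0 < θ) (hθ1 : θ ≤ 1 / 4) {x : E} (hx : x ∈ bZ x0 e r θ) :
    θ * r ≤ cut x0 e r θ x := by
  unfold cut
  apply le_max_of_le_right
  apply le_min le_rfl
  have h1 : max |(inner ℝ (x - x0) e : ℝ)| |inner ℝ (x - x0) (perp e)| ≤ r / 4 := by
    apply max_le hx.1.le
    have := hx.2
    nlinarith
  have : r / 4 ≤ r / 2 - max |(inner ℝ (x - x0) e : ℝ)| |inner ℝ (x - x0) (perp e)| := by linarith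
  nlinarith

theorem inner_abs_sub_le (n : E) (hn : ‖n‖ = 1) (x y : E) :
    |(inner ℝ (x - x0) n : ℝ) - inner ℝ (y - x0) n| ≤ dist x y := by
  rw [← inner_sub_left, sub_sub_sub_cancel_right, dist_eq_norm]
  have := abs_real_inner_le_norm (x - y) n
  rwa [hn, mul_one] at this

theorem cut_lip (he : ‖e‖ = 1) (hθ : 0 < θ) (x y : E) :
    |cut x0 e r θ x - cut x0 e r θ y| ≤ 4 * θ * dist x y := by
  unfold cut
  have h0 : abs (max |(inner ℝ (x - x0) e : ℝ)| |(inner ℝ (x - x0) (perp e) : ℝ)|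
      - max |(inner ℝ (y - x0) e : ℝ)| |(inner ℝ (y - x0) (perp e) : ℝ)|) ≤ dist x y := by
    apply (abs_max_sub_max_le_max _ _ _ _).trans
    apply max_le
    · exact (abs_abs_sub_abs_le_abs_sub _ _).trans (inner_abs_sub_le e he x y)
    · exact (abs_abs_sub_abs_le_abs_sub _ _).trans (inner_abs_sub_le _ (by rw [perp_norm, he]) x y)
  set A := max |(inner ℝ (x - x0) e : ℝ)| |(inner ℝ (x - x0) (perp e) : ℝ)|
  set B := max |(inner ℝ (y - x0) e : ℝ)| |(inner ℝ (y - x0) (perp e) : ℝ)|
  have h1 : |max 0 (min (θ * r) (4 * θ * (r / 2 - A))) - max 0 (min (θ * r) (4 * θ * (r / 2 - B)))|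
      ≤ |min (θ * r) (4 * θ * (r / 2 - A)) - min (θ * r) (4 * θ * (r / 2 - B))| := by
    have := abs_max_sub_max_le_max 0 (min (θ * r) (4 * θ * (r / 2 - A))) 0
      (min (θ * r) (4 * θ * (r / 2 - B)))
    rwa [sub_self, abs_zero, max_eq_right (abs_nonneg (min (θ * r) (4 * θ * (r / 2 - A))
      - min (θ * r) (4 * θ * (r / 2 - B))))] at this
  have h2 : |min (θ * r) (4 * θ * (r / 2 - A)) - min (θ * r) (4 * θ * (r / 2 - B))|
      ≤ |4 * θ * (r / 2 - A) - 4 * θ * (r / 2 - B)| := by
    have := abs_min_sub_min_le_max (θ * r) (4 * θ * (r / 2 - A)) (θ * r) (4 * θ * (r / 2 - B))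
    rw [sub_self, abs_zero, max_eq_right (abs_nonneg _)] at this
    exact this
  refine (h1.trans h2).trans ?_
  have h3 : 4 * θ * (r / 2 - A) - 4 * θ * (r / 2 - B) = -(4 * θ * (A - B)) := by ring
  rw [h3, abs_neg, abs_mul, abs_of_pos (by positivity : 0 < 4 * θ)]
  gcongr

theorem cut_FA : FA (cut x0 e r θ) := by
  unfold cut
  exact (FA.const 0).max ((FA.const _).min (((FA.const _).sub ((FA.inner_sub x0 e).abs.max
    (FA.inner_sub x0 (perp e)).abs)).const_mul _))

theorem cut_cont : Continuous (cut x0 e r θ) := by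
  unfold cut
  fun_prop

theorem flt_lip (he : ‖e‖ = 1) (hθ : 0 < θ) : Lp (1 + 8 * θ) (flt x0 e r θ) := by
  intro x y
  have := kap_lip (x0 := x0) (n := perp e) (by rw [perp_norm, he]) (m := cut x0 e r θ)
    cut_nonneg (cut_lip he hθ) x y
  rw [show 1 + 2 * (4 * θ) = 1 + 8 * θ by ring] at this
  exact this

theorem flt_id (hθ : 0 < θ) {x : E} (hx : x ∉ bC x0 e r) : flt x0 e r θ x = x :=
  kap_of_m_zero (cut_zero hθ hx)

theorem flt_inner (x : E) : inner ℝ (flt x0 e r θ x - x0) e = inner ℝ (x - x0) e := by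
  unfold flt kap
  rw [add_sub_right_comm, inner_add_left, inner_smul_left, inner_perp', mul_zero, add_zero]

theorem flt_inner' (he : ‖e‖ = 1) (x : E) : inner ℝ (flt x0 e r θ x - x0) (perp e)
    = sft (inner ℝ (x - x0) (perp e)) (cut x0 e r θ x) := by
  unfold flt kap
  rw [add_sub_right_comm, inner_add_left, inner_smul_left, real_inner_self_eq_norm_sq, perp_norm, he]
  simp

theorem flt_map (he : ‖e‖ = 1) {x : E} (hx : x ∈ bC x0 e r) : flt x0 e r θ x ∈ bC x0 e r := by
  constructor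
  · rw [flt_inner]
    exact hx.1
  · rw [flt_inner' he]
    exact (sft_abs_le (cut_nonneg x)).trans hx.2

theorem flt_zone (he : ‖e‖ = 1) (hr : 0 < r) (hθ : 0 < θ) (hθ1 : θ ≤ 1 / 4) {x : E}
    (hx : x ∈ bZ x0 e r θ) : flt x0 e r θ x = x0 + (inner ℝ (x - x0) e : ℝ) • e := by
  have h1 := decomp he (flt x0 e r θ x - x0)
  rw [flt_inner, flt_inner' he, sft_eq_zero (hx.2.le.trans (cut_full hr hθ hθ1 hx)), zero_smul,
    add_zero] at h1
  rw [← h1]
  abel

theorem bC_closed : IsClosed (bC x0 e r) := by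
  unfold bC
  exact (isClosed_le (inner_cont x0 e).abs continuous_const).inter
    (isClosed_le (inner_cont x0 (perp e)).abs continuous_const)

theorem bZ_open : IsOpen (bZ x0 e r θ) := by
  unfold bZ
  exact (isOpen_lt (inner_cont x0 e).abs continuous_const).inter
    (isOpen_lt (inner_cont x0 (perp e)).abs continuous_const)

theorem bC_ball (he : ‖e‖ = 1) (hr : 0 < r) : bC x0 e r ⊆ closedBall x0 r := by
  intro x hx
  rw [mem_closedBall, dist_eq_norm]
  have h1 := pyth he (x - x0)
  have h2 : ‖x - x0‖ ^ 2 ≤ r ^ 2 := by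
    rw [h1, ← sq_abs (inner ℝ (x - x0) e), ← sq_abs (inner ℝ (x - x0) (perp e))]
    have h3 := pow_le_pow_left₀ (abs_nonneg _) hx.1 2
    have h4 := pow_le_pow_left₀ (abs_nonneg _) hx.2 2
    nlinarith
  exact (pow_le_pow_iff_left₀ (norm_nonneg _) hr.le two_ne_zero).1 h2

theorem bZ_sub (hr : 0 < r) (hθ1 : θ ≤ 1 / 4) : bZ x0 e r θ ⊆ bC x0 e r := by
  intro x hx
  refine ⟨by linarith [hx.1], ?_⟩
  have := hx.2
  nlinarith

end

/-- The simultaneous flattening of finitely many disjoint boxes. -/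
theorem multi_flat {ι : Type*} [Finite ι] (x0 e : ι → E) (r : ι → ℝ) {θ R : ℝ}
    (he : ∀ i, ‖e i‖ = 1) (hr : ∀ i, 0 < r i) (hR : ∀ i, r i ≤ R) (hR1 : R ≤ 1)
    (hθ : 0 < θ) (hθ1 : θ ≤ 1 / 4)
    (hdisj : ∀ i j, i ≠ j → Disjoint (bC (x0 i) (e i) (r i)) (bC (x0 j) (e j) (r j))) :
    ∃ G : E → E, Nice G (8 * θ) ∧ InLines (G '' ⋃ i, bZ (x0 i) (e i) (r i) θ) := by
  classical
  let C : ι → Set E := fun i => bC (x0 i) (e i) (r i)
  let κ : ι → E → E := fun i => flt (x0 i) (e i) (r i) θ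
  let G : E → E := fun x => if h : ∃ i, x ∈ C i then κ h.choose x else x
  have hG1 : ∀ i x, x ∈ C i → G x = κ i x := by
    intro i x hx
    have h : ∃ i, x ∈ C i := ⟨i, hx⟩
    have h2 : h.choose = i := by
      by_contra hne
      exact Set.disjoint_left.1 (hdisj _ _ hne) h.choose_spec hx
    simp only [G, dif_pos h]
    rw [h2]
  have hG2 : ∀ x, (∀ i, x ∉ C i) → G x = x := by
    intro x hx
    have h : ¬ ∃ i, x ∈ C i := by push Not; exact hx
    simp only [G, dif_neg h]
  have hlip : Lp (1 + 8 * θ) G := glue_lip (C := C) (κ := κ) (fun i => bC_closed) hdisj (by linarith)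
    (fun i => flt_lip (he i) hθ) (fun i x hx => flt_id hθ hx) hG1 hG2
  have hreg : Reg G (8 * θ) := by
    refine glue_reg (C := C) (κ := κ) hdisj hlip.cont (by positivity) ?_ ?_ ?_
      (fun i x hx => flt_id hθ hx) (fun i x hx => flt_map (he i) hx) hG1 hG2
    · intro i x
      refine (kap_disp (by rw [perp_norm, he i]) x).trans ?_
      rw [abs_of_nonneg (cut_nonneg x)]
      have h1 := cut_le (x0 := x0 i) (e := e i) (hr i) hθ x
      have h2 := hR i
      nlinarith
    · intro i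
      exact kap_surj (by rw [perp_norm, he i]) cut_cont (w := θ * r i) (fun x => by
        rw [abs_of_nonneg (cut_nonneg x)]
        exact cut_le (hr i) hθ x)
    · intro i y
      exact (kap_fiber (by rw [perp_norm, he i]) (l := 4 * θ) (by linarith)
        (cut_lip (he i) hθ) y).isPreconnected
  have hfa : FA G := by
    apply FA.pick_finite (ι := Option ι) (f := fun o => match o with
      | none => fun x => x
      | some i => κ i)
    · intro o
      cases o with
      | none => exact FA.id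
      | some i => exact FA.kap cut_FA
    · intro x
      by_cases hx : ∃ i, x ∈ C i
      · obtain ⟨i, hi⟩ := hx
        exact ⟨some i, hG1 i x hi⟩
      · push Not at hx
        exact ⟨none, hG2 x hx⟩
  refine ⟨G, ⟨hlip, hreg, hfa⟩, ?_⟩
  rw [image_iUnion]
  apply InLines.iUnion
  intro i
  apply InLines.line (x0 i) (e i)
  rintro _ ⟨x, hx, rfl⟩
  refine ⟨inner ℝ (x - x0 i) (e i), ?_⟩
  rw [hG1 i x (bZ_sub (hr i) hθ1 hx)]
  exact flt_zone (he i) (hr i) hθ hθ1 hx

end Pool.Agent.Hhelper31.PC
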