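import Mathlib
import Pool.Agent.Hhelper31.PC.Glue

set_option autoImplicit false

namespace Pool.Agent.Hhelper31.PC

open MeasureTheory Metric Set Filter Topology
open scoped ENNReal NNReal

theorem kap_inner_self {x0 n : E} (hn : ‖n‖ = 1) (m : E → ℝ) (x : E) :
    inner ℝ (kap x0 n m x - x0) n = sft (inner ℝ (x - x0) n) (m x) := by
  unfold kap
  rw [add_sub_right_comm, inner_add_left, inner_smul_left, real_inner_self_eq_norm_sq, hn]
  simp

theorem kap_inner_orth {x0 n e : E} (hn : inner ℝ n e = 0) (m : E → ℝ) (x : E) :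
    inner ℝ (kap x0 n m x - x0) e = inner ℝ (x - x0) e := by
  unfold kap
  rw [add_sub_right_comm, inner_add_left, inner_smul_left, hn, mul_zero, add_zero]

/-- collapsing one ball to a point -/
theorem clamp_one (x0 : E) (ρ : ℝ) (hρ : 0 ≤ ρ) : ∃ C : E → E, Lp 1 C ∧ Reg C (4 * ρ) ∧ FA C ∧
    ∀ x ∈ closedBall x0 ρ, C x = x0 := by
  set e : E := EuclideanSpace.single 0 1 with he'
  have he : ‖e‖ = 1 := by simp [he']
  have hp : ‖perp e‖ = 1 := by rw [perp_norm, he]
  set m : E → ℝ := fun _ => ρ with hm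
  have hm0 : ∀ x, 0 ≤ m x := fun _ => hρ
  have hml : ∀ x y, |m x - m y| ≤ 0 * dist x y := fun x y => by simp [hm]
  have hmw : ∀ x, |m x| ≤ ρ := fun x => by rw [hm]; simp [abs_of_nonneg hρ]
  have hmc : Continuous m := continuous_const
  have l1 : Lp 1 (kap x0 e m) := fun x y => by
    have := kap_lip (x0 := x0) he hm0 hml x y
    simpa using this
  have l2 : Lp 1 (kap x0 (perp e) m) := fun x y => by
    have := kap_lip (x0 := x0) hp hm0 hml x y
    simpa using this
  have r1 : Reg (kap x0 e m) (2 * ρ) := kap_reg he hmc (by norm_num) hml hmw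
  have r2 : Reg (kap x0 (perp e) m) (2 * ρ) := kap_reg hp hmc (by norm_num) hml hmw
  have f1 : FA (kap x0 e m) := FA.kap (FA.const ρ)
  have f2 : FA (kap x0 (perp e) m) := FA.kap (FA.const ρ)
  refine ⟨kap x0 (perp e) m ∘ kap x0 e m, ?_, ?_, f2.comp f1, ?_⟩
  · have := l2.comp l1 (by norm_num)
    simpa using this
  · have := r2.comp r1
    exact this.mono (by linarith)
  · intro x hx
    rw [mem_closedBall, dist_eq_norm] at hx
    have h1 : |(inner ℝ (x - x0) e : ℝ)| ≤ ρ := by
      have := abs_real_inner_le_norm (x - x0) e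
      rw [he, mul_one] at this
      exact this.trans hx
    have h2 : |(inner ℝ (x - x0) (perp e) : ℝ)| ≤ ρ := by
      have := abs_real_inner_le_norm (x - x0) (perp e)
      rw [hp, mul_one] at this
      exact this.trans hx
    have g1 : inner ℝ (kap x0 e m x - x0) e = 0 := by
      rw [kap_inner_self he, sft_eq_zero h1]
    have g2 : inner ℝ (kap x0 e m x - x0) (perp e) = inner ℝ (x - x0) (perp e) :=
      kap_inner_orth (inner_perp e) m x
    have g3 : inner ℝ (kap x0 (perp e) m (kap x0 e m x) - x0) (perp e) = 0 := by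
      rw [kap_inner_self hp, g2, sft_eq_zero h2]
    have g4 : inner ℝ (kap x0 (perp e) m (kap x0 e m x) - x0) e = 0 := by
      rw [kap_inner_orth (inner_perp' e), g1]
    have g5 := decomp he (kap x0 (perp e) m (kap x0 e m x) - x0)
    rw [g3, g4, zero_smul, zero_smul, add_zero] at g5
    exact sub_eq_zero.1 g5

theorem clamp_list (k : ℕ) : ∀ (l : List (E × ℝ)), l.length = k → (∀ p ∈ l, 0 ≤ p.2) →
    ∃ G : E → E, Lp 1 G ∧ Reg G (4 * (l.map Prod.snd).sum) ∧ FA G ∧
      (G '' ⋃ p ∈ l, closedBall p.1 p.2).Finite := by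
  induction k with
  | zero =>
    intro l hl _
    rw [List.length_eq_zero_iff] at hl
    subst hl
    refine ⟨id, fun x y => by simp, ?_, FA.id, by simp⟩
    simpa using Reg.id
  | succ k ih =>
    intro l hl hp
    obtain ⟨p, l', rfl⟩ : ∃ p l', l = p :: l' := by
      cases l with
      | nil => simp at hl
      | cons p l' => exact ⟨p, l', rfl⟩
    obtain ⟨C, c1, c2, c3, c4⟩ := clamp_one p.1 p.2 (hp p (by simp))
    set l2 : List (E × ℝ) := l'.map (fun q => (C q.1, q.2)) with hl2
    have hsum : (l2.map Prod.snd).sum = (l'.map Prod.snd).sum := by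
      rw [hl2, List.map_map]
      rfl
    obtain ⟨G, g1, g2, g3, g4⟩ := ih l2 (by
      rw [hl2, List.length_map]
      simpa using hl) (by
      intro q hq
      rw [hl2, List.mem_map] at hq
      obtain ⟨q', hq', rfl⟩ := hq
      exact hp q' (by simp [hq']))
    refine ⟨G ∘ C, ?_, ?_, g3.comp c3, ?_⟩
    · have := g1.comp c1 (by norm_num)
      simpa using this
    · have := g2.comp c2
      refine this.mono (le_of_eq ?_)
      rw [hsum, List.map_cons, List.sum_cons]
      ring
    · have hsub : (G ∘ C) '' (⋃ q ∈ p :: l', closedBall q.1 q.2)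
          ⊆ {G p.1} ∪ G '' (⋃ q ∈ l2, closedBall q.1 q.2) := by
        rintro _ ⟨x, hx, rfl⟩
        simp only [mem_iUnion, exists_prop, List.mem_cons] at hx
        obtain ⟨q, hq, hx⟩ := hx
        rcases hq with rfl | hq
        · left
          rw [mem_singleton_iff, Function.comp_apply, c4 x hx]
        · right
          refine ⟨C x, ?_, rfl⟩
          simp only [mem_iUnion, exists_prop]
          refine ⟨(C q.1, q.2), ?_, ?_⟩
          · rw [hl2, List.mem_map]
            exact ⟨q, hq, rfl⟩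
          · rw [mem_closedBall] at hx ⊢
            exact (c1 x q.1).trans (by rwa [one_mul])
      exact ((finite_singleton _).union g4).subset hsub

theorem cover_small {B : Set E} (hB : IsCompact B) {ε : ℝ} (hε : 0 < ε)
    (h : Measure.hausdorffMeasure 1 B < ENNReal.ofReal ε) :
    ∃ l : List (E × ℝ), (∀ p ∈ l, 0 ≤ p.2) ∧ (l.map Prod.snd).sum ≤ 2 * ε ∧
      B ⊆ ⋃ p ∈ l, closedBall p.1 p.2 := by
  classical
  rw [Measure.hausdorffMeasure_apply] at h
  have h1 := (le_iSup₂ (f := fun (r : ℝ≥0∞) (_ : 0 < r) => ⨅ (t : ℕ → Set E) (_ : B ⊆ ⋃ n, t n)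
    (_ : ∀ n, ediam (t n) ≤ r), ∑' n, ⨆ _ : (t n).Nonempty, ediam (t n) ^ (1:ℝ)) 1 one_pos).trans_lt h
  simp only [iInf_lt_iff] at h1
  obtain ⟨t, ht, _, hsum⟩ := h1
  set d : ℕ → ℝ≥0∞ := fun n => ⨆ _ : (t n).Nonempty, ediam (t n) ^ (1:ℝ) with hd
  have hdfin : ∀ n, d n ≠ ⊤ := fun n =>
    ((ENNReal.le_tsum n).trans_lt (hsum.trans_le le_top)).ne
  have hdt : ∀ n, (t n).Nonempty → ediam (t n) = d n := by
    intro n hn
    rw [hd]
    simp [hn]
  let x : ℕ → E := fun n => if hn : (t n).Nonempty then hn.some else 0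
  let ρ : ℕ → ℝ := fun n => (d n).toReal + ε / 2 / 2 ^ n
  have hρ : ∀ n, 0 < ρ n := fun n => by positivity
  have hball : ∀ n, t n ⊆ ball (x n) (ρ n) := by
    intro n y hy
    have hn : (t n).Nonempty := ⟨y, hy⟩
    have hx : x n ∈ t n := by simp only [x, dif_pos hn]; exact hn.some_mem
    rw [mem_ball]
    have h2 : edist y (x n) ≤ d n := by
      rw [← hdt n hn]; exact edist_le_ediam_of_mem hy hx
    have h3 : dist y (x n) ≤ (d n).toReal := by
      rw [dist_edist]
      exact ENNReal.toReal_mono (hdfin n) h2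
    have : 0 < ε / 2 / 2 ^ n := by positivity
    show dist y (x n) < (d n).toReal + ε / 2 / 2 ^ n
    linarith
  obtain ⟨s, hs⟩ := hB.elim_finite_subcover (fun n => ball (x n) (ρ n)) (fun n => isOpen_ball)
    (ht.trans (iUnion_mono hball))
  refine ⟨s.toList.map (fun n => (x n, ρ n)), ?_, ?_, ?_⟩
  · intro p hp
    rw [List.mem_map] at hp
    obtain ⟨n, _, rfl⟩ := hp
    exact (hρ n).le
  · rw [List.map_map]
    have e1 : (List.map (Prod.snd ∘ fun n => (x n, ρ n)) s.toList).sum = ∑ n ∈ s, ρ n :=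
      Finset.sum_map_toList _ _
    rw [e1]
    have e2 : ∑ n ∈ s, (d n).toReal ≤ ε := by
      rw [← ENNReal.toReal_sum (fun n _ => hdfin n)]
      apply ENNReal.toReal_le_of_le_ofReal hε.le
      exact (ENNReal.sum_le_tsum s).trans hsum.le
    have e3 : ∑ n ∈ s, ε / 2 / 2 ^ n ≤ ε := by
      have h4 := summable_geometric_two' ε
      calc ∑ n ∈ s, ε / 2 / 2 ^ n ≤ ∑' n, ε / 2 / 2 ^ n :=
            h4.sum_le_tsum s (fun n _ => by positivity)
        _ = ε := tsum_geometric_two' ε
    have e4 : ∑ n ∈ s, ρ n = ∑ n ∈ s, (d n).toReal + ∑ n ∈ s, ε / 2 / 2 ^ n :=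
      Finset.sum_add_distrib
    linarith
  · refine hs.trans ?_
    intro y hy
    simp only [mem_iUnion, exists_prop] at hy ⊢
    obtain ⟨n, hn, hy⟩ := hy
    refine ⟨(x n, ρ n), ?_, ball_subset_closedBall hy⟩
    rw [List.mem_map]
    exact ⟨n, by simpa using hn, rfl⟩

/-- compact sets of small length can be collapsed to finitely many points -/
theorem small_collapse {B : Set E} (hB : IsCompact B) {ε : ℝ} (hε : 0 < ε)
    (h : Measure.hausdorffMeasure 1 B < ENNReal.ofReal ε) :
    ∃ G : E → E, Nice G (8 * ε) ∧ (G '' B).Finite := by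
  obtain ⟨l, l1, l2, l3⟩ := cover_small hB hε h
  obtain ⟨G, g1, g2, g3, g4⟩ := clamp_list l.length l rfl l1
  refine ⟨G, ⟨g1.mono (by linarith), g2.mono (by linarith), g3⟩, g4.subset (image_mono l3)⟩

end Pool.Agent.Hhelper31.PC
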