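import Mathlib

set_option autoImplicit false

namespace Pool.Agent.Hhelper31.PC

open Filter Topology

/-- An ordering principle: greedy choice plus limits produces a terminal element. -/
theorem exists_terminal {X : Type*} (R : X → X → ℝ → Prop) (M : ℝ)
    (hb : ∀ x y b, R x y b → 0 ≤ b ∧ b ≤ M)
    (hrefl : ∀ x, R x x 0)
    (htrans : ∀ x y z b c, R x y b → R y z c → R x z (b + c))
    (hlim : ∀ (x : ℕ → X) (b : ℕ → ℝ), (∀ n, R (x n) (x (n + 1)) (b n)) → Summable b →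
      ∃ y, ∀ n, R (x n) y (∑' k, b (k + n)))
    (x0 : X) : ∃ x b, R x0 x b ∧ ∀ y c, R x y c → c ≤ 0 := by
  classical
  let S : X → ℝ := fun x => sSup {b | ∃ y, R x y b}
  have hbdd : ∀ x, BddAbove {b | ∃ y, R x y b} := fun x =>
    ⟨M, by rintro b ⟨y, hy⟩; exact (hb x y b hy).2⟩
  have hne : ∀ x, ({b | ∃ y, R x y b} : Set ℝ).Nonempty := fun x => ⟨0, x, hrefl x⟩
  have hS0 : ∀ x, 0 ≤ S x := fun x => le_csSup (hbdd x) ⟨x, hrefl x⟩
  have hstep : ∀ x, ∃ p : X × ℝ, R x p.1 p.2 ∧ S x / 2 ≤ p.2 := by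
    intro x
    rcases eq_or_lt_of_le (hS0 x) with h | h
    · exact ⟨(x, 0), hrefl x, by simp [← h]⟩
    · obtain ⟨b, ⟨y, hy⟩, hlt⟩ := exists_lt_of_lt_csSup (hne x) (show S x / 2 < S x by linarith)
      exact ⟨(y, b), hy, hlt.le⟩
  choose p hp1 hp2 using hstep
  let xs : ℕ → X := fun n => Nat.rec x0 (fun _ x => (p x).1) n
  have hxs : ∀ n, xs (n + 1) = (p (xs n)).1 := fun n => rfl
  let b : ℕ → ℝ := fun n => (p (xs n)).2
  have hR : ∀ n, R (xs n) (xs (n + 1)) (b n) := fun n => hp1 (xs n)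
  have hb0 : ∀ n, 0 ≤ b n := fun n => (hb _ _ _ (hR n)).1
  have hsum : ∀ n, R x0 (xs n) (∑ k ∈ Finset.range n, b k) := by
    intro n
    induction n with
    | zero =>
      rw [Finset.sum_range_zero]
      exact hrefl x0
    | succ n ih =>
      rw [Finset.sum_range_succ]
      exact htrans _ _ _ _ _ ih (hR n)
  have hsummable : Summable b :=
    summable_of_sum_range_le hb0 (fun n => (hb _ _ _ (hsum n)).2)
  obtain ⟨y, hy⟩ := hlim xs b hR hsummable
  refine ⟨y, _, hy 0, ?_⟩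
  intro z c hz
  by_contra hc
  push Not at hc
  have h1 : ∀ n, c / 2 ≤ b n := by
    intro n
    have h2 := htrans _ _ _ _ _ (hy n) hz
    have h3 : (∑' k, b (k + n)) + c ≤ S (xs n) := le_csSup (hbdd _) ⟨z, h2⟩
    have h4 : 0 ≤ ∑' k, b (k + n) := tsum_nonneg (fun k => hb0 _)
    have h5 : S (xs n) / 2 ≤ b n := hp2 (xs n)
    linarith
  have h6 := hsummable.tendsto_atTop_zero
  have h7 := ge_of_tendsto h6 (Eventually.of_forall h1)
  linarith

end Pool.Agent.Hhelper31.PC
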