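import Mathlib

set_option autoImplicit false

namespace Pool.Agent.Hhelper31.PC

open MeasureTheory Metric Set Filter Topology
open scoped ENNReal NNReal

/-- half open grid squares -/
def Qc (δ : ℝ) (i : ℤ × ℤ) : Set (ℝ × ℝ) :=
  (Ico (i.1 * δ) ((i.1 + 1) * δ)) ×ˢ (Ico (i.2 * δ) ((i.2 + 1) * δ))

theorem mem_Qc {δ : ℝ} (hδ : 0 < δ) (i : ℤ × ℤ) (z : ℝ × ℝ) :
    z ∈ Qc δ i ↔ (⌊z.1 / δ⌋, ⌊z.2 / δ⌋) = i := by
  unfold Qc
  rw [mem_prod, mem_Ico, mem_Ico, Prod.ext_iff, Int.floor_eq_iff, Int.floor_eq_iff,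
    le_div_iff₀ hδ, le_div_iff₀ hδ, div_lt_iff₀ hδ, div_lt_iff₀ hδ]

theorem Qc_meas (δ : ℝ) (i : ℤ × ℤ) : MeasurableSet (Qc δ i) :=
  measurableSet_Ico.prod measurableSet_Ico

theorem Qc_vol {δ : ℝ} (hδ : 0 < δ) (i : ℤ × ℤ) : volume.real (Qc δ i) = δ ^ 2 := by
  unfold Qc
  rw [Measure.volume_eq_prod, measureReal_prod_prod, Real.volume_real_Ico_of_le,
    Real.volume_real_Ico_of_le]
  · ring
  · nlinarith
  · nlinarith

theorem Qc_fin {δ : ℝ} (hδ : 0 < δ) (i : ℤ × ℤ) : volume (Qc δ i) ≠ ⊤ := by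
  intro h
  have := Qc_vol hδ i
  rw [Measure.real, h, ENNReal.toReal_top] at this
  have := pow_pos hδ 2
  linarith

theorem Qc_disj {δ : ℝ} (hδ : 0 < δ) : Pairwise (fun i j => Disjoint (Qc δ i) (Qc δ j)) := by
  intro i j hij
  rw [Set.disjoint_left]
  intro z hz hz'
  rw [mem_Qc hδ] at hz hz'
  exact hij (hz.symm.trans hz')

theorem Qc_dist {δ : ℝ} (i : ℤ × ℤ) {z w : ℝ × ℝ} (hz : z ∈ Qc δ i) (hw : w ∈ Qc δ i) :
    dist z w < δ := by
  obtain ⟨⟨h1, h2⟩, h3, h4⟩ := hz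
  obtain ⟨⟨h5, h6⟩, h7, h8⟩ := hw
  rw [Prod.dist_eq, max_lt_iff, Real.dist_eq, Real.dist_eq, abs_sub_lt_iff, abs_sub_lt_iff]
  refine ⟨⟨?_, ?_⟩, ?_, ?_⟩ <;> linarith

theorem Qc_finite {δ : ℝ} (hδ : 0 < δ) {K : Set (ℝ × ℝ)} (hK : Bornology.IsBounded K) :
    {i : ℤ × ℤ | (Qc δ i ∩ K).Nonempty}.Finite := by
  obtain ⟨R, hR⟩ := hK.subset_closedBall 0
  apply Set.Finite.subset (Set.finite_Icc ((⌊-R / δ⌋, ⌊-R / δ⌋) : ℤ × ℤ) (⌊R / δ⌋, ⌊R / δ⌋))
  rintro i ⟨z, hz, hzK⟩
  rw [mem_Qc hδ] at hz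
  have h1 := hR hzK
  rw [mem_closedBall, dist_zero_right, Prod.norm_def, max_le_iff, Real.norm_eq_abs,
    Real.norm_eq_abs, abs_le, abs_le] at h1
  rw [← hz]
  refine ⟨⟨?_, ?_⟩, ?_, ?_⟩
  · exact Int.floor_le_floor (div_le_div_of_nonneg_right h1.1.1 hδ.le)
  · exact Int.floor_le_floor (div_le_div_of_nonneg_right h1.2.1 hδ.le)
  · exact Int.floor_le_floor (div_le_div_of_nonneg_right h1.1.2 hδ.le)
  · exact Int.floor_le_floor (div_le_div_of_nonneg_right h1.2.2 hδ.le)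

theorem cube_select {V : Set (ℝ × ℝ)} (hV : MeasurableSet V) (h0 : volume V ≠ 0)
    (h1 : volume V ≠ ⊤) : ∃ δ : ℝ, 0 < δ ∧ ∃ I : Finset (ℤ × ℤ),
      (∀ i ∈ I, δ ^ 2 / 2 ≤ volume.real (V ∩ Qc δ i)) ∧
      volume.real V / 2 ≤ I.card * δ ^ 2 := by
  classical
  have hv : 0 < volume.real V := by
    rw [Measure.real]; exact ENNReal.toReal_pos h0 h1
  set v := volume.real V with hvdef
  -- compact inside
  obtain ⟨K, hKV, hK, hKlt⟩ := hV.exists_isCompact_sdiff_lt h1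
    (ε := ENNReal.ofReal (v / 8)) (by simp [hv])
  have hKfin : volume K ≠ ⊤ := (measure_mono hKV).trans_lt (lt_top_iff_ne_top.2 h1) |>.ne
  have hKm : MeasurableSet K := hK.measurableSet
  have hKreal : v - v / 8 ≤ volume.real K := by
    have e1 : volume.real (V \ K) < v / 8 := by
      rw [Measure.real]
      exact (ENNReal.toReal_lt_of_lt_ofReal hKlt)
    have e2 : volume.real (V \ K) = volume.real V - volume.real K :=
      measureReal_sdiff hKV hKm h1
    linarith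
  -- open outside
  obtain ⟨O, hKO, hO, hOlt⟩ := K.exists_isOpen_lt_add (μ := volume) hKfin
    (ε := ENNReal.ofReal (v / 8)) (by simp [hv])
  have hOfin : volume O ≠ ⊤ := (hOlt.trans_le le_top).ne
  have hOreal : volume.real (O \ K) ≤ v / 8 := by
    rw [measureReal_sdiff hKO hKm hOfin]
    have : volume.real O ≤ volume.real K + v / 8 := by
      rw [Measure.real, Measure.real]
      have h2 := ENNReal.toReal_mono (ENNReal.add_ne_top.2 ⟨hKfin, ENNReal.ofReal_ne_top⟩) hOlt.le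
      rw [ENNReal.toReal_add hKfin ENNReal.ofReal_ne_top, ENNReal.toReal_ofReal (by positivity)] at h2
      exact h2
    linarith
  obtain ⟨δ, hδ, hth⟩ := hK.exists_thickening_subset_open hO hKO
  refine ⟨δ, hδ, ?_⟩
  have hfin := Qc_finite hδ hK.isBounded
  set I0 : Finset (ℤ × ℤ) := hfin.toFinset with hI0
  have hI0mem : ∀ i, i ∈ I0 ↔ (Qc δ i ∩ K).Nonempty := by
    intro i; rw [hI0, Set.Finite.mem_toFinset]; rfl
  set I := I0.filter (fun i => δ ^ 2 / 2 ≤ volume.real (K ∩ Qc δ i)) with hI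
  set B := I0.filter (fun i => ¬ δ ^ 2 / 2 ≤ volume.real (K ∩ Qc δ i)) with hB
  refine ⟨I, ?_, ?_⟩
  · intro i hi
    rw [hI, Finset.mem_filter] at hi
    refine hi.2.trans ?_
    apply measureReal_mono (inter_subset_inter_left _ hKV)
  · have hsum : volume.real K = ∑ i ∈ I0, volume.real (K ∩ Qc δ i) := by
      rw [← measureReal_biUnion_finset]
      · congr 1
        ext z
        simp only [mem_iUnion, mem_inter_iff, exists_prop]
        constructor
        · intro hz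
          refine ⟨(⌊z.1 / δ⌋, ⌊z.2 / δ⌋), ?_, hz, ?_⟩
          · rw [hI0mem]
            exact ⟨z, (mem_Qc hδ _ _).2 rfl, hz⟩
          · exact (mem_Qc hδ _ _).2 rfl
        · rintro ⟨i, _, hz, _⟩
          exact hz
      · intro i _ j _ hij
        exact (Qc_disj hδ hij).mono inter_subset_right inter_subset_right
      · intro i _
        exact hKm.inter (Qc_meas δ i)
    have hsplit : ∑ i ∈ I0, volume.real (K ∩ Qc δ i) =
        ∑ i ∈ I, volume.real (K ∩ Qc δ i) + ∑ i ∈ B, volume.real (K ∩ Qc δ i) :=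
      (Finset.sum_filter_add_sum_filter_not _ _ _).symm
    have hgood : ∑ i ∈ I, volume.real (K ∩ Qc δ i) ≤ I.card * δ ^ 2 := by
      rw [← nsmul_eq_mul]
      apply Finset.sum_le_card_nsmul
      intro i _
      rw [← Qc_vol hδ i]
      exact measureReal_mono inter_subset_right (Qc_fin hδ i)
    have hbad : ∑ i ∈ B, volume.real (K ∩ Qc δ i) ≤ v / 8 := by
      have e1 : ∑ i ∈ B, volume.real (K ∩ Qc δ i) ≤ ∑ i ∈ B, volume.real (Qc δ i \ K) := by
        apply Finset.sum_le_sum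
        intro i hi
        rw [hB, Finset.mem_filter, not_le] at hi
        have e2 := measureReal_inter_add_sdiff (μ := volume) (s := Qc δ i) hKm (Qc_fin hδ i)
        rw [inter_comm, Qc_vol hδ] at e2
        linarith [hi.2]
      refine e1.trans (le_trans ?_ hOreal)
      rw [← measureReal_biUnion_finset (h := fun i _ =>
        ((measure_mono sdiff_subset).trans_lt (lt_top_iff_ne_top.2 (Qc_fin hδ i))).ne)]
      · apply measureReal_mono
        · intro z hz
          simp only [mem_iUnion, Set.mem_sdiff, exists_prop] at hz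
          obtain ⟨i, hi, hzi, hzK⟩ := hz
          refine ⟨hth ?_, hzK⟩
          rw [hB, Finset.mem_filter, hI0mem] at hi
          obtain ⟨⟨w, hw, hwK⟩, _⟩ := hi
          rw [mem_thickening_iff]
          exact ⟨w, hwK, Qc_dist i hzi hw⟩
        · exact (measure_mono sdiff_subset).trans_lt (lt_top_iff_ne_top.2 hOfin) |>.ne
      · intro i _ j _ hij
        exact (Qc_disj hδ hij).mono sdiff_subset sdiff_subset
      · intro i _
        exact (Qc_meas δ i).diff hKm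
    linarith

end Pool.Agent.Hhelper31.PC
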