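import Mathlib

set_option autoImplicit false

namespace Pool.Agent.Hhelper31.PC

open MeasureTheory Set intervalIntegral

/-- one dimensional facts for convex functions -/
theorem conv1 {g g' g'' : ℝ → ℝ} (h1 : ∀ x, HasDerivAt g (g' x) x)
    (h2 : ∀ x, HasDerivAt g' (g'' x) x) (h3 : ∀ x, 0 ≤ g'' x) : ConvexOn ℝ univ g := by
  have hmono : Monotone g' := monotone_of_deriv_nonneg (fun x => (h2 x).differentiableAt)
    (fun x => by rw [(h2 x).deriv]; exact h3 x)
  apply MonotoneOn.convexOn_of_deriv convex_univ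
  · exact (continuous_iff_continuousAt.2 (fun x => (h1 x).continuousAt)).continuousOn
  · exact fun x _ => (h1 x).differentiableAt.differentiableWithinAt
  · have : deriv g = g' := by ext x; exact (h1 x).deriv
    rw [this]
    exact hmono.monotoneOn _

theorem slope_le {g g' g'' : ℝ → ℝ} (h1 : ∀ x, HasDerivAt g (g' x) x)
    (h2 : ∀ x, HasDerivAt g' (g'' x) x) (h3 : ∀ x, 0 ≤ g'' x) (x0 r : ℝ) (hr : 0 < r) :
    (g (x0 + r) + g (x0 - r) - 2 * g x0) / r ≤ g' (x0 + r) - g' (x0 - r) := by
  have hc := conv1 h1 h2 h3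
  have e1 : (g (x0 + r) - g x0) / r ≤ g' (x0 + r) := by
    have := ConvexOn.slope_le_of_hasDerivAt hc (mem_univ x0) (mem_univ (x0 + r)) (by linarith) (h1 (x0 + r))
    rwa [slope_def_field, add_sub_cancel_left] at this
  have e2 : g' (x0 - r) ≤ (g x0 - g (x0 - r)) / r := by
    have := ConvexOn.le_slope_of_hasDerivAt hc (mem_univ (x0 - r)) (mem_univ x0) (by linarith) (h1 (x0 - r))
    rwa [slope_def_field, sub_sub_cancel] at this
  have e3 : (g (x0 + r) + g (x0 - r) - 2 * g x0) / r
      = (g (x0 + r) - g x0) / r - (g x0 - g (x0 - r)) / r := by ring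
  rw [e3]
  linarith

theorem integral_symm (g : ℝ → ℝ) (hg : Continuous g) (x0 r : ℝ) :
    ∫ x in (x0 - r)..(x0 + r), g x = ∫ s in (0)..r, (g (x0 + s) + g (x0 - s)) := by
  rw [intervalIntegral.integral_add]
  · have e1 : ∫ s in (0)..r, g (x0 + s) = ∫ x in x0..(x0 + r), g x := by
      have := intervalIntegral.integral_comp_add_left (a := 0) (b := r) g x0
      rw [this, add_zero]
    have e2 : ∫ s in (0)..r, g (x0 - s) = ∫ x in (x0 - r)..x0, g x := by
      have := intervalIntegral.integral_comp_sub_left (a := 0) (b := r) g x0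
      rw [this, sub_zero]
    rw [e1, e2, add_comm (∫ x in x0..(x0 + r), g x),
      intervalIntegral.integral_add_adjacent_intervals]
    · exact hg.intervalIntegrable _ _
    · exact hg.intervalIntegrable _ _
  · exact (hg.comp (continuous_const.add continuous_id)).intervalIntegrable _ _
  · exact (hg.comp (continuous_const.sub continuous_id)).intervalIntegrable _ _

theorem trapezoid {g g' g'' : ℝ → ℝ} (h1 : ∀ x, HasDerivAt g (g' x) x)
    (h2 : ∀ x, HasDerivAt g' (g'' x) x) (h3 : ∀ x, 0 ≤ g'' x) (x0 r : ℝ) (hr : 0 < r) :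
    ∫ x in (x0 - r)..(x0 + r), g x ≤ r * g x0 + (r / 2) * (g (x0 + r) + g (x0 - r)) := by
  have hc := conv1 h1 h2 h3
  have hg : Continuous g := continuous_iff_continuousAt.2 (fun x => (h1 x).continuousAt)
  rw [integral_symm g hg]
  have hbound : ∀ s ∈ Icc (0:ℝ) r, g (x0 + s) + g (x0 - s) ≤
      2 * g x0 + (s / r) * (g (x0 + r) + g (x0 - r) - 2 * g x0) := by
    intro s hs
    have ha : 0 ≤ s / r := div_nonneg hs.1 hr.le
    have hb : 0 ≤ 1 - s / r := by
      rw [sub_nonneg, div_le_one hr]; exact hs.2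
    have e1 := hc.2 (mem_univ x0) (mem_univ (x0 + r)) hb ha (by ring)
    have e2 := hc.2 (mem_univ x0) (mem_univ (x0 - r)) hb ha (by ring)
    simp only [smul_eq_mul] at e1 e2
    have f1 : (1 - s / r) * x0 + s / r * (x0 + r) = x0 + s := by field_simp; ring
    have f2 : (1 - s / r) * x0 + s / r * (x0 - r) = x0 - s := by field_simp; ring
    rw [f1] at e1
    rw [f2] at e2
    linarith
  calc ∫ s in (0)..r, (g (x0 + s) + g (x0 - s))
      ≤ ∫ s in (0)..r, (2 * g x0 + (s / r) * (g (x0 + r) + g (x0 - r) - 2 * g x0)) := by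
        apply intervalIntegral.integral_mono_on hr.le _ _ hbound
        · exact ((hg.comp (continuous_const.add continuous_id)).add
            (hg.comp (continuous_const.sub continuous_id))).intervalIntegrable _ _
        · apply Continuous.intervalIntegrable
          fun_prop
    _ = r * g x0 + (r / 2) * (g (x0 + r) + g (x0 - r)) := by
        have : (fun s : ℝ => 2 * g x0 + (s / r) * (g (x0 + r) + g (x0 - r) - 2 * g x0))
            = fun s => 2 * g x0 + ((g (x0 + r) + g (x0 - r) - 2 * g x0) / r) * s := by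
          ext s; ring
        rw [this, intervalIntegral.integral_add (by simp) (by
          apply Continuous.intervalIntegrable
          fun_prop), intervalIntegral.integral_const_mul
            ((g (x0 + r) + g (x0 - r) - 2 * g x0) / r), integral_id,
            intervalIntegral.integral_const]
        simp
        field_simp
        ring

theorem hadamard {g g' g'' : ℝ → ℝ} (h1 : ∀ x, HasDerivAt g (g' x) x)
    (h2 : ∀ x, HasDerivAt g' (g'' x) x) (h3 : ∀ x, 0 ≤ g'' x) (x0 r : ℝ) (hr : 0 < r) :
    2 * r * g x0 ≤ ∫ x in (x0 - r)..(x0 + r), g x := by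
  have hc := conv1 h1 h2 h3
  have hg : Continuous g := continuous_iff_continuousAt.2 (fun x => (h1 x).continuousAt)
  rw [integral_symm g hg]
  have hbound : ∀ s ∈ Icc (0:ℝ) r, 2 * g x0 ≤ g (x0 + s) + g (x0 - s) := by
    intro s _
    have e1 := hc.2 (mem_univ (x0 + s)) (mem_univ (x0 - s)) (by norm_num : (0:ℝ) ≤ 1 / 2)
      (by norm_num : (0:ℝ) ≤ 1 / 2) (by norm_num)
    simp only [smul_eq_mul] at e1
    have f1 : 1 / 2 * (x0 + s) + 1 / 2 * (x0 - s) = x0 := by ring
    rw [f1] at e1
    linarith
  calc 2 * r * g x0 = ∫ _s in (0)..r, 2 * g x0 := by simp; ring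
    _ ≤ ∫ s in (0)..r, (g (x0 + s) + g (x0 - s)) := by
        apply intervalIntegral.integral_mono_on hr.le _ _ hbound
        · simp
        · exact ((hg.comp (continuous_const.add continuous_id)).add
            (hg.comp (continuous_const.sub continuous_id))).intervalIntegrable _ _

/-- The flux inequality: a smooth convex function of two variables which has, up to an error `e`,
two different subgradients at a point has a definite amount of Laplacian near this point. -/
theorem flux {ψ gx gy a b : ℝ → ℝ → ℝ}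
    (hψ : Continuous (fun z : ℝ × ℝ => ψ z.1 z.2))
    (hgx : Continuous (fun z : ℝ × ℝ => gx z.1 z.2)) (hgy : Continuous (fun z : ℝ × ℝ => gy z.1 z.2))
    (ha : Continuous (fun z : ℝ × ℝ => a z.1 z.2)) (hb : Continuous (fun z : ℝ × ℝ => b z.1 z.2))
    (h1 : ∀ x y, HasDerivAt (fun x => ψ x y) (gx x y) x)
    (h2 : ∀ x y, HasDerivAt (fun x => gx x y) (a x y) x)
    (h3 : ∀ x y, HasDerivAt (fun y => ψ x y) (gy x y) y)
    (h4 : ∀ x y, HasDerivAt (fun y => gy x y) (b x y) y)
    (ha0 : ∀ x y, 0 ≤ a x y) (hb0 : ∀ x y, 0 ≤ b x y)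
    (x0 y0 r H e p q p' q' : ℝ) (hr : 0 < r)
    (hup : ψ x0 y0 ≤ H + e)
    (hlow : ∀ x y, H + p * (x - x0) + q * (y - y0) ≤ ψ x y)
    (hlow' : ∀ x y, H + p' * (x - x0) + q' * (y - y0) ≤ ψ x y) :
    r * (|p - p'| + |q - q'|) - 4 * e ≤
      (∫ y in (y0 - r)..(y0 + r), ∫ x in (x0 - r)..(x0 + r), a x y)
      + ∫ x in (x0 - r)..(x0 + r), ∫ y in (y0 - r)..(y0 + r), b x y := by
  -- continuity of sections
  have cψx : ∀ x, Continuous (fun y => ψ x y) := fun x => hψ.comp (Continuous.prodMk_right x)
  have cψy : ∀ y, Continuous (fun x => ψ x y) := fun y => hψ.comp (Continuous.prodMk_left y)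
  have cgxx : ∀ x, Continuous (fun y => gx x y) := fun x => hgx.comp (Continuous.prodMk_right x)
  have cgyy : ∀ y, Continuous (fun x => gy x y) := fun y => hgy.comp (Continuous.prodMk_left y)
  have cax : ∀ y, Continuous (fun x => a x y) := fun y => ha.comp (Continuous.prodMk_left y)
  have cby : ∀ x, Continuous (fun y => b x y) := fun x => hb.comp (Continuous.prodMk_right x)
  -- inner integrals by the fundamental theorem
  have i1 : ∀ y, ∫ x in (x0 - r)..(x0 + r), a x y = gx (x0 + r) y - gx (x0 - r) y := fun y =>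
    intervalIntegral.integral_eq_sub_of_hasDerivAt (fun x _ => h2 x y)
      ((cax y).intervalIntegrable _ _)
  have i2 : ∀ x, ∫ y in (y0 - r)..(y0 + r), b x y = gy x (y0 + r) - gy x (y0 - r) := fun x =>
    intervalIntegral.integral_eq_sub_of_hasDerivAt (fun y _ => h4 x y)
      ((cby x).intervalIntegrable _ _)
  simp only [i1, i2]
  -- lower bounds by slopes
  have j1 : ∫ y in (y0 - r)..(y0 + r), (ψ (x0 + r) y + ψ (x0 - r) y - 2 * ψ x0 y) / r ≤
      ∫ y in (y0 - r)..(y0 + r), (gx (x0 + r) y - gx (x0 - r) y) := by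
    apply intervalIntegral.integral_mono_on (by linarith)
    · apply Continuous.intervalIntegrable
      exact (((cψx _).add (cψx _)).sub ((cψx _).const_mul 2)).div_const r
    · apply Continuous.intervalIntegrable
      exact (cgxx _).sub (cgxx _)
    · intro y _
      exact slope_le (fun x => h1 x y) (fun x => h2 x y) (fun x => ha0 x y) x0 r hr
  have j2 : ∫ x in (x0 - r)..(x0 + r), (ψ x (y0 + r) + ψ x (y0 - r) - 2 * ψ x y0) / r ≤
      ∫ x in (x0 - r)..(x0 + r), (gy x (y0 + r) - gy x (y0 - r)) := by
    apply intervalIntegral.integral_mono_on (by linarith)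
    · apply Continuous.intervalIntegrable
      exact (((cψy _).add (cψy _)).sub ((cψy _).const_mul 2)).div_const r
    · apply Continuous.intervalIntegrable
      exact (cgyy _).sub (cgyy _)
    · intro x _
      exact slope_le (fun y => h3 x y) (fun y => h4 x y) (fun y => hb0 x y) y0 r hr
  refine le_trans ?_ (add_le_add j1 j2)
  -- names
  set A1 := ∫ y in (y0 - r)..(y0 + r), ψ (x0 + r) y with hA1
  set A2 := ∫ y in (y0 - r)..(y0 + r), ψ (x0 - r) y with hA2
  set B1 := ∫ x in (x0 - r)..(x0 + r), ψ x (y0 + r) with hB1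
  set B2 := ∫ x in (x0 - r)..(x0 + r), ψ x (y0 - r) with hB2
  set Cv := ∫ y in (y0 - r)..(y0 + r), ψ x0 y with hCv
  set Ch := ∫ x in (x0 - r)..(x0 + r), ψ x y0 with hCh
  have k1 : ∫ y in (y0 - r)..(y0 + r), (ψ (x0 + r) y + ψ (x0 - r) y - 2 * ψ x0 y) / r
      = (A1 + A2 - 2 * Cv) / r := by
    rw [intervalIntegral.integral_div, intervalIntegral.integral_sub, intervalIntegral.integral_add,
      intervalIntegral.integral_const_mul]
    · exact (cψx _).intervalIntegrable _ _
    · exact (cψx _).intervalIntegrable _ _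
    · exact ((cψx _).add (cψx _)).intervalIntegrable _ _
    · exact ((cψx _).const_mul 2).intervalIntegrable _ _
  have k2 : ∫ x in (x0 - r)..(x0 + r), (ψ x (y0 + r) + ψ x (y0 - r) - 2 * ψ x y0) / r
      = (B1 + B2 - 2 * Ch) / r := by
    rw [intervalIntegral.integral_div, intervalIntegral.integral_sub, intervalIntegral.integral_add,
      intervalIntegral.integral_const_mul]
    · exact (cψy _).intervalIntegrable _ _
    · exact (cψy _).intervalIntegrable _ _
    · exact ((cψy _).add (cψy _)).intervalIntegrable _ _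
    · exact ((cψy _).const_mul 2).intervalIntegrable _ _
  rw [k1, k2]
  -- trapezoid and Hadamard
  have t1 : Cv ≤ r * ψ x0 y0 + (r / 2) * (ψ x0 (y0 + r) + ψ x0 (y0 - r)) :=
    trapezoid (fun y => h3 x0 y) (fun y => h4 x0 y) (fun y => hb0 x0 y) y0 r hr
  have t2 : Ch ≤ r * ψ x0 y0 + (r / 2) * (ψ (x0 + r) y0 + ψ (x0 - r) y0) :=
    trapezoid (fun x => h1 x y0) (fun x => h2 x y0) (fun x => ha0 x y0) x0 r hr
  have u1 : 2 * r * ψ (x0 + r) y0 ≤ A1 :=
    hadamard (fun y => h3 _ y) (fun y => h4 _ y) (fun y => hb0 _ y) y0 r hr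
  have u2 : 2 * r * ψ (x0 - r) y0 ≤ A2 :=
    hadamard (fun y => h3 _ y) (fun y => h4 _ y) (fun y => hb0 _ y) y0 r hr
  have u3 : 2 * r * ψ x0 (y0 + r) ≤ B1 :=
    hadamard (fun x => h1 x _) (fun x => h2 x _) (fun x => ha0 x _) x0 r hr
  have u4 : 2 * r * ψ x0 (y0 - r) ≤ B2 :=
    hadamard (fun x => h1 x _) (fun x => h2 x _) (fun x => ha0 x _) x0 r hr
  -- lower bounds for A1 + A2, B1 + B2
  have low : ∀ (P Q P' Q' : ℝ), (∀ x y, H + P * (x - x0) + Q * (y - y0) ≤ ψ x y) →
      (∀ x y, H + P' * (x - x0) + Q' * (y - y0) ≤ ψ x y) →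
      4 * r * H + 2 * r ^ 2 * (P - P') ≤ A1 + A2 ∧ 4 * r * H + 2 * r ^ 2 * (Q - Q') ≤ B1 + B2 := by
    intro P Q P' Q' hP hP'
    constructor
    · have v1 : ∫ y in (y0 - r)..(y0 + r), (H + P * r + Q * (y - y0)) ≤ A1 := by
        apply intervalIntegral.integral_mono_on (by linarith)
        · apply Continuous.intervalIntegrable; fun_prop
        · exact (cψx _).intervalIntegrable _ _
        · intro y _
          have := hP (x0 + r) y
          rwa [add_sub_cancel_left] at this
      have v2 : ∫ y in (y0 - r)..(y0 + r), (H - P' * r + Q' * (y - y0)) ≤ A2 := by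
        apply intervalIntegral.integral_mono_on (by linarith)
        · apply Continuous.intervalIntegrable; fun_prop
        · exact (cψx _).intervalIntegrable _ _
        · intro y _
          have := hP' (x0 - r) y
          have e : x0 - r - x0 = - r := by ring
          rw [e] at this
          linarith
      have w : ∀ c d : ℝ, ∫ y in (y0 - r)..(y0 + r), (c + d * (y - y0)) = 2 * r * c := by
        intro c d
        rw [intervalIntegral.integral_add (by simp) (by
          apply Continuous.intervalIntegrable; fun_prop), intervalIntegral.integral_const_mul,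
          intervalIntegral.integral_sub (by
          apply Continuous.intervalIntegrable; fun_prop) (by simp), integral_id]
        simp
        ring
      rw [w] at v1 v2
      linarith
    · have v1 : ∫ x in (x0 - r)..(x0 + r), (H + Q * r + P * (x - x0)) ≤ B1 := by
        apply intervalIntegral.integral_mono_on (by linarith)
        · apply Continuous.intervalIntegrable; fun_prop
        · exact (cψy _).intervalIntegrable _ _
        · intro x _
          have := hP x (y0 + r)
          rw [add_sub_cancel_left] at this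
          linarith
      have v2 : ∫ x in (x0 - r)..(x0 + r), (H - Q' * r + P' * (x - x0)) ≤ B2 := by
        apply intervalIntegral.integral_mono_on (by linarith)
        · apply Continuous.intervalIntegrable; fun_prop
        · exact (cψy _).intervalIntegrable _ _
        · intro x _
          have := hP' x (y0 - r)
          have e : y0 - r - y0 = - r := by ring
          rw [e] at this
          linarith
      have w : ∀ c d : ℝ, ∫ x in (x0 - r)..(x0 + r), (c + d * (x - x0)) = 2 * r * c := by
        intro c d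
        rw [intervalIntegral.integral_add (by simp) (by
          apply Continuous.intervalIntegrable; fun_prop), intervalIntegral.integral_const_mul,
          intervalIntegral.integral_sub (by
          apply Continuous.intervalIntegrable; fun_prop) (by simp), integral_id]
        simp
        ring
      rw [w] at v1 v2
      linarith
  have l1 := low p q p' q' hlow hlow'
  have l2 := low p' q' p q hlow' hlow
  have m1 : 4 * r * H + 2 * r ^ 2 * |p - p'| ≤ A1 + A2 := by
    rcases abs_cases (p - p') with ⟨h, _⟩ | ⟨h, _⟩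
    · rw [h]; exact l1.1
    · rw [h, neg_sub]; exact l2.1
  have m2 : 4 * r * H + 2 * r ^ 2 * |q - q'| ≤ B1 + B2 := by
    rcases abs_cases (q - q') with ⟨h, _⟩ | ⟨h, _⟩
    · rw [h]; exact l1.2
    · rw [h, neg_sub]; exact l2.2
  rw [← add_div, le_div_iff₀ hr]
  have n1 : r * ψ x0 y0 ≤ r * (H + e) := mul_le_mul_of_nonneg_left hup hr.le
  have n2 : (r / 2) * (ψ x0 (y0 + r) + ψ x0 (y0 - r)) ≤ (B1 + B2) / 4 := by linarith
  have n3 : (r / 2) * (ψ (x0 + r) y0 + ψ (x0 - r) y0) ≤ (A1 + A2) / 4 := by linarith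
  have n4 : A1 + A2 - 2 * Cv + (B1 + B2 - 2 * Ch) ≥ (A1 + A2 + B1 + B2) / 2 - 4 * (r * (H + e)) := by
    linarith
  refine le_trans ?_ n4
  have : (r * (|p - p'| + |q - q'|) - 4 * e) * r = r ^ 2 * |p - p'| + r ^ 2 * |q - q'| - 4 * e * r := by
    ring
  rw [this]
  linarith

end Pool.Agent.Hhelper31.PC
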