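import Mathlib

set_option autoImplicit false

namespace Pool.Agent.Hhelper31.PC

open Finset

/-- the functional `(x, y) ↦ u x + v y` -/
noncomputable def cl (u v : ℝ) : ℝ × ℝ →L[ℝ] ℝ :=
  u • ContinuousLinearMap.fst ℝ ℝ ℝ + v • ContinuousLinearMap.snd ℝ ℝ ℝ

theorem cl_apply (u v : ℝ) (z : ℝ × ℝ) : cl u v z = u * z.1 + v * z.2 := by
  simp [cl]

section
variable {J : Type} [Fintype J] [Nonempty J] (p q b : J → ℝ) (ρ : ℝ)

/-- exponents -/
noncomputable def ex (j : J) (z : ℝ × ℝ) : ℝ := (p j * z.1 + q j * z.2 - b j) / ρ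
/-- sum of exponentials -/
noncomputable def SS (z : ℝ × ℝ) : ℝ := ∑ j, Real.exp (ex p q b ρ j z)
/-- weights -/
noncomputable def wt (j : J) (z : ℝ × ℝ) : ℝ := Real.exp (ex p q b ρ j z) / SS p q b ρ z
/-- mean of a function of the index -/
noncomputable def mn (c : J → ℝ) (z : ℝ × ℝ) : ℝ := ∑ j, wt p q b ρ j z * c j
/-- covariance -/
noncomputable def cv (c d : J → ℝ) (z : ℝ × ℝ) : ℝ :=
  ∑ j, wt p q b ρ j z * (c j * d j) - mn p q b ρ c z * mn p q b ρ d z
/-- log-sum-exp -/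
noncomputable def lse (z : ℝ × ℝ) : ℝ := ρ * Real.log (SS p q b ρ z)

theorem SS_pos (z : ℝ × ℝ) : 0 < SS p q b ρ z :=
  Finset.sum_pos (fun _ _ => Real.exp_pos _) univ_nonempty

theorem wt_nonneg (j : J) (z : ℝ × ℝ) : 0 ≤ wt p q b ρ j z :=
  div_nonneg (Real.exp_pos _).le (SS_pos p q b ρ z).le

theorem wt_sum (z : ℝ × ℝ) : ∑ j, wt p q b ρ j z = 1 := by
  unfold wt
  rw [← Finset.sum_div]
  exact div_self (SS_pos p q b ρ z).ne'

theorem ex_hasFDerivAt (j : J) (z : ℝ × ℝ) :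
    HasFDerivAt (ex p q b ρ j) (cl (p j / ρ) (q j / ρ)) z := by
  have h1 : HasFDerivAt (fun z : ℝ × ℝ => cl (p j / ρ) (q j / ρ) z - b j / ρ)
      (cl (p j / ρ) (q j / ρ)) z :=
    (ContinuousLinearMap.hasFDerivAt _).sub_const _
  have h2 : ex p q b ρ j = fun z : ℝ × ℝ => cl (p j / ρ) (q j / ρ) z - b j / ρ := by
    ext z
    rw [cl_apply]
    unfold ex
    ring
  rw [h2]
  exact h1

theorem ex_cont (j : J) : Continuous (ex p q b ρ j) :=
  continuous_iff_continuousAt.2 (fun z => (ex_hasFDerivAt p q b ρ j z).continuousAt)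

theorem SS_cont : Continuous (SS p q b ρ) :=
  continuous_finsetSum _ (fun j _ => Real.continuous_exp.comp (ex_cont p q b ρ j))

theorem wt_cont (j : J) : Continuous (wt p q b ρ j) :=
  (Real.continuous_exp.comp (ex_cont p q b ρ j)).div (SS_cont p q b ρ)
    (fun z => (SS_pos p q b ρ z).ne')

theorem mn_cont (c : J → ℝ) : Continuous (mn p q b ρ c) :=
  continuous_finsetSum _ (fun j _ => (wt_cont p q b ρ j).mul continuous_const)

theorem cv_cont (c d : J → ℝ) : Continuous (cv p q b ρ c d) :=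
  (continuous_finsetSum _ (fun j _ => (wt_cont p q b ρ j).mul continuous_const)).sub
    ((mn_cont p q b ρ c).mul (mn_cont p q b ρ d))

theorem SS_hasFDerivAt (z : ℝ × ℝ) :
    HasFDerivAt (SS p q b ρ) (cl (SS p q b ρ z / ρ * mn p q b ρ p z)
      (SS p q b ρ z / ρ * mn p q b ρ q z)) z := by
  have h1 : HasFDerivAt (fun z => ∑ j, Real.exp (ex p q b ρ j z))
      (∑ j, Real.exp (ex p q b ρ j z) • cl (p j / ρ) (q j / ρ)) z := by
    apply HasFDerivAt.fun_sum
    intro j _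
    exact (ex_hasFDerivAt p q b ρ j z).exp
  have hS := (SS_pos p q b ρ z).ne'
  have e1 : ∀ c : J → ℝ, SS p q b ρ z * mn p q b ρ c z = ∑ j, Real.exp (ex p q b ρ j z) * c j := by
    intro c
    unfold mn wt
    rw [Finset.mul_sum]
    apply Finset.sum_congr rfl
    intro j _
    field_simp
  have e2 : ∀ c : J → ℝ, SS p q b ρ z / ρ * mn p q b ρ c z
      = ∑ j, Real.exp (ex p q b ρ j z) * c j / ρ := by
    intro c
    rw [div_mul_eq_mul_div, e1, Finset.sum_div]
  refine h1.congr_fderiv ?_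
  apply ContinuousLinearMap.ext; intro v
  rw [_root_.sum_apply, cl_apply, e2, e2, Finset.sum_mul, Finset.sum_mul, ← Finset.sum_add_distrib]
  apply Finset.sum_congr rfl
  intro j _
  rw [_root_.smul_apply, cl_apply, smul_eq_mul]
  ring

theorem lse_hasFDerivAt (hρ : 0 < ρ) (z : ℝ × ℝ) :
    HasFDerivAt (lse p q b ρ) (cl (mn p q b ρ p z) (mn p q b ρ q z)) z := by
  have hS := (SS_pos p q b ρ z).ne'
  have h1 := ((SS_hasFDerivAt p q b ρ z).log hS).const_mul ρ
  refine HasFDerivAt.congr_fderiv (f := lse p q b ρ) h1 ?_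
  apply ContinuousLinearMap.ext; intro v
  rw [_root_.smul_apply, _root_.smul_apply, cl_apply, cl_apply, smul_eq_mul, smul_eq_mul]
  field_simp

theorem wt_hasFDerivAt (j : J) (z : ℝ × ℝ) :
    HasFDerivAt (wt p q b ρ j) (cl (wt p q b ρ j z / ρ * (p j - mn p q b ρ p z))
      (wt p q b ρ j z / ρ * (q j - mn p q b ρ q z))) z := by
  have hS := (SS_pos p q b ρ z).ne'
  have h1 : HasFDerivAt (fun z => Real.exp (ex p q b ρ j z) * (SS p q b ρ z)⁻¹) _ z :=
    (ex_hasFDerivAt p q b ρ j z).exp.mul ((hasDerivAt_inv hS).comp_hasFDerivAt z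
      (SS_hasFDerivAt p q b ρ z))
  have h2 : wt p q b ρ j = fun z => Real.exp (ex p q b ρ j z) * (SS p q b ρ z)⁻¹ := by
    ext z
    unfold wt
    rw [div_eq_mul_inv]
  rw [h2]
  refine h1.congr_fderiv ?_
  apply ContinuousLinearMap.ext; intro v
  rw [_root_.add_apply, _root_.smul_apply, _root_.smul_apply, _root_.smul_apply, _root_.smul_apply,
    cl_apply, cl_apply, cl_apply]
  simp only [smul_eq_mul]
  field_simp
  ring

theorem mn_hasFDerivAt (c : J → ℝ) (z : ℝ × ℝ) :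
    HasFDerivAt (mn p q b ρ c) (cl (cv p q b ρ c p z / ρ) (cv p q b ρ c q z / ρ)) z := by
  have h1 : HasFDerivAt (fun z => ∑ j, wt p q b ρ j z * c j)
      (∑ j, c j • cl (wt p q b ρ j z / ρ * (p j - mn p q b ρ p z))
      (wt p q b ρ j z / ρ * (q j - mn p q b ρ q z))) z := by
    apply HasFDerivAt.fun_sum
    intro j _
    exact (wt_hasFDerivAt p q b ρ j z).mul_const (c j)
  have e1 : ∀ d : J → ℝ, cv p q b ρ c d z / ρ =
      ∑ j, c j * ((wt p q b ρ j z / ρ) * (d j - mn p q b ρ d z)) := by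
    intro d
    unfold cv
    have : mn p q b ρ c z * mn p q b ρ d z = ∑ j, wt p q b ρ j z * c j * mn p q b ρ d z := by
      rw [← Finset.sum_mul]; rfl
    rw [this, ← Finset.sum_sub_distrib, Finset.sum_div]
    apply Finset.sum_congr rfl
    intro j _
    ring
  refine h1.congr_fderiv ?_
  apply ContinuousLinearMap.ext; intro v
  rw [_root_.sum_apply, cl_apply, e1, e1, Finset.sum_mul, Finset.sum_mul, ← Finset.sum_add_distrib]
  apply Finset.sum_congr rfl
  intro j _
  rw [_root_.smul_apply, cl_apply, smul_eq_mul]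
  ring

theorem mn_mem {c : J → ℝ} (hc : ∀ j, 0 ≤ c j ∧ c j ≤ 1) (z : ℝ × ℝ) :
    0 ≤ mn p q b ρ c z ∧ mn p q b ρ c z ≤ 1 := by
  constructor
  · exact Finset.sum_nonneg (fun j _ => mul_nonneg (wt_nonneg p q b ρ j z) (hc j).1)
  · rw [← wt_sum p q b ρ z]
    exact Finset.sum_le_sum (fun j _ => mul_le_of_le_one_right (wt_nonneg p q b ρ j z) (hc j).2)

/-- variance of a linear combination -/
theorem cv_quad (c d : J → ℝ) (u v : ℝ) (z : ℝ × ℝ) :
    cv p q b ρ c c z * u ^ 2 + 2 * cv p q b ρ c d z * (u * v) + cv p q b ρ d d z * v ^ 2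
      = ∑ j, wt p q b ρ j z * (u * c j + v * d j - (u * mn p q b ρ c z + v * mn p q b ρ d z)) ^ 2 := by
  have hw := wt_sum p q b ρ z
  have e : ∑ j, wt p q b ρ j z * (u * c j + v * d j - (u * mn p q b ρ c z + v * mn p q b ρ d z)) ^ 2
      = u ^ 2 * ∑ j, wt p q b ρ j z * (c j * c j) + 2 * u * v * ∑ j, wt p q b ρ j z * (c j * d j)
        + v ^ 2 * ∑ j, wt p q b ρ j z * (d j * d j)
        - 2 * (u * mn p q b ρ c z + v * mn p q b ρ d z) * (u * ∑ j, wt p q b ρ j z * c j
          + v * ∑ j, wt p q b ρ j z * d j)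
        + (u * mn p q b ρ c z + v * mn p q b ρ d z) ^ 2 * ∑ j, wt p q b ρ j z := by
    simp only [Finset.mul_sum, ← Finset.sum_add_distrib, ← Finset.sum_sub_distrib]
    apply Finset.sum_congr rfl
    intro j _
    ring
  rw [e, hw]
  have e1 : ∑ j, wt p q b ρ j z * c j = mn p q b ρ c z := rfl
  have e2 : ∑ j, wt p q b ρ j z * d j = mn p q b ρ d z := rfl
  rw [e1, e2]
  unfold cv
  ring

theorem cv_quad_nonneg (c d : J → ℝ) (u v : ℝ) (z : ℝ × ℝ) :
    0 ≤ cv p q b ρ c c z * u ^ 2 + 2 * cv p q b ρ c d z * (u * v) + cv p q b ρ d d z * v ^ 2 := by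
  rw [cv_quad]
  exact Finset.sum_nonneg (fun j _ => mul_nonneg (wt_nonneg p q b ρ j z) (sq_nonneg _))

theorem cv_self_nonneg (c : J → ℝ) (z : ℝ × ℝ) : 0 ≤ cv p q b ρ c c z := by
  have := cv_quad_nonneg p q b ρ c c 1 0 z
  simpa using this

theorem cv_det_nonneg (c d : J → ℝ) (z : ℝ × ℝ) :
    cv p q b ρ c d z ^ 2 ≤ cv p q b ρ c c z * cv p q b ρ d d z := by
  have h := fun u v => cv_quad_nonneg p q b ρ c d u v z
  have h1 := cv_self_nonneg p q b ρ c z
  have h2 := cv_self_nonneg p q b ρ d z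
  by_cases h3 : cv p q b ρ c c z = 0
  · rw [h3, zero_mul]
    by_cases h4 : cv p q b ρ c d z = 0
    · rw [h4]; norm_num
    · exfalso
      have := h (-(cv p q b ρ d d z + 1) / cv p q b ρ c d z) 1
      rw [h3] at this
      have e : 0 * (-(cv p q b ρ d d z + 1) / cv p q b ρ c d z) ^ 2
          + 2 * cv p q b ρ c d z * (-(cv p q b ρ d d z + 1) / cv p q b ρ c d z * 1)
          + cv p q b ρ d d z * 1 ^ 2 = - cv p q b ρ d d z - 2 := by
        field_simp
        ring
      rw [e] at this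
      linarith
  · have h4 : 0 < cv p q b ρ c c z := lt_of_le_of_ne h1 (Ne.symm h3)
    have := h (-(cv p q b ρ c d z)) (cv p q b ρ c c z)
    have h5 : 0 ≤ cv p q b ρ c c z * (cv p q b ρ c c z * cv p q b ρ d d z - cv p q b ρ c d z ^ 2) := by
      nlinarith
    have := (mul_nonneg_iff_of_pos_left h4).1 h5
    linarith

theorem cv_self_le {c : J → ℝ} (hc : ∀ j, 0 ≤ c j ∧ c j ≤ 1) (z : ℝ × ℝ) : cv p q b ρ c c z ≤ 1 := by
  unfold cv
  have h1 : ∑ j, wt p q b ρ j z * (c j * c j) ≤ 1 := by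
    rw [← wt_sum p q b ρ z]
    apply Finset.sum_le_sum
    intro j _
    apply mul_le_of_le_one_right (wt_nonneg p q b ρ j z)
    have := hc j
    nlinarith
  have h2 := mul_self_nonneg (mn p q b ρ c z)
  linarith

theorem le_lse (hρ : 0 < ρ) (j : J) (z : ℝ × ℝ) : p j * z.1 + q j * z.2 - b j ≤ lse p q b ρ z := by
  unfold lse
  have h1 : Real.exp (ex p q b ρ j z) ≤ SS p q b ρ z :=
    Finset.single_le_sum (f := fun j => Real.exp (ex p q b ρ j z))
      (fun _ _ => (Real.exp_pos _).le) (mem_univ j)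
  have h2 := Real.log_le_log (Real.exp_pos _) h1
  rw [Real.log_exp] at h2
  unfold ex at h2
  rw [div_le_iff₀ hρ] at h2
  linarith

theorem lse_le (hρ : 0 < ρ) (z : ℝ × ℝ) (M : ℝ) (h : ∀ j, p j * z.1 + q j * z.2 - b j ≤ M) :
    lse p q b ρ z ≤ M + ρ * Real.log (Fintype.card J) := by
  unfold lse
  have h1 : SS p q b ρ z ≤ Fintype.card J * Real.exp (M / ρ) := by
    unfold SS
    calc ∑ j, Real.exp (ex p q b ρ j z) ≤ ∑ _j : J, Real.exp (M / ρ) := by
          apply Finset.sum_le_sum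
          intro j _
          apply Real.exp_le_exp.2
          unfold ex
          gcongr
          exact h j
      _ = _ := by simp [Finset.sum_const]
  have hc : (0:ℝ) < Fintype.card J := by exact_mod_cast Fintype.card_pos
  have h2 := Real.log_le_log (SS_pos p q b ρ z) h1
  rw [Real.log_mul hc.ne' (Real.exp_pos _).ne', Real.log_exp] at h2
  have h3 := mul_le_mul_of_nonneg_left h2 hρ.le
  have h4 : ρ * (Real.log (Fintype.card J) + M / ρ) = M + ρ * Real.log (Fintype.card J) := by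
    field_simp
    ring
  linarith

end

end Pool.Agent.Hhelper31.PC
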