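import Mathlib

set_option autoImplicit false

namespace Pool.Agent.Hhelper31.PC

open Finset

/-- Balanced assignment: for every matrix `a` (rows `I`, columns `J`, `2 |I| ≤ |J|`) there are row
prices `h` such that every row is a best row for at least two columns. -/
theorem exists_prices {I J : Type*} [Fintype I] [Nonempty I] [Fintype J] [DecidableEq I]
    (a : I → J → ℝ) (hIJ : 2 * Fintype.card I ≤ Fintype.card J) :
    ∃ h : I → ℝ, ∀ i, 2 ≤ ((univ : Finset J).filter
      (fun j => ∀ k, a k j - h k ≤ a i j - h i)).card := by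
  classical
  have hJpos : 0 < Fintype.card J := by
    have : 0 < Fintype.card I := Fintype.card_pos
    omega
  have : Nonempty J := Fintype.card_pos_iff.1 hJpos
  -- the max function
  let mx : (I → ℝ) → J → ℝ := fun h j => (univ : Finset I).sup' univ_nonempty (fun i => a i j - h i)
  have hmx_le : ∀ h j i, a i j - h i ≤ mx h j := fun h j i =>
    Finset.le_sup' (f := fun i => a i j - h i) (mem_univ i)
  have hmx_ex : ∀ h j, ∃ i, mx h j = a i j - h i := by
    intro h j
    obtain ⟨i, _, hi⟩ := Finset.exists_mem_eq_sup' univ_nonempty (fun i => a i j - h i)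
    exact ⟨i, hi⟩
  have hmx_cont : ∀ j, Continuous (fun h : I → ℝ => mx h j) := by
    intro j
    apply Continuous.finset_sup'_apply
    intro i _
    exact continuous_const.sub (continuous_apply i)
  set c : ℝ := (Fintype.card J : ℝ) / Fintype.card I with hc
  have hIposR : (0 : ℝ) < Fintype.card I := by exact_mod_cast (Fintype.card_pos (α := I))
  have hJposR : (0 : ℝ) < Fintype.card J := by exact_mod_cast hJpos
  have hc2 : 2 ≤ c := by
    rw [hc, le_div_iff₀ hIposR]
    exact_mod_cast hIJ
  let Φ : (I → ℝ) → ℝ := fun h => ∑ j, mx h j + c * ∑ i, h i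
  have hΦcont : Continuous Φ := by
    apply Continuous.add
    · exact continuous_finsetSum _ (fun j _ => hmx_cont j)
    · exact continuous_const.mul (continuous_finsetSum _ (fun i _ => continuous_apply i))
  -- shift invariance
  have hshift : ∀ h s, Φ (fun i => h i + s) = Φ h := by
    intro h s
    have h1 : ∀ j, mx (fun i => h i + s) j = mx h j - s := by
      intro j
      apply le_antisymm
      · obtain ⟨i, hi⟩ := hmx_ex (fun i => h i + s) j
        rw [hi]
        have := hmx_le h j i
        linarith
      · obtain ⟨i, hi⟩ := hmx_ex h j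
        rw [hi]
        have := hmx_le (fun i => h i + s) j i
        linarith
    show ∑ j, mx (fun i => h i + s) j + c * ∑ i, (h i + s) = ∑ j, mx h j + c * ∑ i, h i
    simp only [h1, sum_sub_distrib, sum_add_distrib, sum_const, card_univ, nsmul_eq_mul]
    have : c * (Fintype.card I : ℝ) = Fintype.card J := by
      rw [hc]; field_simp
    have h2 : c * (∑ i, h i + (Fintype.card I : ℝ) * s) = c * ∑ i, h i + (Fintype.card J : ℝ) * s := by
      rw [mul_add, ← mul_assoc, this]
    rw [h2]
    ring
  -- bound on the entries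
  obtain ⟨A, hA⟩ : ∃ A : ℝ, ∀ i j, |a i j| ≤ A := by
    refine ⟨∑ i, ∑ j, |a i j|, fun i j => ?_⟩
    calc |a i j| ≤ ∑ j, |a i j| := Finset.single_le_sum (f := fun j => |a i j|)
          (fun _ _ => abs_nonneg _) (mem_univ j)
      _ ≤ ∑ i, ∑ j, |a i j| := Finset.single_le_sum (f := fun i => ∑ j, |a i j|)
          (fun _ _ => Finset.sum_nonneg (fun _ _ => abs_nonneg _)) (mem_univ i)
  have hA0 : 0 ≤ A := (abs_nonneg _).trans (hA (Classical.arbitrary I) (Classical.arbitrary J))
  -- sum over J bound
  have hΦlow : ∀ h (i0 : I), (Fintype.card J : ℝ) * (-A - h i0) + c * ∑ i, h i ≤ Φ h := by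
    intro h i0
    have h1 : (Fintype.card J : ℝ) * (-A - h i0) = ∑ _j : J, (-A - h i0) := by
      rw [sum_const, card_univ, nsmul_eq_mul]
    rw [h1]
    apply add_le_add _ le_rfl
    apply Finset.sum_le_sum
    intro j _
    have h2 := hmx_le h j i0
    have h3 := (abs_le.1 (hA i0 j)).1
    linarith
  have hΦ0 : Φ (fun _ => 0) ≤ (Fintype.card J : ℝ) * A := by
    have h1 : (Fintype.card J : ℝ) * A = ∑ _j : J, A := by simp [sum_const]
    show ∑ j, mx (fun _ => 0) j + c * ∑ i : I, (0 : ℝ) ≤ _
    rw [sum_const_zero, mul_zero, add_zero, h1]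
    apply Finset.sum_le_sum
    intro j _
    obtain ⟨i, hi⟩ := hmx_ex (fun _ => 0) j
    rw [hi]
    have h3 := (abs_le.1 (hA i j)).2
    linarith
  -- compact set
  set Mb : ℝ := (2 * A + 1) * Fintype.card I with hMb
  let Kc : Set (I → ℝ) := {h | (∀ i, |h i| ≤ Mb) ∧ ∑ i, h i = 0}
  have hKc : IsCompact Kc := by
    have h1 : IsClosed Kc := by
      apply IsClosed.inter
      · have h2 : {h : I → ℝ | ∀ i, |h i| ≤ Mb} = ⋂ i, {h : I → ℝ | |h i| ≤ Mb} := by
          ext h; simp
        show IsClosed {h : I → ℝ | ∀ i, |h i| ≤ Mb}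
        rw [h2]
        exact isClosed_iInter (fun i => isClosed_le (continuous_apply i).abs continuous_const)
      · exact isClosed_eq (continuous_finsetSum _ (fun i _ => continuous_apply i)) continuous_const
    apply IsCompact.of_isClosed_subset (isCompact_univ_pi (fun _ : I => isCompact_Icc (a := -Mb) (b := Mb))) h1
    intro h hh i _
    exact abs_le.1 (hh.1 i)
  have hKne : Kc.Nonempty := ⟨fun _ => 0, by
    constructor
    · intro i
      rw [abs_zero]
      positivity
    · simp⟩
  obtain ⟨h, hhK, hmin⟩ := hKc.exists_isMinOn hKne hΦcont.continuousOn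
  have hΦh0 : Φ h ≤ (Fintype.card J : ℝ) * A := by
    have h0K : (fun _ => (0:ℝ)) ∈ Kc := by
      constructor
      · intro i
        rw [abs_zero]
        positivity
      · simp
    exact (hmin h0K).trans hΦ0
  -- lower bound on coordinates
  have hlow : ∀ i, -(2 * A) ≤ h i := by
    intro i
    have h1 := hΦlow h i
    rw [hhK.2, mul_zero, add_zero] at h1
    have h2 : (Fintype.card J : ℝ) * (-A - h i) ≤ (Fintype.card J : ℝ) * A := h1.trans hΦh0
    have h3 := le_of_mul_le_mul_left h2 hJposR
    linarith
  have hup : ∀ i, h i ≤ (2 * A) * (Fintype.card I : ℝ) := by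
    intro i
    have h1 : h i = - ∑ k ∈ univ.erase i, h k := by
      have := Finset.add_sum_erase univ h (mem_univ i)
      rw [hhK.2] at this
      linarith
    rw [h1, ← Finset.sum_neg_distrib]
    calc ∑ k ∈ univ.erase i, -h k ≤ ∑ k ∈ univ.erase i, (2 * A) :=
          Finset.sum_le_sum (fun k _ => by have := hlow k; linarith)
      _ ≤ ∑ k : I, (2 * A) := Finset.sum_le_sum_of_subset_of_nonneg (erase_subset _ _)
          (fun _ _ _ => by positivity)
      _ = (2 * A) * (Fintype.card I : ℝ) := by simp [sum_const]; ring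
  have hstrict : ∀ i, |h i| ≤ Mb - 1 := by
    intro i
    have h1I : (1 : ℝ) ≤ Fintype.card I := by exact_mod_cast (Fintype.card_pos (α := I))
    rw [abs_le]
    constructor
    · have := hlow i
      rw [hMb]
      nlinarith
    · have := hup i
      rw [hMb]
      nlinarith
  -- global minimality for small perturbations
  have hglob : ∀ i, ∀ ε : ℝ, 0 < ε → ε ≤ 1 / 2 → Φ h ≤ Φ (fun k => if k = i then h k - ε else h k) := by
    intro i ε hε hε2
    set h' : I → ℝ := fun k => if k = i then h k - ε else h k with hh'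
    have h1 : Φ (fun k => h' k + ε / Fintype.card I) = Φ h' := hshift h' _
    rw [← h1]
    apply hmin
    have hle1 : ε / Fintype.card I ≤ 1 / 2 := by
      rw [div_le_iff₀ hIposR]
      have h1I : (1 : ℝ) ≤ Fintype.card I := by exact_mod_cast (Fintype.card_pos (α := I))
      nlinarith
    have hge1 : 0 ≤ ε / Fintype.card I := by positivity
    constructor
    · intro k
      have h2 := abs_le.1 (hstrict k)
      rw [abs_le]
      simp only [hh']
      split_ifs with hk
      · constructor <;> linarith [h2.1, h2.2]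
      · constructor <;> linarith [h2.1, h2.2]
    · rw [sum_add_distrib]
      have h3 : ∑ k, h' k = ∑ k, h k - ε := by
        have h4 : ∀ k, h' k = h k - (if k = i then ε else 0) := by
          intro k
          simp only [hh']
          split_ifs <;> ring
        simp only [h4, sum_sub_distrib]
        simp
      rw [h3, hhK.2]
      simp [sum_const]
      field_simp
      ring
  refine ⟨h, fun i => ?_⟩
  set Ci := (univ : Finset J).filter (fun j => ∀ k, a k j - h k ≤ a i j - h i) with hCi
  -- a gap
  obtain ⟨ε, hε, hε2, hgap⟩ : ∃ ε : ℝ, 0 < ε ∧ ε ≤ 1 / 2 ∧ ∀ j ∉ Ci, a i j - h i + ε ≤ mx h j := by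
    have h1 : ∀ j, j ∉ Ci → 0 < mx h j - (a i j - h i) := by
      intro j hj
      rw [hCi, mem_filter] at hj
      push Not at hj
      obtain ⟨k, hk⟩ := hj (mem_univ j)
      have := hmx_le h j k
      linarith
    by_cases hne : (univ.filter (fun j => j ∉ Ci)).Nonempty
    · obtain ⟨j0, hj0, hmin0⟩ := Finset.exists_min_image (univ.filter (fun j => j ∉ Ci))
        (fun j => mx h j - (a i j - h i)) hne
      rw [mem_filter] at hj0
      refine ⟨min (1 / 2) (mx h j0 - (a i j0 - h i)), lt_min (by norm_num) (h1 j0 hj0.2),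
        min_le_left _ _, fun j hj => ?_⟩
      have h2 := hmin0 j (by rw [mem_filter]; exact ⟨mem_univ _, hj⟩)
      have h3 := min_le_right (1 / 2) (mx h j0 - (a i j0 - h i))
      linarith
    · refine ⟨1 / 2, by norm_num, le_rfl, fun j hj => ?_⟩
      exfalso
      apply hne
      exact ⟨j, by rw [mem_filter]; exact ⟨mem_univ _, hj⟩⟩
  have h2 := hglob i ε hε hε2
  set h' : I → ℝ := fun k => if k = i then h k - ε else h k with hh'
  have h3 : ∀ j, mx h' j ≤ mx h j + (if j ∈ Ci then ε else 0) := by
    intro j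
    obtain ⟨k, hk⟩ := hmx_ex h' j
    rw [hk]
    simp only [hh']
    by_cases hki : k = i
    · rw [if_pos hki, hki]
      by_cases hj : j ∈ Ci
      · rw [if_pos hj]
        have := hmx_le h j i
        linarith
      · rw [if_neg hj]
        have := hgap j hj
        linarith
    · rw [if_neg hki]
      have h4 := hmx_le h j k
      have h5 : (0:ℝ) ≤ (if j ∈ Ci then ε else 0) := by split_ifs <;> linarith
      linarith
  have h4 : ∑ k, h' k = ∑ k, h k - ε := by
    have h4 : ∀ k, h' k = h k - (if k = i then ε else 0) := by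
      intro k
      simp only [hh']
      split_ifs <;> ring
    simp only [h4, sum_sub_distrib]
    simp
  have h5 : Φ h' ≤ Φ h + (Ci.card : ℝ) * ε - c * ε := by
    show ∑ j, mx h' j + c * ∑ k, h' k ≤ (∑ j, mx h j + c * ∑ k, h k) + (Ci.card : ℝ) * ε - c * ε
    rw [h4]
    have h6 : ∑ j, mx h' j ≤ ∑ j, mx h j + (Ci.card : ℝ) * ε := by
      calc ∑ j, mx h' j ≤ ∑ j, (mx h j + (if j ∈ Ci then ε else 0)) :=
            Finset.sum_le_sum (fun j _ => h3 j)
        _ = ∑ j, mx h j + (Ci.card : ℝ) * ε := by
          rw [sum_add_distrib]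
          simp [Finset.sum_ite_mem]
    nlinarith
  have h6 : c * ε ≤ (Ci.card : ℝ) * ε := by linarith
  have h7 : c ≤ (Ci.card : ℝ) := le_of_mul_le_mul_right h6 hε
  have h8 : (2 : ℝ) ≤ (Ci.card : ℝ) := hc2.trans h7
  exact_mod_cast h8

end Pool.Agent.Hhelper31.PC
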