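import Mathlib
import Pool.Agent.Hhelper31.PC.LSE
import Pool.Agent.Hhelper31.PC.Flux
import Pool.Agent.Hhelper31.PC.Cubes
import Pool.Agent.Hhelper31.PC.Potential

set_option autoImplicit false

namespace Pool.Agent.Hhelper31.PC

open MeasureTheory Metric Set Filter Topology
open scoped ENNReal NNReal

/-- half-open box with centre `(x0, y0)` and half side `r` -/
def bx (x0 y0 r : ℝ) : Set (ℝ × ℝ) := Ioc (x0 - r) (x0 + r) ×ˢ Ioc (y0 - r) (y0 + r)

theorem bx_intOn {f : ℝ × ℝ → ℝ} (hf : Continuous f) (x0 y0 r : ℝ) : IntegrableOn f (bx x0 y0 r) := by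
  apply (hf.continuousOn.integrableOn_compact (K := Icc (x0 - r) (x0 + r) ×ˢ Icc (y0 - r) (y0 + r))
    (isCompact_Icc.prod isCompact_Icc)).mono_set
  exact Set.prod_mono Ioc_subset_Icc_self Ioc_subset_Icc_self

theorem bx_int {f : ℝ × ℝ → ℝ} (hf : Continuous f) (x0 y0 r : ℝ) (hr : 0 < r) :
    ∫ z in bx x0 y0 r, f z = ∫ x in (x0 - r)..(x0 + r), ∫ y in (y0 - r)..(y0 + r), f (x, y) := by
  unfold bx
  rw [Measure.volume_eq_prod, setIntegral_prod, intervalIntegral.integral_of_le (by linarith)]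
  · congr 1
    ext x
    rw [intervalIntegral.integral_of_le (by linarith)]
  · rw [← Measure.volume_eq_prod]
    exact bx_intOn hf x0 y0 r

theorem bx_int' {f : ℝ × ℝ → ℝ} (hf : Continuous f) (x0 y0 r : ℝ) (hr : 0 < r) :
    ∫ z in bx x0 y0 r, f z = ∫ y in (y0 - r)..(y0 + r), ∫ x in (x0 - r)..(x0 + r), f (x, y) := by
  rw [bx_int hf x0 y0 r hr]
  exact intervalIntegral_intervalIntegral_swap (F := fun x y => f (x, y)) (a := x0 - r) (b := x0 + r)
    (c := y0 - r) (d := y0 + r) ((hf.continuousOn.integrableOn_compact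
      (isCompact_uIcc.prod isCompact_uIcc)).mono_set
      (Set.prod_mono uIoc_subset_uIcc uIoc_subset_uIcc))

section
variable {J : Type} [Fintype J] [Nonempty J] (p q b : J → ℝ) (ρ : ℝ)

theorem cl_one_zero (u v : ℝ) : cl u v (1, 0) = u := by rw [cl_apply]; ring
theorem cl_zero_one (u v : ℝ) : cl u v (0, 1) = v := by rw [cl_apply]; ring

theorem der_fst {f : ℝ × ℝ → ℝ} {u v : ℝ} {x y : ℝ} (h : HasFDerivAt f (cl u v) (x, y)) :
    HasDerivAt (fun x => f (x, y)) u x := by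
  have h1 : HasDerivAt (fun x : ℝ => (x, y)) (1, 0) x := (hasDerivAt_id x).prodMk (hasDerivAt_const x y)
  have := h.comp_hasDerivAt x h1
  rw [cl_one_zero] at this
  exact this

theorem der_snd {f : ℝ × ℝ → ℝ} {u v : ℝ} {x y : ℝ} (h : HasFDerivAt f (cl u v) (x, y)) :
    HasDerivAt (fun y => f (x, y)) v y := by
  have h1 : HasDerivAt (fun y : ℝ => (x, y)) (0, 1) y := (hasDerivAt_const y x).prodMk (hasDerivAt_id y)
  have := h.comp_hasDerivAt y h1
  rw [cl_zero_one] at this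
  exact this

theorem lse_cont (hρ : 0 < ρ) : Continuous (lse p q b ρ) :=
  continuous_iff_continuousAt.2 (fun z => (lse_hasFDerivAt p q b ρ hρ z).continuousAt)

theorem cell (hρ : 0 < ρ) (x0 y0 r H e : ℝ) (hr : 0 < r) (j j' : J)
    (hup : ∀ k, p k * x0 + q k * y0 - b k ≤ H)
    (hj : p j * x0 + q j * y0 - b j = H) (hj' : p j' * x0 + q j' * y0 - b j' = H)
    (he : ρ * Real.log (Fintype.card J) ≤ e) :
    r * (|p j - p j'| + |q j - q j'|) - 4 * e ≤
      ∫ z in bx x0 y0 r, (cv p q b ρ p p z + cv p q b ρ q q z) / ρ := by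
  have c1 : Continuous (fun z => cv p q b ρ p p z / ρ) := (cv_cont p q b ρ p p).div_const ρ
  have c2 : Continuous (fun z => cv p q b ρ q q z / ρ) := (cv_cont p q b ρ q q).div_const ρ
  have e1 : ∫ z in bx x0 y0 r, (cv p q b ρ p p z + cv p q b ρ q q z) / ρ
      = (∫ y in (y0 - r)..(y0 + r), ∫ x in (x0 - r)..(x0 + r), cv p q b ρ p p (x, y) / ρ)
      + ∫ x in (x0 - r)..(x0 + r), ∫ y in (y0 - r)..(y0 + r), cv p q b ρ q q (x, y) / ρ := by
    rw [← bx_int' c1 x0 y0 r hr, ← bx_int c2 x0 y0 r hr, ← integral_add (bx_intOn c1 x0 y0 r)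
      (bx_intOn c2 x0 y0 r)]
    congr 1
    ext z
    ring
  rw [e1]
  refine flux (ψ := fun x y => lse p q b ρ (x, y)) (gx := fun x y => mn p q b ρ p (x, y))
    (gy := fun x y => mn p q b ρ q (x, y)) (a := fun x y => cv p q b ρ p p (x, y) / ρ)
    (b := fun x y => cv p q b ρ q q (x, y) / ρ) (lse_cont p q b ρ hρ)
    (mn_cont p q b ρ p) (mn_cont p q b ρ q) c1 c2 ?_ ?_ ?_ ?_ ?_ ?_ x0 y0 r H e (p j) (q j) (p j') (q j')
    hr ?_ ?_ ?_
  · intro x y
    exact der_fst (lse_hasFDerivAt p q b ρ hρ (x, y))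
  · intro x y
    exact der_fst (mn_hasFDerivAt p q b ρ p (x, y))
  · intro x y
    exact der_snd (lse_hasFDerivAt p q b ρ hρ (x, y))
  · intro x y
    exact der_snd (mn_hasFDerivAt p q b ρ q (x, y))
  · intro x y
    exact div_nonneg (cv_self_nonneg _ _ _ _ _ _) hρ.le
  · intro x y
    exact div_nonneg (cv_self_nonneg _ _ _ _ _ _) hρ.le
  · refine (lse_le p q b ρ hρ (x0, y0) H hup).trans ?_
    linarith
  · intro x y
    refine le_trans (le_of_eq ?_) (le_lse p q b ρ hρ j (x, y))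
    simp only
    rw [← hj]
    ring
  · intro x y
    refine le_trans (le_of_eq ?_) (le_lse p q b ρ hρ j' (x, y))
    simp only
    rw [← hj']
    ring

theorem ex_shift (τ : ℝ × ℝ) (j : J) (z : ℝ × ℝ) :
    ex p q (fun j => b j + p j * τ.1 + q j * τ.2) ρ j z = ex p q b ρ j (z - τ) := by
  unfold ex
  rw [Prod.fst_sub, Prod.snd_sub]
  ring

theorem cv_shift (τ : ℝ × ℝ) (c d : J → ℝ) (z : ℝ × ℝ) :
    cv p q (fun j => b j + p j * τ.1 + q j * τ.2) ρ c d z = cv p q b ρ c d (z - τ) := by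
  simp only [cv, mn, wt, SS, ex_shift]

end

/-- averaging over translations -/
theorem average {g : ℝ × ℝ → ℝ} (hg : Continuous g) (hg0 : ∀ z, 0 ≤ g z) {V : Set (ℝ × ℝ)}
    (hV : MeasurableSet V) (h1 : volume V ≠ ⊤) {δ c : ℝ} (hδ : 0 < δ) (hc : 0 ≤ c)
    (I : Finset (ℤ × ℤ)) (hI : ∀ i ∈ I, δ ^ 2 / 2 ≤ volume.real (V ∩ Qc δ i))
    (hcell : ∀ i ∈ I, c ≤ ∫ z in bx ((i.1 + 1 / 2) * δ) ((i.2 + 1 / 2) * δ) (δ / 2), g z)
    {M : ℝ} (hM0 : 0 ≤ M) (hM : ∀ τ : ℝ × ℝ, ∫⁻ z in V, ENNReal.ofReal (g (z - τ)) ≤ ENNReal.ofReal M) :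
    I.card * (δ ^ 2 / 2) * c ≤ M * (4 * δ ^ 2) := by
  set G : ℝ × ℝ → ℝ≥0∞ := fun z => ENNReal.ofReal (g z) with hG
  have hGm : Measurable G := hg.measurable.ennreal_ofReal
  set T : Set (ℝ × ℝ) := Icc (-δ) δ ×ˢ Icc (-δ) δ with hT
  have hTm : MeasurableSet T := measurableSet_Icc.prod measurableSet_Icc
  have hTvol : volume T = ENNReal.ofReal (4 * δ ^ 2) := by
    rw [hT, Measure.volume_eq_prod, Measure.prod_prod, Real.volume_Icc,
      ← ENNReal.ofReal_mul (by linarith)]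
    congr 1
    ring
  -- upper bound
  have hup : ∫⁻ τ in T, ∫⁻ z in V, G (z - τ) ≤ ENNReal.ofReal (M * (4 * δ ^ 2)) := by
    calc ∫⁻ τ in T, ∫⁻ z in V, G (z - τ) ≤ ∫⁻ _τ in T, ENNReal.ofReal M :=
          lintegral_mono (fun τ => hM τ)
      _ = ENNReal.ofReal (M * (4 * δ ^ 2)) := by
          rw [setLIntegral_const, hTvol, ← ENNReal.ofReal_mul hM0]
  -- lower bound
  have hswap : ∫⁻ τ in T, ∫⁻ z in V, G (z - τ) = ∫⁻ z in V, ∫⁻ τ in T, G (z - τ) := by
    apply lintegral_lintegral_swap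
    apply Measurable.aemeasurable
    exact hGm.comp (measurable_snd.sub measurable_fst)
  have hin : ∀ i ∈ I, ∀ z ∈ Qc δ i, ENNReal.ofReal c ≤ ∫⁻ τ in T, G (z - τ) := by
    intro i hi z hz
    set B := bx ((i.1 + 1 / 2) * δ) ((i.2 + 1 / 2) * δ) (δ / 2) with hB
    have hBm : MeasurableSet B := measurableSet_Ioc.prod measurableSet_Ioc
    have e1 : ENNReal.ofReal (∫ z in B, g z) = ∫⁻ z in B, G z :=
      ofReal_integral_eq_lintegral_ofReal (bx_intOn hg _ _ _) (ae_of_all _ hg0)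
    calc ENNReal.ofReal c ≤ ENNReal.ofReal (∫ z in B, g z) := ENNReal.ofReal_le_ofReal (hcell i hi)
      _ = ∫⁻ w, B.indicator G w := by rw [e1, lintegral_indicator hBm]
      _ = ∫⁻ τ, B.indicator G (z - τ) := (lintegral_sub_left_eq_self _ z).symm
      _ ≤ ∫⁻ τ, T.indicator (fun τ => G (z - τ)) τ := by
          apply lintegral_mono
          intro τ
          by_cases hτ : z - τ ∈ B
          · have : τ ∈ T := by
              obtain ⟨⟨h1, h2⟩, h3, h4⟩ := hz
              rw [hB] at hτ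
              obtain ⟨⟨h5, h6⟩, h7, h8⟩ := hτ
              rw [Prod.fst_sub] at h5 h6
              rw [Prod.snd_sub] at h7 h8
              refine ⟨⟨?_, ?_⟩, ?_, ?_⟩ <;> nlinarith
            simp only [indicator_of_mem hτ, indicator_of_mem this]
            exact le_rfl
          · simp only [indicator_of_notMem hτ]
            exact zero_le
      _ = ∫⁻ τ in T, G (z - τ) := lintegral_indicator hTm _
  have hlow : ENNReal.ofReal (I.card * (δ ^ 2 / 2) * c) ≤ ∫⁻ z in V, ∫⁻ τ in T, G (z - τ) := by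
    have hfin : ∀ i, volume (V ∩ Qc δ i) ≠ ⊤ := fun i =>
      ((measure_mono inter_subset_left).trans_lt (lt_top_iff_ne_top.2 h1)).ne
    calc ENNReal.ofReal (I.card * (δ ^ 2 / 2) * c)
        = ∑ _i ∈ I, ENNReal.ofReal c * ENNReal.ofReal (δ ^ 2 / 2) := by
          rw [Finset.sum_const, nsmul_eq_mul, ← ENNReal.ofReal_mul hc, ← ENNReal.ofReal_natCast,
            ← ENNReal.ofReal_mul (by positivity)]
          congr 1
          ring
      _ ≤ ∑ i ∈ I, ENNReal.ofReal c * volume (V ∩ Qc δ i) := by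
          apply Finset.sum_le_sum
          intro i hi
          gcongr
          rw [ENNReal.ofReal_le_iff_le_toReal (hfin i)]
          exact hI i hi
      _ = ∑ i ∈ I, ∫⁻ _z in V ∩ Qc δ i, ENNReal.ofReal c := by
          simp only [setLIntegral_const]
      _ ≤ ∑ i ∈ I, ∫⁻ z in V ∩ Qc δ i, ∫⁻ τ in T, G (z - τ) := by
          apply Finset.sum_le_sum
          intro i hi
          apply setLIntegral_mono' (hV.inter (Qc_meas δ i))
          intro z hz
          exact hin i hi z hz.2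
      _ = ∫⁻ z in ⋃ i ∈ I, V ∩ Qc δ i, ∫⁻ τ in T, G (z - τ) := by
          rw [lintegral_biUnion_finset]
          · intro i _ j _ hij
            exact (Qc_disj hδ hij).mono inter_subset_right inter_subset_right
          · intro i _
            exact hV.inter (Qc_meas δ i)
      _ ≤ ∫⁻ z in V, ∫⁻ τ in T, G (z - τ) := by
          apply lintegral_mono_set
          intro z hz
          simp only [mem_iUnion, exists_prop] at hz
          obtain ⟨i, _, hz, _⟩ := hz
          exact hz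
  have := hlow.trans (hswap ▸ hup)
  exact (ENNReal.ofReal_le_ofReal_iff (by positivity)).1 this

end Pool.Agent.Hhelper31.PC
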