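import Mathlib
import Pool.Agent.Hhelper31.PC.Pot

set_option autoImplicit false

namespace Pool.Agent.Hhelper31.PC

open MeasureTheory Metric Set Filter Topology
open scoped ENNReal NNReal

theorem lap_intOn {J : Type} [Fintype J] [Nonempty J] {p q : J → ℝ} (b : J → ℝ) {ρ : ℝ}
    (hρ : 0 < ρ) (hp : ∀ j, 0 ≤ p j ∧ p j ≤ 1) (hq : ∀ j, 0 ≤ q j ∧ q j ≤ 1)
    {V : Set (ℝ × ℝ)} (hV : MeasurableSet V) (h1 : volume V ≠ ⊤) :
    IntegrableOn (fun z => (cv p q b ρ p p z + cv p q b ρ q q z) / ρ) V := by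
  apply Measure.integrableOn_of_bounded (M := 2 / ρ) h1
  · exact (((cv_cont p q b ρ p p).add (cv_cont p q b ρ q q)).div_const ρ).aestronglyMeasurable
  · apply ae_of_all
    intro z
    have a1 := cv_self_nonneg p q b ρ p z
    have a2 := cv_self_nonneg p q b ρ q z
    have a3 := cv_self_le p q b ρ hp z
    have a4 := cv_self_le p q b ρ hq z
    rw [Real.norm_of_nonneg (div_nonneg (add_nonneg a1 a2) hρ.le)]
    gcongr
    linarith

theorem pot_exists {V : Set (ℝ × ℝ)} (hV : MeasurableSet V) (h0 : volume V ≠ 0)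
    (h1 : volume V ≠ ⊤) : ∃ (n : ℕ) (p q b : Fin (n + 1) × Fin (n + 1) → ℝ) (ρ : ℝ), 0 < ρ ∧
      (∀ j, 0 ≤ p j ∧ p j ≤ 1) ∧ (∀ j, 0 ≤ q j ∧ q j ≤ 1) ∧
      Real.sqrt (volume.real V) / 256 ≤
        ∫ z in V, (cv p q b ρ p p z + cv p q b ρ q q z) / ρ := by
  classical
  obtain ⟨δ, hδ, I, hI, hcard⟩ := cube_select hV h0 h1
  have hv : 0 < volume.real V := by
    rw [Measure.real]; exact ENNReal.toReal_pos h0 h1
  set v := volume.real V with hvdef
  set m := I.card with hm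
  have hδ2 : 0 < δ ^ 2 := by positivity
  have hmpos : 0 < m := by
    rcases Nat.eq_zero_or_pos m with h | h
    · rw [h] at hcard
      simp at hcard
      linarith
    · exact h
  have hmR : (1:ℝ) ≤ m := by exact_mod_cast hmpos
  set n := Nat.sqrt (2 * m) with hn
  have hn1 : 1 ≤ n := by
    rw [hn, Nat.le_sqrt']
    omega
  have hn2 : n ^ 2 ≤ 2 * m := Nat.sqrt_le' _
  have hn3 : 2 * m < (n + 1) ^ 2 := Nat.lt_succ_sqrt' _
  have hNR : ((n:ℝ) + 1) ^ 2 ≤ 8 * m := by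
    have a1 : (1:ℝ) ≤ n := by exact_mod_cast hn1
    have a2 : (n:ℝ) ^ 2 ≤ 2 * m := by exact_mod_cast hn2
    nlinarith
  set s0 : ℝ := 1 / ((n:ℝ) + 1) with hs0
  have hs0pos : 0 < s0 := by positivity
  -- slopes
  let p : Fin (n + 1) × Fin (n + 1) → ℝ := fun j => (j.1 : ℕ) * s0
  let q : Fin (n + 1) × Fin (n + 1) → ℝ := fun j => (j.2 : ℕ) * s0
  have hfin01 : ∀ k : Fin (n + 1), 0 ≤ ((k : ℕ) : ℝ) * s0 ∧ ((k : ℕ) : ℝ) * s0 ≤ 1 := by
    intro k
    constructor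
    · positivity
    · have : ((k : ℕ) : ℝ) ≤ n := by exact_mod_cast Nat.lt_succ_iff.1 k.2
      rw [hs0, mul_one_div, div_le_one (by positivity)]
      linarith
  have hp : ∀ j, 0 ≤ p j ∧ p j ≤ 1 := fun j => hfin01 j.1
  have hq : ∀ j, 0 ≤ q j ∧ q j ≤ 1 := fun j => hfin01 j.2
  have hsep1 : ∀ k l : Fin (n + 1), k ≠ l → s0 ≤ |((k : ℕ) : ℝ) * s0 - ((l : ℕ) : ℝ) * s0| := by
    intro k l hkl
    rw [← sub_mul, abs_mul, abs_of_pos hs0pos]
    have h2 : (k : ℕ) ≠ (l : ℕ) := fun h => hkl (Fin.ext h)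
    have h3 : (1 : ℝ) ≤ |((k : ℕ) : ℝ) - ((l : ℕ) : ℝ)| := by
      have h4 : (1 : ℤ) ≤ |((k : ℕ) : ℤ) - ((l : ℕ) : ℤ)| := by
        apply Int.one_le_abs
        intro h5
        apply h2
        omega
      exact_mod_cast h4
    nlinarith
  have hsep : ∀ j j', j ≠ j' → s0 ≤ |p j - p j'| + |q j - q j'| := by
    intro j j' hjj
    by_cases h : j.1 = j'.1
    · have h2 : j.2 ≠ j'.2 := fun h' => hjj (Prod.ext h h')
      have := hsep1 _ _ h2
      have h3 := abs_nonneg (p j - p j')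
      show s0 ≤ |p j - p j'| + |((j.2 : ℕ) : ℝ) * s0 - ((j'.2 : ℕ) : ℝ) * s0|
      linarith
    · have := hsep1 _ _ h
      have h3 := abs_nonneg (q j - q j')
      show s0 ≤ |((j.1 : ℕ) : ℝ) * s0 - ((j'.1 : ℕ) : ℝ) * s0| + |q j - q j'|
      linarith
  -- prices
  let cx : {x // x ∈ I} → ℝ := fun i => (i.1.1 + 1 / 2) * δ
  let cy : {x // x ∈ I} → ℝ := fun i => (i.1.2 + 1 / 2) * δ
  have : Nonempty {x // x ∈ I} := by
    obtain ⟨i, hi⟩ := Finset.card_pos.1 hmpos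
    exact ⟨⟨i, hi⟩⟩
  obtain ⟨h, hh⟩ := exists_prices (I := {x // x ∈ I}) (J := Fin (n + 1) × Fin (n + 1))
    (fun i j => p j * cx i + q j * cy i) (by
      rw [Fintype.card_prod, Fintype.card_fin, Fintype.card_coe, ← hm, ← pow_two]
      exact hn3.le)
  let b : Fin (n + 1) × Fin (n + 1) → ℝ := fun j =>
    (Finset.univ : Finset {x // x ∈ I}).sup' Finset.univ_nonempty
      (fun i => p j * cx i + q j * cy i - h i)
  have hble : ∀ i j, p j * cx i + q j * cy i - h i ≤ b j := fun i j =>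
    Finset.le_sup' (f := fun i => p j * cx i + q j * cy i - h i) (Finset.mem_univ i)
  have hbeq : ∀ i j, (∀ k, p j * cx k + q j * cy k - h k ≤ p j * cx i + q j * cy i - h i) →
      b j = p j * cx i + q j * cy i - h i := by
    intro i j hij
    apply le_antisymm _ (hble i j)
    exact Finset.sup'_le _ _ (fun k _ => hij k)
  set L := Real.log (Fintype.card (Fin (n + 1) × Fin (n + 1))) with hL
  have hL0 : 0 ≤ L := by
    apply Real.log_nonneg
    exact_mod_cast Fintype.card_pos (α := Fin (n + 1) × Fin (n + 1))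
  set ρ : ℝ := δ * s0 / (16 * (L + 1)) with hρdef
  have hρ : 0 < ρ := by positivity
  have hρL : ρ * L ≤ δ * s0 / 16 := by
    rw [hρdef, div_mul_eq_mul_div, div_le_iff₀ (by positivity)]
    have : 0 ≤ δ * s0 := by positivity
    nlinarith
  set g : ℝ × ℝ → ℝ := fun z => (cv p q b ρ p p z + cv p q b ρ q q z) / ρ with hg
  have hgc : Continuous g := ((cv_cont p q b ρ p p).add (cv_cont p q b ρ q q)).div_const ρ
  have hg0 : ∀ z, 0 ≤ g z := fun z =>
    div_nonneg (add_nonneg (cv_self_nonneg _ _ _ _ _ _) (cv_self_nonneg _ _ _ _ _ _)) hρ.le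
  have hcell : ∀ i ∈ I, δ * s0 / 4 ≤
      ∫ z in bx ((i.1 + 1 / 2) * δ) ((i.2 + 1 / 2) * δ) (δ / 2), g z := by
    intro i hi
    obtain ⟨j, hj, j', hj', hjj⟩ := Finset.one_lt_card.1 (hh ⟨i, hi⟩)
    rw [Finset.mem_filter] at hj hj'
    have e1 := hbeq ⟨i, hi⟩ j hj.2
    have e2 := hbeq ⟨i, hi⟩ j' hj'.2
    have key := cell p q b ρ hρ ((i.1 + 1 / 2) * δ) ((i.2 + 1 / 2) * δ) (δ / 2) (h ⟨i, hi⟩)
      (δ * s0 / 16) (by positivity) j j' (by
        intro k
        have := hble ⟨i, hi⟩ k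
        simp only [cx, cy] at this
        linarith) (by
        rw [e1]; simp only [cx, cy]; ring) (by
        rw [e2]; simp only [cx, cy]; ring) hρL
    have := hsep j j' hjj
    refine le_trans ?_ key
    nlinarith
  -- averaging
  have hex : ∃ τ : ℝ × ℝ, ENNReal.ofReal (Real.sqrt v / 256) <
      ∫⁻ z in V, ENNReal.ofReal (g (z - τ)) := by
    by_contra hcon
    push Not at hcon
    have hav := average hgc hg0 hV h1 hδ (c := δ * s0 / 4) (by positivity) I hI hcell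
      (M := Real.sqrt v / 256) (by positivity) hcon
    rw [← hm] at hav
    have hlow : Real.sqrt v / 4 ≤ m * δ * s0 := by
      have e1 : Real.sqrt v / 4 = Real.sqrt (v / 16) := by
        rw [Real.sqrt_div hv.le]
        congr 1
        rw [show (16:ℝ) = 4 ^ 2 by norm_num, Real.sqrt_sq (by norm_num)]
      rw [e1]
      apply Real.sqrt_le_iff.2
      refine ⟨by positivity, ?_⟩
      have e2 : ((m:ℝ) * δ * s0) ^ 2 = (m:ℝ) ^ 2 * δ ^ 2 / ((n:ℝ) + 1) ^ 2 := by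
        rw [hs0]; field_simp
      rw [e2, le_div_iff₀ (by positivity)]
      calc v / 16 * ((n:ℝ) + 1) ^ 2 ≤ v / 16 * (8 * m) := by gcongr
        _ = (v / 2) * m := by ring
        _ ≤ (m * δ ^ 2) * m := by gcongr
        _ = (m:ℝ) ^ 2 * δ ^ 2 := by ring
    have hsv : 0 < Real.sqrt v := Real.sqrt_pos.2 hv
    have e3 : (m:ℝ) * (δ ^ 2 / 2) * (δ * s0 / 4) = (m * δ * s0) * (δ ^ 2 / 8) := by ring
    rw [e3] at hav
    have e4 : Real.sqrt v / 4 * (δ ^ 2 / 8) ≤ Real.sqrt v / 256 * (4 * δ ^ 2) := by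
      refine le_trans ?_ hav
      gcongr
    have : 0 < Real.sqrt v * δ ^ 2 := by positivity
    nlinarith
  obtain ⟨τ, hτ⟩ := hex
  refine ⟨n, p, q, fun j => b j + p j * τ.1 + q j * τ.2, ρ, hρ, hp, hq, ?_⟩
  have hint := lap_intOn (fun j => b j + p j * τ.1 + q j * τ.2) hρ hp hq hV h1
  have e5 : ∀ z, (cv p q (fun j => b j + p j * τ.1 + q j * τ.2) ρ p p z
      + cv p q (fun j => b j + p j * τ.1 + q j * τ.2) ρ q q z) / ρ = g (z - τ) := by
    intro z
    rw [cv_shift, cv_shift]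
  simp only [e5] at hint ⊢
  have e6 := ofReal_integral_eq_lintegral_ofReal hint (ae_of_all _ (fun z => hg0 (z - τ)))
  rw [← e6] at hτ
  exact ((ENNReal.ofReal_lt_ofReal_iff_of_nonneg (by positivity)).1 hτ).le

end Pool.Agent.Hhelper31.PC
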