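import Mathlib
import Pool.Agent.Hhelper31.PC.Near
import Pool.Agent.Hhelper31.PC.PotExists

set_option autoImplicit false

namespace Pool.Agent.Hhelper31.PC

open MeasureTheory Metric Set Filter Topology
open scoped ENNReal NNReal

/-- coordinates -/
noncomputable def toP : E →L[ℝ] ℝ × ℝ :=
  (EuclideanSpace.proj (𝕜 := ℝ) (0 : Fin 2)).prod
    (EuclideanSpace.proj (𝕜 := ℝ) (1 : Fin 2))

theorem toP_apply (x : E) : toP x = (x 0, x 1) := rfl

/-- a two by two matrix as an operator of the plane -/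
noncomputable def TT (M : Matrix (Fin 2) (Fin 2) ℝ) : E →L[ℝ] E :=
  Matrix.toEuclideanCLM (n := Fin 2) (𝕜 := ℝ) M

theorem TT_apply (M : Matrix (Fin 2) (Fin 2) ℝ) (x : E) (i : Fin 2) :
    TT M x i = M i 0 * x 0 + M i 1 * x 1 := by
  unfold TT
  have : (Matrix.toEuclideanCLM (n := Fin 2) (𝕜 := ℝ) M) x
    = (Matrix.toEuclideanCLM (n := Fin 2) (𝕜 := ℝ) M) (WithLp.toLp 2 (WithLp.ofLp x)) := rfl
  rw [this, Matrix.toEuclideanCLM_toLp]
  simp [Matrix.mulVec, dotProduct, Fin.sum_univ_two]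

theorem TT_det (M : Matrix (Fin 2) (Fin 2) ℝ) : (TT M).det = M.det := by
  unfold TT ContinuousLinearMap.det
  rw [Matrix.coe_toEuclideanCLM_eq_toEuclideanLin, Matrix.toEuclideanLin_eq_toLin_orthonormal,
    LinearMap.det_toLin]

theorem norm_sq_E (x : E) : ‖x‖ ^ 2 = x 0 ^ 2 + x 1 ^ 2 := by
  rw [EuclideanSpace.norm_sq_eq, Fin.sum_univ_two, Real.norm_eq_abs, Real.norm_eq_abs, sq_abs,
    sq_abs]

theorem mp_toP : MeasurePreserving (fun x : E => ((x 0, x 1) : ℝ × ℝ)) volume volume := by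
  have h1 := EuclideanSpace.volume_preserving_symm_measurableEquiv_toLp (Fin 2)
  have h2 := volume_preserving_finTwoArrow ℝ
  exact h2.comp h1

/-- the measurable equivalence -/
noncomputable def meP : E ≃ᵐ ℝ × ℝ :=
  (MeasurableEquiv.toLp 2 (Fin 2 → ℝ)).symm.trans MeasurableEquiv.finTwoArrow

theorem meP_apply (x : E) : meP x = (x 0, x 1) := rfl

section
variable {J : Type} [Fintype J] [Nonempty J] (p q b : J → ℝ) (ρ t : ℝ)

theorem cv_comm (c d : J → ℝ) (z : ℝ × ℝ) : cv p q b ρ c d z = cv p q b ρ d c z := by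
  unfold cv
  rw [mul_comm (mn p q b ρ c z)]
  congr 1
  apply Finset.sum_congr rfl
  intro j _
  ring

/-- the contraction step -/
noncomputable def hh (x : E) : E :=
  WithLp.toLp 2 ![x 0 - t * mn p q b ρ p (x 0, x 1), x 1 - t * mn p q b ρ q (x 0, x 1)]

/-- its derivative -/
noncomputable def MM (x : E) : Matrix (Fin 2) (Fin 2) ℝ :=
  !![1 - t / ρ * cv p q b ρ p p (x 0, x 1), - (t / ρ * cv p q b ρ p q (x 0, x 1));
     - (t / ρ * cv p q b ρ p q (x 0, x 1)), 1 - t / ρ * cv p q b ρ q q (x 0, x 1)]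

theorem hh_zero (x : E) : hh p q b ρ t x 0 = x 0 - t * mn p q b ρ p (x 0, x 1) := rfl
theorem hh_one (x : E) : hh p q b ρ t x 1 = x 1 - t * mn p q b ρ q (x 0, x 1) := rfl

theorem mnP_hasFDerivAt (c : J → ℝ) (x : E) :
    HasFDerivAt (fun x : E => mn p q b ρ c (x 0, x 1))
      ((cl (cv p q b ρ c p (x 0, x 1) / ρ) (cv p q b ρ c q (x 0, x 1) / ρ)).comp toP) x :=
  HasFDerivAt.comp (g := mn p q b ρ c) (f := toP) x (mn_hasFDerivAt p q b ρ c (x 0, x 1))
    toP.hasFDerivAt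

theorem hh_hasFDerivAt (x : E) :
    HasFDerivAt (hh p q b ρ t) (TT (MM p q b ρ t x)) x := by
  rw [← hasFDerivWithinAt_univ, hasFDerivWithinAt_euclidean]
  intro i
  rw [hasFDerivWithinAt_univ]
  fin_cases i
  · have h1 : HasFDerivAt (fun x : E => x 0 - t * mn p q b ρ p (x 0, x 1)) _ x :=
      ((EuclideanSpace.proj (𝕜 := ℝ) (0 : Fin 2)).hasFDerivAt (x := x)).sub
        ((mnP_hasFDerivAt p q b ρ p x).const_mul t)
    refine HasFDerivAt.congr_fderiv (f := fun x : E => hh p q b ρ t x 0) h1 ?_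
    apply ContinuousLinearMap.ext; intro v
    show v 0 - t * (cl (cv p q b ρ p p (x 0, x 1) / ρ) (cv p q b ρ p q (x 0, x 1) / ρ) (toP v))
      = TT (MM p q b ρ t x) v 0
    rw [TT_apply, cl_apply, toP_apply]
    simp only [MM, Matrix.of_apply, Matrix.cons_val', Matrix.cons_val_zero, Matrix.cons_val_one]
    ring
  · have h1 : HasFDerivAt (fun x : E => x 1 - t * mn p q b ρ q (x 0, x 1)) _ x :=
      ((EuclideanSpace.proj (𝕜 := ℝ) (1 : Fin 2)).hasFDerivAt (x := x)).sub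
        ((mnP_hasFDerivAt p q b ρ q x).const_mul t)
    refine HasFDerivAt.congr_fderiv (f := fun x : E => hh p q b ρ t x 1) h1 ?_
    apply ContinuousLinearMap.ext; intro v
    show v 1 - t * (cl (cv p q b ρ q p (x 0, x 1) / ρ) (cv p q b ρ q q (x 0, x 1) / ρ) (toP v))
      = TT (MM p q b ρ t x) v 1
    rw [TT_apply, cl_apply, toP_apply, cv_comm p q b ρ q p]
    simp only [MM, Matrix.of_apply, Matrix.cons_val', Matrix.cons_val_zero, Matrix.cons_val_one]
    ring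

variable {p q}

theorem tr_bound (hp : ∀ j, 0 ≤ p j ∧ p j ≤ 1) (hq : ∀ j, 0 ≤ q j ∧ q j ≤ 1) (z : ℝ × ℝ) :
    0 ≤ cv p q b ρ p p z ∧ cv p q b ρ p p z ≤ 1 ∧ 0 ≤ cv p q b ρ q q z ∧ cv p q b ρ q q z ≤ 1 ∧
    cv p q b ρ p q z ^ 2 ≤ cv p q b ρ p p z * cv p q b ρ q q z :=
  ⟨cv_self_nonneg _ _ _ _ _ _, cv_self_le _ _ _ _ hp z, cv_self_nonneg _ _ _ _ _ _,
    cv_self_le _ _ _ _ hq z, cv_det_nonneg _ _ _ _ _ _ _⟩

theorem TT_norm_le {A B D s : ℝ} (hA : 0 ≤ A) (hA1 : A ≤ 1) (hD : 0 ≤ D) (hD1 : D ≤ 1)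
    (hB : B ^ 2 ≤ A * D) (hs : 0 ≤ s) (hs1 : s ≤ 1 / 4) (v : E) :
    ‖TT !![1 - s * A, - (s * B); - (s * B), 1 - s * D] v‖ ≤ ‖v‖ := by
  have h1 : ‖TT !![1 - s * A, - (s * B); - (s * B), 1 - s * D] v‖ ^ 2 ≤ ‖v‖ ^ 2 := by
    rw [norm_sq_E, norm_sq_E, TT_apply, TT_apply]
    simp only [Matrix.of_apply, Matrix.cons_val', Matrix.cons_val_zero, Matrix.cons_val_one]
    set x := v 0
    set y := v 1
    -- Q = A x^2 + 2 B x y + D y^2, |Cv|^2 = (A + D) Q - (A D - B^2) |v|^2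
    have hQ : 0 ≤ A * x ^ 2 + 2 * B * (x * y) + D * y ^ 2 := by
      rcases eq_or_lt_of_le hA with h | h
      · have hB0 : B = 0 := by
          have : B ^ 2 ≤ 0 := by rw [← h, zero_mul] at hB; exact hB
          exact pow_eq_zero_iff (two_ne_zero) |>.1 (le_antisymm this (sq_nonneg _))
        rw [← h, hB0]
        nlinarith [mul_nonneg hD (sq_nonneg y)]
      · have e : A * (A * x ^ 2 + 2 * B * (x * y) + D * y ^ 2)
            = (A * x + B * y) ^ 2 + (A * D - B ^ 2) * y ^ 2 := by ring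
        have e2 : 0 ≤ A * (A * x ^ 2 + 2 * B * (x * y) + D * y ^ 2) := by
          rw [e]
          have := mul_nonneg (sub_nonneg.2 hB) (sq_nonneg y)
          positivity
        exact (mul_nonneg_iff_of_pos_left h).1 e2
    have e3 : ((1 - s * A) * x + -(s * B) * y) ^ 2 + (-(s * B) * x + (1 - s * D) * y) ^ 2
        = x ^ 2 + y ^ 2 - s * (2 - s * (A + D)) * (A * x ^ 2 + 2 * B * (x * y) + D * y ^ 2)
          - s ^ 2 * (A * D - B ^ 2) * (x ^ 2 + y ^ 2) := by ring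
    rw [e3]
    have e4 : 0 ≤ s * (2 - s * (A + D)) := by
      apply mul_nonneg hs
      nlinarith
    have e5 := mul_nonneg e4 hQ
    have e6 : 0 ≤ s ^ 2 * (A * D - B ^ 2) * (x ^ 2 + y ^ 2) := by
      have := sub_nonneg.2 hB
      positivity
    linarith
  exact (pow_le_pow_iff_left₀ (norm_nonneg _) (norm_nonneg _) two_ne_zero).1 h1

theorem TT_sub_norm_le {A B D s : ℝ} (hA : 0 ≤ A) (hA1 : A ≤ 1) (hD : 0 ≤ D) (hD1 : D ≤ 1)
    (hB : B ^ 2 ≤ A * D) (hs : 0 ≤ s) (hs1 : s ≤ 1 / 4) (v : E) :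
    ‖TT !![1 - s * A, - (s * B); - (s * B), 1 - s * D] v - v‖ ≤ (1 / 2) * ‖v‖ := by
  have h1 : ‖TT !![1 - s * A, - (s * B); - (s * B), 1 - s * D] v - v‖ ^ 2 ≤ ((1 / 2) * ‖v‖) ^ 2 := by
    rw [mul_pow, norm_sq_E, norm_sq_E, PiLp.sub_apply, PiLp.sub_apply, TT_apply, TT_apply]
    simp only [Matrix.of_apply, Matrix.cons_val', Matrix.cons_val_zero, Matrix.cons_val_one]
    set x := v 0
    set y := v 1
    have hA2 : A ^ 2 ≤ 1 := by nlinarith
    have hD2 : D ^ 2 ≤ 1 := by nlinarith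
    have hB2 : B ^ 2 ≤ 1 := by nlinarith
    have hs2 : s ^ 2 ≤ 1 / 16 := by nlinarith
    have e1 : ((1 - s * A) * x + -(s * B) * y - x) ^ 2 + (-(s * B) * x + (1 - s * D) * y - y) ^ 2
        = s ^ 2 * ((A * x + B * y) ^ 2 + (B * x + D * y) ^ 2) := by ring
    rw [e1]
    have e2 : (A * x + B * y) ^ 2 ≤ 2 * (x ^ 2 + y ^ 2) := by
      nlinarith [sq_nonneg (A * x - B * y), mul_nonneg (sub_nonneg.2 hA2) (sq_nonneg x),
        mul_nonneg (sub_nonneg.2 hB2) (sq_nonneg y)]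
    have e3 : (B * x + D * y) ^ 2 ≤ 2 * (x ^ 2 + y ^ 2) := by
      nlinarith [sq_nonneg (B * x - D * y), mul_nonneg (sub_nonneg.2 hD2) (sq_nonneg y),
        mul_nonneg (sub_nonneg.2 hB2) (sq_nonneg x)]
    have e4 : (A * x + B * y) ^ 2 + (B * x + D * y) ^ 2 ≤ 4 * (x ^ 2 + y ^ 2) := by linarith
    have e5 : 0 ≤ x ^ 2 + y ^ 2 := by positivity
    calc s ^ 2 * ((A * x + B * y) ^ 2 + (B * x + D * y) ^ 2) ≤ (1 / 16) * (4 * (x ^ 2 + y ^ 2)) := by
          apply mul_le_mul hs2 e4 (by positivity) (by norm_num)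
      _ = (1 / 2) ^ 2 * (x ^ 2 + y ^ 2) := by ring
  exact (pow_le_pow_iff_left₀ (norm_nonneg _) (by positivity) two_ne_zero).1 h1

theorem hh_lip (hρ : 0 < ρ) (hp : ∀ j, 0 ≤ p j ∧ p j ≤ 1) (hq : ∀ j, 0 ≤ q j ∧ q j ≤ 1)
    (ht : 0 ≤ t) (ht1 : t / ρ ≤ 1 / 4) : LipschitzWith 1 (hh p q b ρ t) := by
  rw [← lipschitzOnWith_univ]
  apply Convex.lipschitzOnWith_of_nnnorm_hasFDerivWithin_le (𝕜 := ℝ)
    (f' := fun x => TT (MM p q b ρ t x)) (hs := convex_univ)
  · intro x _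
    exact (hh_hasFDerivAt p q b ρ t x).hasFDerivWithinAt
  · intro x _
    obtain ⟨h1, h2, h3, h4, h5⟩ := tr_bound b ρ hp hq (x 0, x 1)
    rw [← NNReal.coe_le_coe, coe_nnnorm, NNReal.coe_one]
    apply ContinuousLinearMap.opNorm_le_bound _ (by norm_num)
    intro v
    rw [one_mul]
    exact TT_norm_le h1 h2 h3 h4 h5 (div_nonneg ht hρ.le) ht1 v

theorem hh_homeo (hρ : 0 < ρ) (hp : ∀ j, 0 ≤ p j ∧ p j ≤ 1) (hq : ∀ j, 0 ≤ q j ∧ q j ≤ 1)
    (ht : 0 ≤ t) (ht1 : t / ρ ≤ 1 / 4) : ∃ e : E ≃ₜ E, ∀ x, e x = hh p q b ρ t x := by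
  have happ : ApproximatesLinearOn (hh p q b ρ t)
      ((ContinuousLinearEquiv.refl ℝ E : E ≃L[ℝ] E) : E →L[ℝ] E) univ (1 / 2) := by
    have h1 : LipschitzOnWith (1 / 2) (fun x => hh p q b ρ t x - x) univ := by
      apply Convex.lipschitzOnWith_of_nnnorm_hasFDerivWithin_le (𝕜 := ℝ)
        (f' := fun x => TT (MM p q b ρ t x) - ContinuousLinearMap.id ℝ E) (hs := convex_univ)
      · intro x _
        exact ((hh_hasFDerivAt p q b ρ t x).sub (hasFDerivAt_id x)).hasFDerivWithinAt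
      · intro x _
        obtain ⟨h1, h2, h3, h4, h5⟩ := tr_bound b ρ hp hq (x 0, x 1)
        rw [← NNReal.coe_le_coe, coe_nnnorm]
        apply ContinuousLinearMap.opNorm_le_bound _ (by positivity)
        intro v
        have := TT_sub_norm_le h1 h2 h3 h4 h5 (div_nonneg ht hρ.le) ht1 v
        rw [_root_.sub_apply]
        exact this
    rw [ApproximatesLinearOn.approximatesLinearOn_iff_lipschitzOnWith]
    exact h1
  refine ⟨ApproximatesLinearOn.toHomeomorph (hh p q b ρ t) happ (Or.inr ?_), ?_⟩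
  · rw [← NNReal.coe_lt_coe]
    have h2 : ‖((ContinuousLinearEquiv.refl ℝ E : E ≃L[ℝ] E).symm : E →L[ℝ] E)‖ = 1 := by
      exact ContinuousLinearMap.norm_id
    rw [NNReal.coe_inv, coe_nnnorm, h2]
    norm_num
  · intro x
    rfl

theorem hh_reg (hρ : 0 < ρ) (hp : ∀ j, 0 ≤ p j ∧ p j ≤ 1) (hq : ∀ j, 0 ≤ q j ∧ q j ≤ 1)
    (ht : 0 ≤ t) (ht1 : t / ρ ≤ 1 / 4) : Reg (hh p q b ρ t) (2 * t) := by
  obtain ⟨e, he⟩ := hh_homeo b ρ t hρ hp hq ht ht1
  refine ⟨(hh_lip b ρ t hρ hp hq ht ht1).continuous, ?_, ?_⟩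
  · intro x
    have h1 : ‖hh p q b ρ t x - x‖ ^ 2 ≤ (2 * t) ^ 2 := by
      rw [norm_sq_E, PiLp.sub_apply, PiLp.sub_apply, hh_zero, hh_one]
      obtain ⟨a1, a2⟩ := mn_mem p q b ρ hp (x 0, x 1)
      obtain ⟨a3, a4⟩ := mn_mem p q b ρ hq (x 0, x 1)
      have e1 : (x 0 - t * mn p q b ρ p (x 0, x 1) - x 0) ^ 2
          + (x 1 - t * mn p q b ρ q (x 0, x 1) - x 1) ^ 2
          = t ^ 2 * (mn p q b ρ p (x 0, x 1) ^ 2 + mn p q b ρ q (x 0, x 1) ^ 2) := by ring
      rw [e1, mul_pow, mul_comm]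
      apply mul_le_mul_of_nonneg_right _ (sq_nonneg t)
      nlinarith
    exact (pow_le_pow_iff_left₀ (norm_nonneg _) (by positivity) two_ne_zero).1 h1
  · intro K _
    have e1 : hh p q b ρ t = e := by
      ext1 x
      exact (he x).symm
    rw [e1, Homeomorph.image_frontier]

theorem hh_area (hρ : 0 < ρ) (hp : ∀ j, 0 ≤ p j ∧ p j ≤ 1) (hq : ∀ j, 0 ≤ q j ∧ q j ≤ 1)
    (ht : 0 ≤ t) (ht1 : t / ρ ≤ 1 / 4) {V : Set E} (hV : MeasurableSet V) (h1 : volume V ≠ ⊤) :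
    volume.real (hh p q b ρ t '' V) ≤ volume.real V * (1 + (t / ρ) ^ 2)
      - t * ∫ z in (meP.symm ⁻¹' V), (cv p q b ρ p p z + cv p q b ρ q q z) / ρ := by
  have hVm : volume (meP.symm ⁻¹' V) ≠ ⊤ := by
    have h2 : MeasurePreserving (meP : E → ℝ × ℝ) volume volume := mp_toP
    have h3 := (h2.symm meP).measure_preimage hV.nullMeasurableSet
    rw [h3]
    exact h1
  have hVm' : MeasurableSet (meP.symm ⁻¹' V) := meP.symm.measurable hV
  have hint := lap_intOn b hρ hp hq hVm' hVm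
  set g : ℝ × ℝ → ℝ := fun z => (cv p q b ρ p p z + cv p q b ρ q q z) / ρ with hg
  have hpre : (fun x : E => ((x 0, x 1) : ℝ × ℝ)) ⁻¹' (meP.symm ⁻¹' V) = V := by
    have : (fun x : E => ((x 0, x 1) : ℝ × ℝ)) = meP := rfl
    rw [this, ← Set.preimage_comp]
    have : (meP.symm : ℝ × ℝ → E) ∘ meP = id := by
      ext1 x; exact meP.symm_apply_apply x
    rw [this, Set.preimage_id]
  have hemb : MeasurableEmbedding (fun x : E => ((x 0, x 1) : ℝ × ℝ)) := meP.measurableEmbedding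
  have htr : ∫ z in (meP.symm ⁻¹' V), g z = ∫ x in V, g (x 0, x 1) := by
    have := mp_toP.setIntegral_preimage_emb hemb g (meP.symm ⁻¹' V)
    rw [hpre] at this
    exact this.symm
  have hintV : IntegrableOn (fun x : E => g (x 0, x 1)) V := by
    have := (mp_toP.integrableOn_comp_preimage hemb (f := g) (s := meP.symm ⁻¹' V)).2 hint
    rw [hpre] at this
    exact this
  rw [htr]
  set F : E → ℝ := fun x => (1 + (t / ρ) ^ 2) - t * g (x 0, x 1) with hF
  have hFint : IntegrableOn F V := by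
    apply Integrable.sub
    · exact integrableOn_const h1
    · exact hintV.const_mul t
  have hdet : ∀ x, |(TT (MM p q b ρ t x)).det| ≤ F x := by
    intro x
    obtain ⟨h1, h2, h3, h4, h5⟩ := tr_bound b ρ hp hq (x 0, x 1)
    rw [TT_det, MM, Matrix.det_fin_two_of, hF, hg]
    simp only
    set A := cv p q b ρ p p (x 0, x 1)
    set D := cv p q b ρ q q (x 0, x 1)
    set B := cv p q b ρ p q (x 0, x 1)
    set s := t / ρ with hs
    have hs0 : 0 ≤ s := div_nonneg ht hρ.le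
    have e1 : t * ((A + D) / ρ) = s * (A + D) := by rw [hs]; ring
    rw [e1, abs_le]
    have hAD : A * D ≤ 1 := by nlinarith
    have hAD0 : 0 ≤ A * D := mul_nonneg h1 h3
    have hs2 : 0 ≤ s ^ 2 := sq_nonneg s
    have hs3 : s * A ≤ 1 / 4 := by nlinarith
    have hs4 : s * D ≤ 1 / 4 := by nlinarith
    have hs5 : s ^ 2 * (A * D) ≤ s ^ 2 := by nlinarith
    have hs6 : s ^ 2 * B ^ 2 ≤ s ^ 2 * (A * D) := by nlinarith
    have hs7 : 0 ≤ s ^ 2 * B ^ 2 := by positivity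
    have e2 : (1 - s * A) * (1 - s * D) - -(s * B) * -(s * B)
        = 1 - s * (A + D) + s ^ 2 * (A * D) - s ^ 2 * B ^ 2 := by ring
    rw [e2]
    constructor
    · nlinarith
    · nlinarith
  have hF0 : ∀ x, 0 ≤ F x := fun x => (abs_nonneg _).trans (hdet x)
  have harea : volume (hh p q b ρ t '' V) ≤ ENNReal.ofReal (∫ x in V, F x) := by
    calc volume (hh p q b ρ t '' V)
        ≤ ∫⁻ x in V, ENNReal.ofReal |(TT (MM p q b ρ t x)).det| :=
          addHaar_image_le_lintegral_abs_det_fderiv volume hV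
            (fun x _ => (hh_hasFDerivAt p q b ρ t x).hasFDerivWithinAt)
      _ ≤ ∫⁻ x in V, ENNReal.ofReal (F x) :=
          lintegral_mono (fun x => ENNReal.ofReal_le_ofReal (hdet x))
      _ = ENNReal.ofReal (∫ x in V, F x) :=
          (ofReal_integral_eq_lintegral_ofReal hFint (ae_of_all _ hF0)).symm
  have e3 : ∫ x in V, F x = volume.real V * (1 + (t / ρ) ^ 2) - t * ∫ x in V, g (x 0, x 1) := by
    rw [hF, integral_sub, integral_const_mul, setIntegral_const, smul_eq_mul]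
    · exact integrableOn_const h1
    · exact hintV.const_mul t
  rw [← e3, Measure.real]
  apply ENNReal.toReal_le_of_le_ofReal _ harea
  exact integral_nonneg hF0

end

/-- One step of the collapse. -/
theorem step {V : Set E} (hV : MeasurableSet V) (h0 : volume V ≠ 0) (h1 : volume V ≠ ⊤) :
    ∃ (h : E → E) (β : ℝ), 0 < β ∧ LipschitzWith 1 h ∧ Reg h β ∧
      β / 4096 ≤ Real.sqrt (volume.real V) - Real.sqrt (volume.real (h '' V)) := by
  have h2 : MeasurePreserving (meP : E → ℝ × ℝ) volume volume := mp_toP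
  have h3 := (h2.symm meP).measure_preimage hV.nullMeasurableSet
  have hVm' : MeasurableSet (meP.symm ⁻¹' V) := meP.symm.measurable hV
  obtain ⟨n, p, q, b, ρ, hρ, hp, hq, hint⟩ := pot_exists hVm' (by rw [h3]; exact h0)
    (by rw [h3]; exact h1)
  have hv' : volume.real (meP.symm ⁻¹' V) = volume.real V := by
    rw [Measure.real, Measure.real, h3]
  rw [hv'] at hint
  have hv : 0 < volume.real V := by
    rw [Measure.real]; exact ENNReal.toReal_pos h0 h1
  set v := volume.real V with hvdef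
  set w := Real.sqrt v with hw
  have hwpos : 0 < w := Real.sqrt_pos.2 hv
  have hw2 : w ^ 2 = v := Real.sq_sqrt hv.le
  -- choose t
  set t : ℝ := min (ρ / 4) (ρ ^ 2 / (512 * w)) with htdef
  have ht : 0 < t := by
    rw [htdef]; positivity
  have ht1 : t / ρ ≤ 1 / 4 := by
    rw [div_le_iff₀ hρ]
    have := min_le_left (ρ / 4) (ρ ^ 2 / (512 * w))
    rw [← htdef] at this
    linarith
  have ht2 : t * (512 * w) ≤ ρ ^ 2 := by
    rw [← le_div_iff₀ (by positivity)]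
    exact min_le_right _ _
  refine ⟨hh p q b ρ t, 2 * t, by positivity, hh_lip b ρ t hρ hp hq ht.le ht1,
    hh_reg b ρ t hρ hp hq ht.le ht1, ?_⟩
  have harea := hh_area b ρ t hρ hp hq ht.le ht1 hV h1
  rw [← hvdef] at harea
  set u := volume.real (hh p q b ρ t '' V) with hu
  have hu0 : 0 ≤ u := measureReal_nonneg
  -- u ≤ v (1 + (t/ρ)^2) - t w / 256
  have e1 : u ≤ v * (1 + (t / ρ) ^ 2) - t * (w / 256) := by
    refine harea.trans ?_
    have := mul_le_mul_of_nonneg_left hint ht.le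
    linarith
  have e2 : v * (t / ρ) ^ 2 ≤ t * (w / 512) := by
    rw [div_pow, ← hw2]
    have e3 : w ^ 2 * (t ^ 2 / ρ ^ 2) = (t * (w / 512)) * ((t * (512 * w)) / ρ ^ 2) := by
      field_simp
    rw [e3]
    apply mul_le_of_le_one_right (by positivity)
    rw [div_le_one (by positivity)]
    exact ht2
  have e4 : u ≤ v - t * (w / 512) := by nlinarith
  -- square roots
  have e5 : Real.sqrt u ≤ w - t / 2048 := by
    have htw : t ≤ w * 512 := by
      -- since u ≥ 0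
      have : t * (w / 512) ≤ w ^ 2 := by rw [hw2]; linarith
      have : w * (t / 512) ≤ w * w := by nlinarith
      have := le_of_mul_le_mul_left this hwpos
      linarith
    apply Real.sqrt_le_iff.2
    refine ⟨by linarith, ?_⟩
    have : (w - t / 2048) ^ 2 = w ^ 2 - t * w / 1024 + (t / 2048) ^ 2 := by ring
    rw [this, hw2]
    nlinarith [sq_nonneg (t / 2048), mul_pos ht hwpos]
  linarith

end Pool.Agent.Hhelper31.PC
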