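import Mathlib
import Pool.Agent.Hhelper31.PC.Step
import Pool.Agent.Hhelper31.PC.Order

set_option autoImplicit false

namespace Pool.Agent.Hhelper31.PC

open MeasureTheory Metric Set Filter Topology
open scoped ENNReal NNReal

theorem sigma_meas {s : Set E} (hs : IsSigmaCompact s) : MeasurableSet s := by
  obtain ⟨K, hK, rfl⟩ := hs
  exact MeasurableSet.iUnion (fun n => (hK n).measurableSet)

theorem open_sigma {U : Set E} (hU : IsOpen U) : IsSigmaCompact U := by
  rw [isSigmaCompact_iff_sigmaCompactSpace]
  have : LocallyCompactSpace U := hU.locallyCompactSpace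
  infer_instance

/-- finite compositions `h (n + k - 1) ∘ ⋯ ∘ h n` -/
def itr (h : ℕ → E → E) (n : ℕ) : ℕ → E → E
  | 0 => id
  | k + 1 => h (n + k) ∘ itr h n k

theorem itr_add (h : ℕ → E → E) (n k : ℕ) : itr h 0 (n + k) = itr h n k ∘ itr h 0 n := by
  induction k with
  | zero => rfl
  | succ k ih =>
    show h (0 + (n + k)) ∘ itr h 0 (n + k) = (h (n + k) ∘ itr h n k) ∘ itr h 0 n
    rw [ih, zero_add]
    rfl

theorem itr_lip {h : ℕ → E → E} (hl : ∀ n, LipschitzWith 1 (h n)) (n k : ℕ) :
    LipschitzWith 1 (itr h n k) := by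
  induction k with
  | zero => exact LipschitzWith.id
  | succ k ih =>
    have := (hl (n + k)).comp ih
    rw [mul_one] at this
    exact this

theorem itr_reg {h : ℕ → E → E} {b : ℕ → ℝ} (hr : ∀ n, Reg (h n) (b n)) (n k : ℕ) :
    Reg (itr h n k) (∑ i ∈ Finset.range k, b (n + i)) := by
  induction k with
  | zero => exact Reg.id
  | succ k ih =>
    rw [Finset.sum_range_succ]
    exact (hr (n + k)).comp ih

theorem itr_limit {h : ℕ → E → E} {b : ℕ → ℝ} (hl : ∀ n, LipschitzWith 1 (h n))
    (hr : ∀ n, Reg (h n) (b n)) (hb : Summable b) (n : ℕ) :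
    ∃ L : E → E, LipschitzWith 1 L ∧ Reg L (∑' k, b (k + n)) ∧
      ∀ x, Tendsto (fun k => itr h n k x) atTop (𝓝 (L x)) := by
  have hb' : Summable (fun k => b (n + k)) := by
    have := (summable_nat_add_iff n).2 hb
    simpa [add_comm] using this
  have hb0 : ∀ k, 0 ≤ b k := fun k => (hr k).nonneg
  have hd : ∀ x k, dist (itr h n k x) (itr h n (k + 1) x) ≤ b (n + k) := by
    intro x k
    rw [dist_comm, dist_eq_norm]
    exact (hr (n + k)).disp _
  have hc : ∀ x, CauchySeq (fun k => itr h n k x) := fun x =>
    cauchySeq_of_dist_le_of_summable _ (hd x) hb'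
  choose L hL using fun x => cauchySeq_tendsto_of_complete (hc x)
  have hdist : ∀ x k, dist (itr h n k x) (L x) ≤ ∑' m, b (n + (k + m)) := fun x k =>
    dist_le_tsum_of_dist_le_of_tendsto _ (hd x) hb' (hL x) k
  have htail : Tendsto (fun k => ∑' m, b (n + (k + m))) atTop (𝓝 0) := by
    have := tendsto_sum_nat_add (fun k => b (n + k))
    simpa [add_comm] using this
  have hu : TendstoUniformly (itr h n) L atTop := by
    rw [Metric.tendstoUniformly_iff]
    intro ε hε
    filter_upwards [(tendsto_order.1 htail).2 ε hε] with k hk x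
    rw [dist_comm]
    exact (hdist x k).trans_lt hk
  refine ⟨L, ?_, ?_, hL⟩
  · apply LipschitzWith.of_dist_le_mul
    intro x y
    apply le_of_tendsto ((hL x).dist (hL y))
    apply Eventually.of_forall
    intro k
    exact (itr_lip hl n k).dist_le_mul x y
  · apply Reg.lim _ hu
    intro k
    apply (itr_reg hr n k).mono
    have e : ∑' k, b (k + n) = ∑' k, b (n + k) := by
      congr 1; ext k; rw [add_comm]
    rw [e]
    exact hb'.sum_le_tsum _ (fun i _ => hb0 _)

theorem real_image_le {f : E → E} (hf : LipschitzWith 1 f) {s : Set E} (hs : volume s ≠ ⊤) :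
    volume.real (f '' s) ≤ volume.real s := by
  rw [Measure.real, Measure.real]
  exact ENNReal.toReal_mono hs (volume_image_le_one hf s)

theorem collapse {U : Set E} (hU : IsSigmaCompact U) (hfin : volume U ≠ ⊤) :
    ∃ F : E → E, LipschitzWith 1 F ∧ Reg F (4096 * Real.sqrt (volume.real U)) ∧
      volume (F '' U) = 0 := by
  let X := {f : E → E // LipschitzWith 1 f}
  let A : X → ℝ := fun f => Real.sqrt (volume.real (f.1 '' U))
  let R : X → X → ℝ → Prop := fun f g b => ∃ h : E → E, g.1 = h ∘ f.1 ∧ LipschitzWith 1 h ∧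
    Reg h b ∧ b / 4096 ≤ A f - A g
  have hfin' : ∀ f : X, volume (f.1 '' U) ≠ ⊤ := fun f =>
    ((volume_image_le_one f.2 U).trans_lt (lt_top_iff_ne_top.2 hfin)).ne
  have hA0 : ∀ f, 0 ≤ A f := fun f => Real.sqrt_nonneg _
  have hA1 : ∀ f, A f ≤ Real.sqrt (volume.real U) := fun f =>
    Real.sqrt_le_sqrt (real_image_le f.2 hfin)
  obtain ⟨f, b, hR, hterm⟩ := exists_terminal R (4096 * Real.sqrt (volume.real U))
    (by
      rintro f g b ⟨h, _, _, h3, h4⟩
      refine ⟨h3.nonneg, ?_⟩
      have := hA0 g
      have := hA1 f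
      linarith)
    (by
      intro f
      exact ⟨id, rfl, LipschitzWith.id, Reg.id, by simp⟩)
    (by
      rintro f g k b c ⟨h1, a1, a2, a3, a4⟩ ⟨h2, b1, b2, b3, b4⟩
      refine ⟨h2 ∘ h1, by rw [b1, a1]; rfl, by simpa using b2.comp a2, b3.comp a3, ?_⟩
      linarith)
    (by
      intro x b hx hb
      choose h h1 h2 h3 h4 using hx
      choose L hL1 hL2 hL3 using itr_limit h2 h3 hb
      have hxn : ∀ n k, (x (n + k)).1 = itr h n k ∘ (x n).1 := by
        intro n k
        induction k with
        | zero => rfl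
        | succ k ih =>
          rw [← add_assoc, h1 (n + k), ih]
          rfl
      have hy : ∀ n z, L 0 ((x 0).1 z) = L n ((x n).1 z) := by
        intro n z
        have t1 := hL3 n ((x n).1 z)
        have t2 := hL3 0 ((x 0).1 z)
        have t3 : Tendsto (fun k => itr h 0 (n + k) ((x 0).1 z)) atTop (𝓝 (L 0 ((x 0).1 z))) := by
          have := t2.comp (tendsto_add_atTop_nat n)
          refine this.congr ?_
          intro k
          simp only [Function.comp_apply]
          rw [add_comm]
        have e : ∀ k, itr h 0 (n + k) ((x 0).1 z) = itr h n k ((x n).1 z) := by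
          intro k
          have e1 := congrFun (hxn 0 (n + k)) z
          have e2 := congrFun (hxn n k) z
          rw [zero_add] at e1
          simp only [Function.comp_apply] at e1 e2
          rw [← e1, ← e2]
        simp only [e] at t3
        exact tendsto_nhds_unique t3 t1
      let y : X := ⟨L 0 ∘ (x 0).1, by simpa using (hL1 0).comp (x 0).2⟩
      have hyn : ∀ n, y.1 = L n ∘ (x n).1 := fun n => by
        ext1 z; exact hy n z
      refine ⟨y, fun n => ⟨L n, hyn n, hL1 n, hL2 n, ?_⟩⟩
      have hyA : ∀ m, A y ≤ A (x m) := by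
        intro m
        show Real.sqrt (volume.real (y.1 '' U)) ≤ Real.sqrt (volume.real ((x m).1 '' U))
        rw [hyn m, image_comp]
        exact Real.sqrt_le_sqrt (real_image_le (hL1 m) (hfin' _))
      have hpart : ∀ m, (∑ k ∈ Finset.range m, b (k + n)) / 4096 ≤ A (x n) - A (x (n + m)) := by
        intro m
        induction m with
        | zero => simp
        | succ m ih =>
          rw [Finset.sum_range_succ, add_div]
          have := h4 (n + m)
          rw [add_comm m n]
          rw [← add_assoc]
          linarith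
      have hsum : Summable (fun k => b (k + n)) := (summable_nat_add_iff n).2 hb
      have ht := (hsum.hasSum.tendsto_sum_nat).div_const 4096
      apply le_of_tendsto ht
      apply Eventually.of_forall
      intro m
      exact (hpart m).trans (by linarith [hyA (n + m)]))
    ⟨id, LipschitzWith.id⟩
  obtain ⟨h, a1, a2, a3, a4⟩ := hR
  have hf : f.1 = h := a1
  refine ⟨h, a2, a3.mono ?_, ?_⟩
  · have e1 := hA1 ⟨id, LipschitzWith.id⟩
    have e2 := hA0 f
    linarith
  · by_contra hne
    rw [← hf] at hne
    have hcomp : IsSigmaCompact (f.1 '' U) := hU.image f.2.continuous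
    obtain ⟨k, β, hβ, k1, k2, k3⟩ := step (sigma_meas hcomp) hne (hfin' f)
    have := hterm ⟨k ∘ f.1, by simpa using k1.comp f.2⟩ β ⟨k, rfl, k1, k2, by
      show β / 4096 ≤ Real.sqrt (volume.real (f.1 '' U)) -
        Real.sqrt (volume.real ((k ∘ f.1) '' U))
      rw [image_comp]
      exact k3⟩
    linarith

end Pool.Agent.Hhelper31.PC
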