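import Mathlib
import Pool.Agent.Hhelper31.PC.Clamp

set_option autoImplicit false

namespace Pool.Agent.Hhelper31.PC

open MeasureTheory Metric Set Filter Topology
open scoped ENNReal NNReal

/-- one dimensional Hausdorff measure on the plane -/
noncomputable abbrev H1 : Measure E := Measure.hausdorffMeasure 1

theorem H1_image_le {K : ℝ≥0} {f : E → E} (hf : LipschitzWith K f) (s : Set E) :
    H1 (f '' s) ≤ K * H1 s := by
  have := hf.hausdorffMeasure_image_le (d := 1) zero_le_one s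
  simpa using this

theorem H1_curve_le {K : ℝ≥0} {γ : ℝ → E} {s : Set ℝ} (hf : LipschitzOnWith K γ s) :
    H1 (γ '' s) ≤ K * volume s := by
  have := hf.hausdorffMeasure_image_le (d := 1) zero_le_one
  rw [hausdorffMeasure_real] at this
  simpa using this

/-- cone condition -/
def Cone (S : Set E) (e : E) (θ : ℝ) : Prop :=
  ∀ x ∈ S, ∀ y ∈ S, |(inner ℝ (y - x) (perp e) : ℝ)| ≤ θ * ‖y - x‖

section
variable (γ : ℝ → E) (θ : ℝ)

/-- parameters with almost constant velocity -/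
def Apar (v : E) (n : ℕ) : Set ℝ :=
  {t | ∀ s, |s - t| < 1 / ((n:ℝ) + 1) → ‖γ s - γ t - (s - t) • v‖ ≤ θ / 2 * ‖v‖ * |s - t|}

/-- the piece of parameters -/
def Apiece (v : E) (n : ℕ) (l : ℤ) : Set ℝ := Apar γ θ v n ∩ {t | ⌊t * ((n:ℝ) + 1)⌋ = l}

/-- unit vector in the direction of `v` -/
noncomputable def dirv (v : E) : E := if v = 0 then EuclideanSpace.single 0 1 else ‖v‖⁻¹ • v

theorem dirv_norm (v : E) : ‖dirv v‖ = 1 := by
  unfold dirv
  split_ifs with h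
  · simp
  · rw [norm_smul, norm_inv, norm_norm]
    exact inv_mul_cancel₀ (norm_ne_zero_iff.2 h)

theorem dirv_smul (v : E) : v = ‖v‖ • dirv v := by
  unfold dirv
  split_ifs with h
  · rw [h, norm_zero, zero_smul]
  · rw [smul_smul, mul_inv_cancel₀ (norm_ne_zero_iff.2 h), one_smul]

variable {γ θ}

theorem floor_close {n : ℕ} {l : ℤ} {s t : ℝ} (hs : ⌊s * ((n:ℝ) + 1)⌋ = l)
    (ht : ⌊t * ((n:ℝ) + 1)⌋ = l) : |s - t| < 1 / ((n:ℝ) + 1) := by
  have h1 := Int.abs_sub_lt_one_of_floor_eq_floor (hs.trans ht.symm)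
  have hn : (0:ℝ) < (n:ℝ) + 1 := by positivity
  rw [← sub_mul, abs_mul, abs_of_pos hn] at h1
  rwa [lt_div_iff₀ hn]

theorem cone_piece (hθ : 0 < θ) (hθ1 : θ ≤ 1) (v : E) (n : ℕ) (l : ℤ) :
    Cone (γ '' Apiece γ θ v n l) (dirv v) θ := by
  rintro _ ⟨t, ht, rfl⟩ _ ⟨s, hs, rfl⟩
  have h1 := ht.1 s (floor_close hs.2 ht.2)
  set err := γ s - γ t - (s - t) • v with herr
  have e1 : γ s - γ t = (s - t) • v + err := by rw [herr]; abel
  have e2 : inner ℝ (γ s - γ t) (perp (dirv v)) = inner ℝ err (perp (dirv v)) := by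
    rw [e1, inner_add_left, dirv_smul v, smul_smul, inner_smul_left]
    have : dirv (‖v‖ • dirv v) = dirv v := by rw [← dirv_smul]
    rw [this, inner_perp, mul_zero, zero_add]
  rw [e2]
  have h2 : |(inner ℝ err (perp (dirv v)) : ℝ)| ≤ ‖err‖ := by
    have := abs_real_inner_le_norm err (perp (dirv v))
    rwa [perp_norm, dirv_norm, mul_one] at this
  have h3 : ‖(s - t) • v‖ = |s - t| * ‖v‖ := by rw [norm_smul, Real.norm_eq_abs]
  have h4 : |s - t| * ‖v‖ ≤ ‖γ s - γ t‖ + ‖err‖ := by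
    rw [← h3]
    calc ‖(s - t) • v‖ = ‖(γ s - γ t) - err‖ := by rw [e1, add_sub_cancel_right]
      _ ≤ _ := norm_sub_le _ _
  have h5 : 0 ≤ |s - t| * ‖v‖ := by positivity
  nlinarith [norm_nonneg err]

theorem piece_cover {v0 : E} (hv0 : v0 ≠ 0) {t : ℝ} (h : HasDerivAt γ v0 t) (hθ : 0 < θ) (hθ1 : θ ≤ 1)
    {u : ℕ → E} (hu : DenseRange u) : ∃ k n l, t ∈ Apiece γ θ (u k) n l := by
  have hv : 0 < ‖v0‖ := norm_pos_iff.2 hv0
  obtain ⟨k, hk⟩ := hu.exists_dist_lt v0 (show 0 < θ * ‖v0‖ / 8 by positivity)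
  have hk' : ‖v0 - u k‖ < θ * ‖v0‖ / 8 := by rwa [dist_eq_norm] at hk
  have hk2 : ‖v0‖ / 2 ≤ ‖u k‖ := by
    have : ‖v0‖ ≤ ‖v0 - u k‖ + ‖u k‖ := by
      calc ‖v0‖ = ‖(v0 - u k) + u k‖ := by rw [sub_add_cancel]
        _ ≤ _ := norm_add_le _ _
    nlinarith
  rw [hasDerivAt_iff_isLittleO] at h
  have h1 := h.def (show 0 < θ * ‖v0‖ / 8 by positivity)
  obtain ⟨δ, hδ, h2⟩ := Metric.eventually_nhds_iff.1 h1
  obtain ⟨n, hn⟩ := exists_nat_one_div_lt hδ
  refine ⟨k, n, ⌊t * ((n:ℝ) + 1)⌋, ?_, rfl⟩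
  intro s hs
  have h3 := @h2 s (by rw [Real.dist_eq]; linarith)
  rw [Real.norm_eq_abs] at h3
  have e : γ s - γ t - (s - t) • u k = (γ s - γ t - (s - t) • v0) + (s - t) • (v0 - u k) := by
    rw [smul_sub]; abel
  rw [e]
  calc ‖(γ s - γ t - (s - t) • v0) + (s - t) • (v0 - u k)‖
      ≤ ‖γ s - γ t - (s - t) • v0‖ + ‖(s - t) • (v0 - u k)‖ := norm_add_le _ _
    _ ≤ θ * ‖v0‖ / 8 * |s - t| + |s - t| * (θ * ‖v0‖ / 8) := by
        rw [norm_smul, Real.norm_eq_abs]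
        gcongr
    _ ≤ θ / 2 * ‖u k‖ * |s - t| := by
        have : θ * ‖v0‖ / 4 ≤ θ / 2 * ‖u k‖ := by nlinarith
        nlinarith [abs_nonneg (s - t)]

/-- the image of the critical set is negligible -/
theorem crit_null : H1 (γ '' {t | t ∈ Icc (0:ℝ) 1 ∧ HasDerivAt γ 0 t}) = 0 := by
  have key : ∀ c : ℝ≥0, 0 < c → H1 (γ '' {t | t ∈ Icc (0:ℝ) 1 ∧ HasDerivAt γ 0 t}) ≤ c := by
    intro c hc
    -- uniform pieces
    let D : ℕ → Set ℝ := fun n => {t | t ∈ Icc (0:ℝ) 1 ∧ ∀ s, |s - t| < 1 / ((n:ℝ) + 1) →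
      ‖γ s - γ t‖ ≤ c * |s - t|}
    have hDmono : Monotone D := by
      intro n m hnm t ht
      refine ⟨ht.1, fun s hs => ht.2 s (hs.trans_le ?_)⟩
      have : (n:ℝ) ≤ m := by exact_mod_cast hnm
      apply one_div_le_one_div_of_le (by positivity)
      linarith
    have hcov : {t | t ∈ Icc (0:ℝ) 1 ∧ HasDerivAt γ 0 t} ⊆ ⋃ n, D n := by
      rintro t ⟨ht, h⟩
      rw [hasDerivAt_iff_isLittleO] at h
      have h1 := h.def (show (0:ℝ) < c by exact_mod_cast hc)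
      obtain ⟨δ, hδ, h2⟩ := Metric.eventually_nhds_iff.1 h1
      obtain ⟨n, hn⟩ := exists_nat_one_div_lt hδ
      refine mem_iUnion.2 ⟨n, ht, fun s hs => ?_⟩
      have h3 := @h2 s (by rw [Real.dist_eq]; linarith)
      rw [smul_zero, sub_zero, Real.norm_eq_abs] at h3
      exact h3
    have hD : ∀ n, H1 (γ '' D n) ≤ c := by
      intro n
      have hn : (0:ℝ) < (n:ℝ) + 1 := by positivity
      have e1 : D n ⊆ ⋃ l : ℤ, D n ∩ {t | ⌊t * ((n:ℝ) + 1)⌋ = l} := by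
        intro t ht
        exact mem_iUnion.2 ⟨_, ht, rfl⟩
      have hmeas : ∀ l : ℤ, MeasurableSet (Icc (0:ℝ) 1 ∩ {t : ℝ | ⌊t * ((n:ℝ) + 1)⌋ = l}) := by
        intro l
        apply measurableSet_Icc.inter
        exact (Int.measurable_floor.comp (measurable_id.mul_const _)) (measurableSet_singleton l)
      calc H1 (γ '' D n) ≤ H1 (⋃ l : ℤ, γ '' (D n ∩ {t | ⌊t * ((n:ℝ) + 1)⌋ = l})) := by
            apply measure_mono
            rw [← image_iUnion]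
            exact image_mono e1
        _ ≤ ∑' l : ℤ, H1 (γ '' (D n ∩ {t | ⌊t * ((n:ℝ) + 1)⌋ = l})) := measure_iUnion_le _
        _ ≤ ∑' l : ℤ, c * volume (Icc (0:ℝ) 1 ∩ {t : ℝ | ⌊t * ((n:ℝ) + 1)⌋ = l}) := by
            apply ENNReal.tsum_le_tsum
            intro l
            have hl : LipschitzOnWith c γ (D n ∩ {t | ⌊t * ((n:ℝ) + 1)⌋ = l}) := by
              apply LipschitzOnWith.of_dist_le_mul
              intro s hs t ht
              have := ht.1.2 s (floor_close hs.2 ht.2)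
              rw [dist_eq_norm, Real.dist_eq]
              exact this
            refine (H1_curve_le hl).trans ?_
            gcongr
            intro t ht
            exact ht.1
        _ = c * ∑' l : ℤ, volume (Icc (0:ℝ) 1 ∩ {t : ℝ | ⌊t * ((n:ℝ) + 1)⌋ = l}) :=
            ENNReal.tsum_mul_left
        _ = c * volume (⋃ l : ℤ, Icc (0:ℝ) 1 ∩ {t : ℝ | ⌊t * ((n:ℝ) + 1)⌋ = l}) := by
            rw [measure_iUnion _ hmeas]
            intro l l' hll
            rw [Function.onFun, Set.disjoint_left]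
            rintro t ⟨_, h1⟩ ⟨_, h2⟩
            exact hll (h1.symm.trans h2)
        _ ≤ c * volume (Icc (0:ℝ) 1) := by
            gcongr
            exact iUnion_subset (fun l => inter_subset_left)
        _ = c := by simp
    calc H1 (γ '' {t | t ∈ Icc (0:ℝ) 1 ∧ HasDerivAt γ 0 t}) ≤ H1 (⋃ n, γ '' D n) := by
          apply measure_mono
          rw [← image_iUnion]
          exact image_mono hcov
      _ = ⨆ n, H1 (γ '' D n) := Monotone.measure_iUnion (fun n m h => image_mono (hDmono h))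
      _ ≤ c := iSup_le hD
  by_contra hne
  have hpos : 0 < H1 (γ '' {t | t ∈ Icc (0:ℝ) 1 ∧ HasDerivAt γ 0 t}) := pos_iff_ne_zero.2 hne
  obtain ⟨c, hc, hc'⟩ := ENNReal.lt_iff_exists_nnreal_btwn.1 hpos
  have := key c (by exact_mod_cast hc)
  exact absurd this (not_le.2 hc')

end

/-- countably rectifiable sets -/
def Rct (B : Set E) : Prop := ∃ γ : ℕ → ℝ → E, (∀ i, ∃ K : ℝ≥0, LipschitzWith K (γ i)) ∧
  B ⊆ ⋃ i, γ i '' Icc 0 1

theorem Rct.image {B : Set E} (h : Rct B) {c : ℝ} {f : E → E} (hf : Lp c f) : Rct (f '' B) := by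
  obtain ⟨γ, h1, h2⟩ := h
  refine ⟨fun i => f ∘ γ i, fun i => ?_, ?_⟩
  · obtain ⟨K, hK⟩ := h1 i
    exact ⟨_, hf.lip.comp hK⟩
  · refine (image_mono h2).trans ?_
    rw [image_iUnion]
    apply iUnion_mono
    intro i
    rw [image_comp]

theorem Rct.mono {B B' : Set E} (h : Rct B) (hB : B' ⊆ B) : Rct B' := by
  obtain ⟨γ, h1, h2⟩ := h
  exact ⟨γ, h1, hB.trans h2⟩

/-- cone pieces cover almost everything -/
theorem Rct.cones {B : Set E} (h : Rct B) {θ : ℝ} (hθ : 0 < θ) (hθ1 : θ ≤ 1) :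
    ∃ (S : ℕ × ℕ × ℕ × ℤ → Set E) (e : ℕ × ℕ × ℕ × ℤ → E), (∀ i, ‖e i‖ = 1) ∧
      (∀ i, Cone (S i) (e i) θ) ∧ H1 (B \ ⋃ i, S i) = 0 := by
  obtain ⟨γ, h1, h2⟩ := h
  have hu : DenseRange (TopologicalSpace.denseSeq E) := TopologicalSpace.denseRange_denseSeq E
  refine ⟨fun p => γ p.1 '' Apiece (γ p.1) θ (TopologicalSpace.denseSeq E p.2.1) p.2.2.1 p.2.2.2,
    fun p => dirv (TopologicalSpace.denseSeq E p.2.1), fun p => dirv_norm _,
    fun p => cone_piece hθ hθ1 _ _ _, ?_⟩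
  have hsub : B \ (⋃ p : ℕ × ℕ × ℕ × ℤ, γ p.1 '' Apiece (γ p.1) θ (TopologicalSpace.denseSeq E p.2.1)
      p.2.2.1 p.2.2.2) ⊆ ⋃ i, (γ i '' {t | ¬ DifferentiableAt ℝ (γ i) t} ∪
        γ i '' {t | t ∈ Icc (0:ℝ) 1 ∧ HasDerivAt (γ i) 0 t}) := by
    rintro x ⟨hx, hxn⟩
    obtain ⟨i, t, ht, rfl⟩ := mem_iUnion.1 (h2 hx)
    refine mem_iUnion.2 ⟨i, ?_⟩
    by_cases hd : DifferentiableAt ℝ (γ i) t
    · by_cases hv : deriv (γ i) t = 0
      · right
        exact ⟨t, ⟨ht, hv ▸ hd.hasDerivAt⟩, rfl⟩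
      · exfalso
        obtain ⟨k, n, l, hk⟩ := piece_cover hv hd.hasDerivAt hθ hθ1 hu
        exact hxn (mem_iUnion.2 ⟨(i, k, n, l), t, hk, rfl⟩)
    · left
      exact ⟨t, hd, rfl⟩
  apply measure_mono_null hsub
  rw [measure_iUnion_null_iff]
  intro i
  apply measure_union_null _ crit_null
  obtain ⟨K, hK⟩ := h1 i
  have h3 : volume {t | ¬ DifferentiableAt ℝ (γ i) t} = 0 := hK.ae_differentiableAt
  have h4 := H1_curve_le (hK.lipschitzOnWith (s := {t | ¬ DifferentiableAt ℝ (γ i) t}))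
  rw [h3, mul_zero] at h4
  exact le_antisymm h4 (zero_le)

end Pool.Agent.Hhelper31.PC
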