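import Mathlib
import Pool.Agent.Hhelper31.PC.Rect

set_option autoImplicit false

namespace Pool.Agent.Hhelper31.PC

open MeasureTheory Metric Set Filter Topology
open scoped ENNReal NNReal

/-- doubling at arbitrarily small scales, almost everywhere -/
theorem doubling (μ : Measure E) [IsFiniteMeasure μ] :
    ∀ᵐ x ∂μ, ∀ δ > 0, ∃ r ∈ Ioo (0:ℝ) δ, μ.real (closedBall x r) ≤ 30 * μ.real (closedBall x (r / 5)) := by
  have h1 := Besicovitch.ae_tendsto_rnDeriv (volume : Measure E) μ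
  have h2 := Measure.rnDeriv_lt_top (volume : Measure E) μ
  filter_upwards [h1, h2] with x hx hxt δ hδ
  by_contra hcon
  push Not at hcon
  -- eventual lower bound
  set L := (volume : Measure E).rnDeriv μ x with hL
  have hL1 : L < L + 1 := ENNReal.lt_add_right hxt.ne one_ne_zero
  have h3 := (tendsto_order.1 hx).2 (L + 1) hL1
  have h4 : ∃ r0 > 0, ∀ r ∈ Ioo (0:ℝ) r0, volume (closedBall x r) / μ (closedBall x r) < L + 1 := by
    obtain ⟨r0, hr0, h5⟩ := mem_nhdsGT_iff_exists_Ioo_subset.1 h3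
    exact ⟨r0, hr0, fun r hr => h5 hr⟩
  obtain ⟨r0, hr0, h5⟩ := h4
  set ρ := min (δ / 2) (r0 / 2) with hρ
  have hρ0 : 0 < ρ := by rw [hρ]; have : (0:ℝ) < r0 := hr0; positivity
  have hρδ : ρ < δ := (min_le_left _ _).trans_lt (by linarith)
  have hρr : ρ < r0 := (min_le_right _ _).trans_lt (by have : (0:ℝ) < r0 := hr0; linarith)
  set C : ℝ := (L + 1).toReal with hC
  have hCtop : L + 1 ≠ ⊤ := by simp [hxt.ne]
  -- real lower bound
  have hlow : ∀ r ∈ Ioo (0:ℝ) r0, volume.real (closedBall x r) ≤ C * μ.real (closedBall x r) := by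
    intro r hr
    have h6 := h5 r hr
    have hvol : volume (closedBall x r) ≠ ⊤ := measure_closedBall_lt_top.ne
    have hvol0 : volume (closedBall x r) ≠ 0 := (measure_closedBall_pos _ _ hr.1).ne'
    have hμ0 : μ (closedBall x r) ≠ 0 := by
      intro h0
      rw [h0, ENNReal.div_zero hvol0] at h6
      exact absurd h6 (not_lt.2 le_top)
    have hμt : μ (closedBall x r) ≠ ⊤ := measure_ne_top _ _
    rw [ENNReal.div_lt_iff (Or.inl hμ0) (Or.inl hμt)] at h6
    have h7 := ENNReal.toReal_mono (ENNReal.mul_ne_top hCtop hμt) h6.le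
    rw [ENNReal.toReal_mul] at h7
    exact h7
  -- geometric decay
  have hpow : ∀ k : ℕ, ρ / 5 ^ k ∈ Ioo (0:ℝ) δ ∧ ρ / 5 ^ k ∈ Ioo (0:ℝ) r0 := by
    intro k
    have h6 : ρ / 5 ^ k ≤ ρ := by
      apply div_le_self hρ0.le
      exact one_le_pow₀ (by norm_num)
    have h7 : 0 < ρ / 5 ^ k := by positivity
    exact ⟨⟨h7, h6.trans_lt hρδ⟩, h7, h6.trans_lt hρr⟩
  have hdecay : ∀ k : ℕ, μ.real (closedBall x (ρ / 5 ^ k)) ≤ (1 / 30) ^ k * μ.real (closedBall x ρ) := by
    intro k
    induction k with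
    | zero => simp
    | succ k ih =>
      have h6 := hcon (ρ / 5 ^ k) (hpow k).1
      have h7 : ρ / 5 ^ (k + 1) = ρ / 5 ^ k / 5 := by rw [pow_succ]; field_simp
      rw [h7, pow_succ]
      nlinarith
  have hvolk : ∀ k : ℕ, volume.real (closedBall x (ρ / 5 ^ k))
      = (1 / 25) ^ k * volume.real (closedBall x ρ) := by
    intro k
    rw [Measure.real, Measure.real, Measure.addHaar_closedBall volume x (hpow k).1.1.le,
      Measure.addHaar_closedBall volume x hρ0.le, ENNReal.toReal_mul, ENNReal.toReal_mul,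
      finrank_euclideanSpace_fin, ENNReal.toReal_ofReal (by positivity),
      ENNReal.toReal_ofReal (by positivity), div_pow, ← pow_mul, mul_comm k 2, pow_mul]
    norm_num
    rw [one_div_pow]
    ring
  set V := volume.real (closedBall x ρ) with hV
  have hVpos : 0 < V := by
    rw [hV, Measure.real]
    exact ENNReal.toReal_pos (measure_closedBall_pos _ _ hρ0).ne' measure_closedBall_lt_top.ne
  set M := μ.real (closedBall x ρ) with hM
  have hfinal : ∀ k : ℕ, V * (6 / 5) ^ k ≤ C * M := by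
    intro k
    have h6 := hlow _ (hpow k).2
    rw [hvolk] at h6
    have hC0 : 0 ≤ C := ENNReal.toReal_nonneg
    have h7 : (1 / 25 : ℝ) ^ k * V ≤ C * ((1 / 30) ^ k * M) :=
      h6.trans (mul_le_mul_of_nonneg_left (hdecay k) hC0)
    have h8 : (30:ℝ) ^ k * ((1 / 25 : ℝ) ^ k * V) ≤ (30:ℝ) ^ k * (C * ((1 / 30) ^ k * M)) :=
      mul_le_mul_of_nonneg_left h7 (by positivity)
    have e1 : (30:ℝ) ^ k * ((1 / 25 : ℝ) ^ k * V) = V * (6 / 5) ^ k := by
      rw [← mul_assoc, ← mul_pow]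
      norm_num
      ring
    have e2 : (30:ℝ) ^ k * (C * ((1 / 30) ^ k * M)) = C * M := by
      rw [mul_left_comm, ← mul_assoc ((30:ℝ) ^ k), ← mul_pow]
      norm_num
    rw [e1, e2] at h8
    exact h8
  have htend : Tendsto (fun k : ℕ => V * (6 / 5 : ℝ) ^ k) atTop atTop :=
    (tendsto_pow_atTop_atTop_of_one_lt (by norm_num)).const_mul_atTop hVpos
  obtain ⟨k, hk⟩ := (htend.eventually_gt_atTop (C * M)).exists
  exact absurd (hfinal k) (not_le.2 hk)

end Pool.Agent.Hhelper31.PC
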