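import Mathlib
import Pool.Agent.Hhelper31.PC.Doubling

set_option autoImplicit false

namespace Pool.Agent.Hhelper31.PC

open MeasureTheory Metric Set Filter Topology
open scoped ENNReal NNReal

theorem cone_sub {S : Set E} {e : E} {θ r : ℝ} (he : ‖e‖ = 1) (hS : Cone S e θ) (hr : 0 < r)
    (hθ : 0 < θ) {x : E} (hx : x ∈ S) : S ∩ closedBall x (r / 5) ⊆ bZ x e r θ := by
  rintro y ⟨hy, hyx⟩
  rw [mem_closedBall, dist_eq_norm] at hyx
  constructor
  · have h1 := abs_real_inner_le_norm (y - x) e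
    rw [he, mul_one] at h1
    linarith
  · have h1 := hS x hx y hy
    have h2 : θ * ‖y - x‖ ≤ θ * (r / 5) := by gcongr
    nlinarith [mul_pos hθ hr]

theorem good_scale {μ : Measure E} [IsFiniteMeasure μ] {S : Set E} {e : E} {θ : ℝ} (he : ‖e‖ = 1)
    (hS : Cone S e θ) (hθ : 0 < θ) {x : E} (hx : x ∈ S)
    (hd : ∀ δ > 0, ∃ r ∈ Ioo (0:ℝ) δ, μ.real (closedBall x r) ≤ 30 * μ.real (closedBall x (r / 5)))
    (ht : Tendsto (fun r => μ (S ∩ closedBall x r) / μ (closedBall x r)) (𝓝[>] 0) (𝓝 1))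
    {δ : ℝ} (hδ : 0 < δ) :
    ∃ r ∈ Ioo (0:ℝ) δ, μ.real (closedBall x r) ≤ 60 * μ.real (bZ x e r θ) := by
  have h3 := (tendsto_order.1 ht).1 (1 / 2) (by
    rw [one_div]; exact ENNReal.inv_lt_one.2 (by norm_num))
  obtain ⟨r1, hr1, h5⟩ := mem_nhdsGT_iff_exists_Ioo_subset.1 h3
  have hr1' : (0:ℝ) < r1 := hr1
  obtain ⟨r, hr, h6⟩ := hd (min δ r1) (lt_min hδ hr1')
  have hrδ : r < δ := hr.2.trans_le (min_le_left _ _)
  have hrr : r < r1 := hr.2.trans_le (min_le_right _ _)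
  refine ⟨r, ⟨hr.1, hrδ⟩, ?_⟩
  have h7 : 1 / 2 < μ (S ∩ closedBall x (r / 5)) / μ (closedBall x (r / 5)) :=
    h5 (show r / 5 ∈ Ioo (0:ℝ) r1 from ⟨by linarith [hr.1], by linarith [hr.1]⟩)
  have hfin1 : μ (S ∩ closedBall x (r / 5)) ≠ ⊤ := measure_ne_top _ _
  have hfin2 : μ (closedBall x (r / 5)) ≠ ⊤ := measure_ne_top _ _
  have h8 : μ.real (closedBall x (r / 5)) ≤ 2 * μ.real (S ∩ closedBall x (r / 5)) := by
    have hne : μ (S ∩ closedBall x (r / 5)) / μ (closedBall x (r / 5)) ≠ ⊤ := by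
      intro htop
      rw [ENNReal.div_eq_top] at htop
      rcases htop with ⟨a, b⟩ | ⟨a, _⟩
      · exact a (measure_mono_null inter_subset_right b)
      · exact hfin1 a
    have h9 := ENNReal.toReal_strict_mono hne h7
    rw [ENNReal.toReal_div, ENNReal.toReal_div, ENNReal.toReal_one, ENNReal.toReal_ofNat] at h9
    have hpos : 0 < (μ (closedBall x (r / 5))).toReal := by
      by_contra hn
      have : (μ (closedBall x (r / 5))).toReal = 0 :=
        le_antisymm (not_lt.1 hn) ENNReal.toReal_nonneg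
      rw [this, div_zero] at h9
      norm_num at h9
    rw [lt_div_iff₀ hpos] at h9
    show (μ (closedBall x (r / 5))).toReal ≤ 2 * (μ (S ∩ closedBall x (r / 5))).toReal
    linarith
  have h9 : μ.real (S ∩ closedBall x (r / 5)) ≤ μ.real (bZ x e r θ) :=
    measureReal_mono (cone_sub he hS hr.1 hθ hx)
  linarith

theorem one_step {B : Set E} (hB : IsCompact B) (hR : Rct B) (h0 : H1 B ≠ 0) (hfin : H1 B ≠ ⊤)
    {η : ℝ} (hη : 0 < η) : ∃ (G : E → E) (W : Set E), Nice G η ∧ IsOpen W ∧ InLines (G '' W) ∧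
      H1.real B ≤ 120 * H1.real (B ∩ W) := by
  classical
  set θ : ℝ := min (η / 8) (1 / 4) with hθdef
  have hθ : 0 < θ := by rw [hθdef]; positivity
  have hθ1 : θ ≤ 1 / 4 := min_le_right _ _
  have hθη : 8 * θ ≤ η := by
    have := min_le_left (η / 8) (1 / 4 : ℝ)
    rw [← hθdef] at this
    linarith
  set μ : Measure E := H1.restrict B with hμ
  have hBm : MeasurableSet B := hB.measurableSet
  have : IsFiniteMeasure μ := ⟨by rw [hμ, Measure.restrict_apply_univ]; exact lt_top_iff_ne_top.2 hfin⟩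
  obtain ⟨S, e, he, hS, hcov⟩ := hR.cones hθ (by linarith : θ ≤ 1)
  -- almost every point is good
  have hae1 := doubling μ
  have hae2 : ∀ i, ∀ᵐ x ∂μ, x ∈ S i →
      Tendsto (fun r => μ (S i ∩ closedBall x r) / μ (closedBall x r)) (𝓝[>] 0) (𝓝 1) := fun i =>
    ae_imp_of_ae_restrict (Besicovitch.ae_tendsto_measure_inter_div μ (S i))
  have hae3 : ∀ᵐ x ∂μ, x ∈ ⋃ i, S i := by
    rw [ae_iff, hμ, Measure.restrict_apply' hBm]
    have e1 : {x | x ∉ ⋃ i, S i} ∩ B = B \ ⋃ i, S i := by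
      ext x; exact and_comm
    rw [e1]
    exact hcov
  let good : E → Set ℝ := fun x => {r | 0 < r ∧ ∃ e : E, ‖e‖ = 1 ∧
    μ.real (closedBall x r) ≤ 60 * μ.real (bZ x e r θ)}
  let s : Set E := {x | ∀ δ > 0, (good x ∩ Ioo 0 δ).Nonempty}
  have hs : ∀ᵐ x ∂μ, x ∈ s := by
    filter_upwards [hae1, ae_all_iff.2 hae2, hae3] with x h1 h2 h3 δ hδ
    obtain ⟨i, hi⟩ := mem_iUnion.1 h3
    obtain ⟨r, hr, h4⟩ := good_scale (he i) (hS i) hθ hi h1 (h2 i hi) hδ
    exact ⟨r, ⟨hr.1, e i, he i, h4⟩, hr⟩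
  obtain ⟨t, r, htc, hts, hr, hcover, hdisj⟩ := Besicovitch.exists_disjoint_closedBall_covering_ae μ
    good s (fun x hx => hx) (fun _ => 1) (fun _ _ => one_pos)
  -- total mass
  have htot : μ univ ≤ μ (⋃ x ∈ t, closedBall x (r x)) := by
    have hsc : μ sᶜ = 0 := hs
    calc μ univ ≤ μ ((⋃ x ∈ t, closedBall x (r x)) ∪ (s \ ⋃ x ∈ t, closedBall x (r x)) ∪ sᶜ) := by
          apply measure_mono
          intro x _
          by_cases h1 : x ∈ s
          · by_cases h2 : x ∈ ⋃ x ∈ t, closedBall x (r x)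
            · exact Or.inl (Or.inl h2)
            · exact Or.inl (Or.inr ⟨h1, h2⟩)
          · exact Or.inr h1
      _ ≤ μ ((⋃ x ∈ t, closedBall x (r x)) ∪ (s \ ⋃ x ∈ t, closedBall x (r x))) + μ sᶜ :=
          measure_union_le _ _
      _ ≤ μ (⋃ x ∈ t, closedBall x (r x)) + μ (s \ ⋃ x ∈ t, closedBall x (r x)) + μ sᶜ := by
          gcongr; exact measure_union_le _ _
      _ = μ (⋃ x ∈ t, closedBall x (r x)) := by rw [hcover, hsc, add_zero, add_zero]
  have hμuniv : μ univ = H1 B := by rw [hμ, Measure.restrict_apply_univ]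
  have hsum : μ (⋃ x ∈ t, closedBall x (r x)) = ∑' x : t, μ (closedBall (x : E) (r x)) :=
    measure_biUnion htc hdisj (fun x _ => measurableSet_closedBall)
  have hhalf : μ univ / 2 < ∑' x : t, μ (closedBall (x : E) (r x)) := by
    rw [← hsum]
    refine lt_of_lt_of_le ?_ htot
    rw [hμuniv]
    exact ENNReal.half_lt_self h0 hfin
  rw [ENNReal.tsum_eq_iSup_sum, lt_iSup_iff] at hhalf
  obtain ⟨F, hF⟩ := hhalf
  -- the finite family
  have hrt : ∀ i : {x // x ∈ F}, (i.1 : E) ∈ t := fun i => i.1.2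
  have hch : ∀ i : {x // x ∈ F}, ∃ e : E, ‖e‖ = 1 ∧
      μ.real (closedBall (i.1 : E) (r i.1)) ≤ 60 * μ.real (bZ (i.1 : E) e (r i.1) θ) :=
    fun i => (hr _ (hrt i)).1.2
  choose e' he' hch using hch
  have hrpos : ∀ i : {x // x ∈ F}, 0 < r i.1 := fun i => (hr _ (hrt i)).2.1
  have hr1 : ∀ i : {x // x ∈ F}, r i.1 ≤ 1 := fun i => (hr _ (hrt i)).2.2.le
  have hdj : ∀ i j : {x // x ∈ F}, i ≠ j → Disjoint (closedBall (i.1 : E) (r i.1))
      (closedBall (j.1 : E) (r j.1)) := by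
    intro i j hij
    apply hdisj (hrt i) (hrt j)
    intro h
    exact hij (Subtype.ext (Subtype.ext h))
  obtain ⟨G, hG, hGl⟩ := multi_flat (ι := {x // x ∈ F}) (fun i => (i.1 : E)) e' (fun i => r i.1)
    (R := 1) he' hrpos hr1 le_rfl hθ hθ1 (by
      intro i j hij
      exact (hdj i j hij).mono (bC_ball (he' i) (hrpos i)) (bC_ball (he' j) (hrpos j)))
  refine ⟨G, ⋃ i : {x // x ∈ F}, bZ (i.1 : E) (e' i) (r i.1) θ, hG.mono hθη,
    isOpen_iUnion (fun i => bZ_open), hGl, ?_⟩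
  have hW : H1.real (B ∩ ⋃ i : {x // x ∈ F}, bZ (i.1 : E) (e' i) (r i.1) θ)
      = μ.real (⋃ i : {x // x ∈ F}, bZ (i.1 : E) (e' i) (r i.1) θ) := by
    rw [hμ, Measure.real, Measure.real, Measure.restrict_apply' hBm, inter_comm]
  have hB' : H1.real B = μ.real univ := by
    rw [Measure.real, Measure.real, hμuniv]
  rw [hW, hB']
  have hU : μ.real (⋃ i : {x // x ∈ F}, bZ (i.1 : E) (e' i) (r i.1) θ)
      = ∑ i : {x // x ∈ F}, μ.real (bZ (i.1 : E) (e' i) (r i.1) θ) := by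
    have h1 := measureReal_biUnion_finset (μ := μ) (s := (Finset.univ : Finset {x // x ∈ F}))
      (f := fun i => bZ (i.1 : E) (e' i) (r i.1) θ) (by
        intro i _ j _ hij
        exact (hdj i j hij).mono ((bZ_sub (hrpos i) hθ1).trans (bC_ball (he' i) (hrpos i)))
          ((bZ_sub (hrpos j) hθ1).trans (bC_ball (he' j) (hrpos j))))
      (fun i _ => bZ_open.measurableSet)
    simpa using h1
  have hF2 : μ.real univ / 2 ≤ ∑ i : {x // x ∈ F}, μ.real (closedBall (i.1 : E) (r i.1)) := by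
    have h1 : ∑ i : {x // x ∈ F}, μ.real (closedBall (i.1 : E) (r i.1))
        = ∑ x ∈ F, μ.real (closedBall (x : E) (r x)) :=
      Finset.sum_coe_sort F (fun x => μ.real (closedBall (x : E) (r x)))
    rw [h1]
    have h2 := ENNReal.toReal_mono (by
      exact ENNReal.sum_ne_top.2 (fun x _ => measure_ne_top _ _)) hF.le
    rw [ENNReal.toReal_sum (fun x _ => measure_ne_top _ _), ENNReal.toReal_div] at h2
    simpa [Measure.real] using h2
  have h3 : ∑ i : {x // x ∈ F}, μ.real (closedBall (i.1 : E) (r i.1))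
      ≤ ∑ i : {x // x ∈ F}, 60 * μ.real (bZ (i.1 : E) (e' i) (r i.1) θ) :=
    Finset.sum_le_sum (fun i _ => hch i)
  rw [← Finset.mul_sum] at h3
  rw [hU]
  linarith

end Pool.Agent.Hhelper31.PC
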