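import Mathlib
import Pool.Agent.Hhelper31.PC.One

set_option autoImplicit false

namespace Pool.Agent.Hhelper31.PC

open MeasureTheory Metric Set Filter Topology
open scoped ENNReal NNReal

theorem H1_real_image {c : ℝ} (hc : 0 ≤ c) {f : E → E} (hf : Lp c f) {s : Set E} (hs : H1 s ≠ ⊤) :
    H1 (f '' s) ≠ ⊤ ∧ H1.real (f '' s) ≤ c * H1.real s := by
  have h1 := H1_image_le hf.lip s
  have h2 : (Real.toNNReal c : ℝ≥0∞) * H1 s ≠ ⊤ := ENNReal.mul_ne_top ENNReal.coe_ne_top hs
  refine ⟨(h1.trans_lt (lt_top_iff_ne_top.2 h2)).ne, ?_⟩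
  have h3 := ENNReal.toReal_mono h2 h1
  rw [ENNReal.toReal_mul, ENNReal.coe_toReal, Real.coe_toNNReal c hc] at h3
  exact h3

theorem iterate (n : ℕ) : ∀ (B : Set E), IsCompact B → Rct B → H1 B ≠ ⊤ → ∀ η : ℝ, 0 < η → η ≤ 1 →
    ∃ (G : E → E) (B' L : Set E), Nice G η ∧ IsCompact B' ∧ Rct B' ∧ InLines L ∧ G '' B ⊆ B' ∪ L ∧
      H1 B' ≠ ⊤ ∧ H1.real B' ≤ (239 / 240) ^ n * H1.real B := by
  induction n with
  | zero =>
    intro B hB hR hfin η hη hη1
    refine ⟨fun x => x, B, ∅, Nice.id.mono hη.le, hB, hR, InLines.of_finite finite_empty, ?_, hfin, ?_⟩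
    · simp
    · simp
  | succ n ih =>
    intro B hB hR hfin η hη hη1
    obtain ⟨G1, B1, L1, a1, a2, a3, a4, a5, a6, a7⟩ := ih B hB hR hfin (η / 3) (by positivity)
      (by linarith)
    by_cases h0 : H1 B1 = 0
    · refine ⟨G1, B1, L1, a1.mono (by linarith), a2, a3, a4, a5, a6, ?_⟩
      have : H1.real B1 = 0 := by rw [Measure.real, h0, ENNReal.toReal_zero]
      rw [this]
      have := measureReal_nonneg (μ := H1) (s := B)
      positivity
    · set η' : ℝ := min (η / 3) (1 / 300) with hη'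
      have hη'0 : 0 < η' := by rw [hη']; positivity
      have hη'1 : η' ≤ η / 3 := min_le_left _ _
      have hη'2 : η' ≤ 1 / 300 := min_le_right _ _
      obtain ⟨G2, W, b1, b2, b3, b4⟩ := one_step a2 a3 h0 a6 hη'0
      have hdiff : IsCompact (B1 \ W) := a2.diff b2
      have hdfin : H1 (B1 \ W) ≠ ⊤ :=
        ((measure_mono sdiff_subset).trans_lt (lt_top_iff_ne_top.2 a6)).ne
      obtain ⟨c1, c2⟩ := H1_real_image (by linarith) b1.lip hdfin
      have hsplit : H1.real (B1 \ W) = H1.real B1 - H1.real (B1 ∩ W) := by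
        have := measureReal_inter_add_sdiff (μ := H1) (s := B1) (t := W) b2.measurableSet a6
        linarith
      refine ⟨G2 ∘ G1, G2 '' (B1 \ W), G2 '' W ∪ G2 '' L1, ?_, hdiff.image b1.lip.cont,
        (a3.mono sdiff_subset).image b1.lip, b3.union (a4.image b1.fa), ?_, c1, ?_⟩
      · refine (b1.comp a1).mono ?_
        nlinarith
      · rw [image_comp]
        rintro _ ⟨y, hy, rfl⟩
        rcases a5 hy with h | h
        · by_cases hW : y ∈ W
          · exact Or.inr (Or.inl ⟨y, hW, rfl⟩)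
          · exact Or.inl ⟨y, ⟨h, hW⟩, rfl⟩
        · exact Or.inr (Or.inr ⟨y, h, rfl⟩)
      · have hnn := measureReal_nonneg (μ := H1) (s := B1)
        have e1 : H1.real (B1 \ W) ≤ (119 / 120) * H1.real B1 := by
          rw [hsplit]; linarith
        have e2 : H1.real (G2 '' (B1 \ W)) ≤ (239 / 240) * H1.real B1 := by
          have e3 : (1 + η') * H1.real (B1 \ W) ≤ (301 / 300) * ((119 / 120) * H1.real B1) := by
            apply mul_le_mul (by linarith) e1 measureReal_nonneg (by norm_num)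
          linarith
        calc H1.real (G2 '' (B1 \ W)) ≤ (239 / 240) * H1.real B1 := e2
          _ ≤ (239 / 240) * ((239 / 240) ^ n * H1.real B) := by gcongr
          _ = (239 / 240) ^ (n + 1) * H1.real B := by rw [pow_succ]; ring

/-- Straightening of compact rectifiable sets of finite length. -/
theorem straighten {B : Set E} (hB : IsCompact B) (hR : Rct B) (hfin : H1 B ≠ ⊤) {η : ℝ}
    (hη : 0 < η) (hη1 : η ≤ 1) : ∃ G : E → E, Nice G η ∧ InLines (G '' B) := by
  set ε : ℝ := η / 24 with hε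
  have hε0 : 0 < ε := by positivity
  have htend : Tendsto (fun n : ℕ => (239 / 240 : ℝ) ^ n * H1.real B) atTop (𝓝 (0 * H1.real B)) :=
    (tendsto_pow_atTop_nhds_zero_of_lt_one (by norm_num) (by norm_num)).mul_const _
  rw [zero_mul] at htend
  obtain ⟨n, hn⟩ := ((tendsto_order.1 htend).2 ε hε0).exists
  obtain ⟨G1, B', L, a1, a2, a3, a4, a5, a6, a7⟩ := iterate n B hB hR hfin (η / 3) (by positivity)
    (by linarith)
  have h1 : H1 B' < ENNReal.ofReal ε := by
    rw [ENNReal.lt_ofReal_iff_toReal_lt a6]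
    exact a7.trans_lt hn
  obtain ⟨G2, b1, b2⟩ := small_collapse a2 hε0 h1
  have b1' : Nice G2 (η / 3) := b1.mono (by rw [hε]; linarith)
  refine ⟨G2 ∘ G1, (b1'.comp a1).mono (by nlinarith), ?_⟩
  have : (G2 ∘ G1) '' B ⊆ G2 '' B' ∪ G2 '' L := by
    rw [image_comp, ← image_union]
    exact image_mono a5
  exact ((InLines.of_finite b2).union (a4.image b1.fa)).mono this

/-! ### from lines to rectifiable sets -/

theorem segments_rct {S : Set E} {T : Set (E × E)} (hT : T.Finite)
    (h : S ⊆ ⋃ p ∈ T, segment ℝ p.1 p.2) : Rct S ∧ H1 S ≠ ⊤ := by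
  constructor
  · rcases T.eq_empty_or_nonempty with h0 | h0
    · refine ⟨fun _ _ => 0, fun _ => ⟨0, LipschitzWith.const _⟩, ?_⟩
      rw [h0] at h
      simp only [mem_empty_iff_false, iUnion_of_empty, iUnion_empty] at h
      exact h.trans (empty_subset _)
    · obtain ⟨f, hf⟩ := hT.countable.exists_eq_range h0
      refine ⟨fun i => AffineMap.lineMap (f i).1 (f i).2, fun i => ?_, ?_⟩
      · exact ⟨_, lipschitzWith_lineMap _ _⟩
      · refine h.trans ?_
        intro x hx
        simp only [mem_iUnion, exists_prop] at hx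
        obtain ⟨p, hp, hx⟩ := hx
        rw [hf] at hp
        obtain ⟨i, rfl⟩ := hp
        refine mem_iUnion.2 ⟨i, ?_⟩
        rw [segment_eq_image_lineMap] at hx
        exact hx
  · apply ne_of_lt
    calc H1 S ≤ H1 (⋃ p ∈ T, segment ℝ p.1 p.2) := measure_mono h
      _ ≤ ∑' p : T, H1 (segment ℝ (p : E × E).1 (p : E × E).2) := measure_biUnion_le _ hT.countable _
      _ < ⊤ := by
          have := hT.fintype
          rw [tsum_fintype]
          apply ENNReal.sum_lt_top.2
          intro p _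
          rw [hausdorffMeasure_segment]
          exact edist_lt_top _ _

end Pool.Agent.Hhelper31.PC
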