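import Mathlib
import Pool.Agent.Hhelper31.PC.Straight
import Pool.Agent.Hhelper31.PC.Collapse

set_option autoImplicit false

namespace Pool.Agent.Hhelper31.PC

open MeasureTheory Metric Set Filter Topology
open scoped ENNReal NNReal Pointwise

theorem bC_frontier {x0 e : E} {r : ℝ} (he : ‖e‖ = 1) : InLines (frontier (bC x0 e r)) := by
  have hp : ‖perp e‖ = 1 := by rw [perp_norm, he]
  have h1 : frontier (bC x0 e r) ⊆ {x | |(inner ℝ (x - x0) e : ℝ)| = r / 2} ∪
      {x | |(inner ℝ (x - x0) (perp e) : ℝ)| = r / 2} := by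
    have e1 : bC x0 e r = {x | |(inner ℝ (x - x0) e : ℝ)| ≤ r / 2} ∩
      {x | |(inner ℝ (x - x0) (perp e) : ℝ)| ≤ r / 2} := rfl
    rw [e1]
    refine (frontier_inter_subset _ _).trans ?_
    apply union_subset_union
    · exact inter_subset_left.trans (frontier_le_subset_eq (inner_cont x0 e).abs continuous_const)
    · exact inter_subset_right.trans
        (frontier_le_subset_eq (inner_cont x0 (perp e)).abs continuous_const)
  refine InLines.mono ?_ h1
  have hline : ∀ c : ℝ, InLines {x | (inner ℝ (x - x0) e : ℝ) = c} := by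
    intro c
    apply InLines.line (x0 + c • e) (perp e)
    intro x hx
    refine ⟨inner ℝ (x - x0) (perp e), ?_⟩
    have := decomp he (x - x0)
    rw [show (inner ℝ (x - x0) e : ℝ) = c from hx] at this
    rw [add_assoc, ← this]
    abel
  have hline' : ∀ c : ℝ, InLines {x | (inner ℝ (x - x0) (perp e) : ℝ) = c} := by
    intro c
    apply InLines.line (x0 + c • perp e) e
    intro x hx
    refine ⟨inner ℝ (x - x0) e, ?_⟩
    have := decomp he (x - x0)
    rw [show (inner ℝ (x - x0) (perp e) : ℝ) = c from hx] at this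
    rw [add_assoc, add_comm (c • perp e), ← this]
    abel
  apply InLines.union
  · refine InLines.mono ((hline (r / 2)).union (hline (-(r / 2)))) ?_
    intro x hx
    exact eq_or_eq_neg_of_abs_eq hx
  · refine InLines.mono ((hline' (r / 2)).union (hline' (-(r / 2)))) ?_
    intro x hx
    exact eq_or_eq_neg_of_abs_eq hx

theorem bC_nhds {x0 e : E} {r : ℝ} (he : ‖e‖ = 1) : ball x0 (r / 2) ⊆ bC x0 e r := by
  have hp : ‖perp e‖ = 1 := by rw [perp_norm, he]
  intro x hx
  rw [mem_ball, dist_eq_norm] at hx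
  constructor
  · have := abs_real_inner_le_norm (x - x0) e
    rw [he, mul_one] at this
    linarith
  · have := abs_real_inner_le_norm (x - x0) (perp e)
    rw [hp, mul_one] at this
    linarith

/-- polygons between a compact and an open set -/
theorem poly_between {K O : Set E} (hK : IsCompact K) (hO : IsOpen O) (hKO : K ⊆ O) :
    ∃ P : Set E, IsCompact P ∧ K ⊆ P ∧ P ⊆ O ∧ InLines (frontier P) := by
  classical
  set e : E := EuclideanSpace.single 0 1 with he'
  have he : ‖e‖ = 1 := by simp [he']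
  have hr : ∀ x ∈ K, ∃ r > 0, closedBall x r ⊆ O := by
    intro x hx
    obtain ⟨r, hr, h⟩ := Metric.isOpen_iff.1 hO x (hKO hx)
    exact ⟨r / 2, by positivity, (closedBall_subset_ball (by linarith)).trans h⟩
  choose! r hr0 hr1 using hr
  obtain ⟨s, hsK, hs⟩ := hK.elim_nhds_subcover (fun x => ball x (r x / 2)) (fun x hx =>
    ball_mem_nhds x (by have := hr0 x hx; positivity))
  have hCc : ∀ x ∈ s, IsCompact (bC x e (r x)) := fun x hx =>
    (isCompact_closedBall x (r x)).of_isClosed_subset bC_closed (bC_ball he (hr0 x (hsK x hx)))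
  refine ⟨⋃ x ∈ s, bC x e (r x), s.isCompact_biUnion hCc, ?_, ?_, ?_⟩
  · exact hs.trans (iUnion₂_mono (fun x _ => bC_nhds he))
  · exact iUnion₂_subset (fun x hx => (bC_ball he (hr0 x (hsK x hx))).trans (hr1 x (hsK x hx)))
  · have hcl : IsClosed (⋃ x ∈ s, bC x e (r x)) := (s.isCompact_biUnion hCc).isClosed
    have hsub : frontier (⋃ x ∈ s, bC x e (r x)) ⊆ ⋃ x : {x // x ∈ s}, frontier (bC x.1 e (r x.1)) := by
      intro y hy
      have hyP := hcl.frontier_subset hy
      simp only [mem_iUnion, exists_prop] at hyP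
      obtain ⟨x, hx, hyx⟩ := hyP
      refine mem_iUnion.2 ⟨⟨x, hx⟩, subset_closure hyx, fun hint => hy.2 ?_⟩
      exact interior_mono (subset_biUnion_of_mem (u := fun x => bC x e (r x)) hx) hint
    exact (InLines.iUnion (fun x : {x // x ∈ s} => bC_frontier he)).mono hsub

theorem poly_approx {A : Set E} (hA : MeasurableSet A) (hfin : volume A ≠ ⊤) {δ : ℝ≥0∞}
    (hδ : δ ≠ 0) : ∃ P : Set E, IsCompact P ∧ InLines (frontier P) ∧
      volume ((A \ P) ∪ (P \ A)) < δ := by
  have hδ2 : δ / 2 ≠ 0 := by simp [hδ]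
  obtain ⟨K, hKA, hK, hKd⟩ := hA.exists_isCompact_sdiff_lt hfin hδ2
  have hKfin : volume K ≠ ⊤ := hK.measure_lt_top.ne
  obtain ⟨O, hKO, hO, _, hOd⟩ := hK.measurableSet.exists_isOpen_sdiff_lt hKfin hδ2
  obtain ⟨P, hP, hKP, hPO, hPf⟩ := poly_between hK hO hKO
  refine ⟨P, hP, hPf, ?_⟩
  calc volume ((A \ P) ∪ (P \ A)) ≤ volume (A \ P) + volume (P \ A) := measure_union_le _ _
    _ ≤ volume (A \ K) + volume (O \ K) := by
        gcongr
    _ < δ / 2 + δ / 2 := ENNReal.add_lt_add hKd hOd
    _ = δ := ENNReal.add_halves δ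

theorem erode {O : Set E} (hO : IsOpen O) (hfin : volume O ≠ ⊤) {ε : ℝ} (hε : 0 < ε) :
    ∃ τ : ℝ, 0 < τ ∧ volume.real O - ε ≤ volume.real {y | closedBall y (3 * τ) ⊆ O} := by
  let S : ℕ → Set E := fun n => {y | closedBall y (3 * (1 / ((n:ℝ) + 1))) ⊆ O}
  have hmono : Monotone S := by
    intro n m hnm y hy
    have h1 : (1:ℝ) / ((m:ℝ) + 1) ≤ 1 / ((n:ℝ) + 1) := by
      have : (n:ℝ) ≤ m := by exact_mod_cast hnm
      apply one_div_le_one_div_of_le (by positivity)
      linarith
    exact (closedBall_subset_closedBall (by linarith)).trans hy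
  have hunion : ⋃ n, S n = O := by
    apply Subset.antisymm
    · apply iUnion_subset
      intro n y hy
      exact hy (mem_closedBall_self (by positivity))
    · intro y hy
      obtain ⟨r, hr, h⟩ := Metric.isOpen_iff.1 hO y hy
      obtain ⟨n, hn⟩ := exists_nat_one_div_lt (show 0 < r / 3 by positivity)
      refine mem_iUnion.2 ⟨n, (closedBall_subset_ball ?_).trans h⟩
      linarith
  have h1 : Tendsto (fun n => volume (S n)) atTop (𝓝 (volume O)) := by
    rw [← hunion]
    exact tendsto_measure_iUnion_atTop hmono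
  have h2 : Tendsto (fun n => volume.real (S n)) atTop (𝓝 (volume.real O)) :=
    (ENNReal.tendsto_toReal hfin).comp h1
  obtain ⟨n, hn⟩ := ((tendsto_order.1 h2).1 (volume.real O - ε) (by linarith)).exists
  exact ⟨1 / ((n:ℝ) + 1), by positivity, hn.le⟩

theorem vol_real_image {c : ℝ} (hc : 0 ≤ c) {f : E → E} (hf : Lp c f) {s : Set E}
    (hs : volume s ≠ ⊤) : volume (f '' s) ≠ ⊤ ∧ volume.real (f '' s) ≤ c ^ 2 * volume.real s := by
  have h1 := volume_image_le hf.lip s
  have h2 : (Real.toNNReal c : ℝ≥0∞) ^ 2 * volume s ≠ ⊤ :=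
    ENNReal.mul_ne_top (ENNReal.pow_ne_top ENNReal.coe_ne_top) hs
  refine ⟨(h1.trans_lt (lt_top_iff_ne_top.2 h2)).ne, ?_⟩
  have h3 := ENNReal.toReal_mono h2 h1
  rw [ENNReal.toReal_mul, ENNReal.toReal_pow, ENNReal.coe_toReal, Real.coe_toNNReal c hc] at h3
  exact h3

/-- Main theorem for measurable sets. -/
theorem main {A : Set E} (hA : MeasurableSet A) (hfin : volume A ≠ ⊤) {ε : ℝ} (hε : 0 < ε) :
    ∃ (f : E → E) (Q : Set E), LipschitzWith 1 f ∧ volume ((f '' A \ Q) ∪ (Q \ f '' A)) = 0 ∧
      volume.real A - ε ≤ volume.real (f '' A) ∧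
      ∃ T : Set (E × E), T.Finite ∧ frontier Q ⊆ ⋃ p ∈ T, segment ℝ p.1 p.2 := by
  -- open set around `A`
  obtain ⟨O, hAO, hO, hOfin, hOd⟩ := hA.exists_isOpen_sdiff_lt hfin
    (ε := ENNReal.ofReal (ε / 8)) (by simp [hε])
  have hOfin' : volume O ≠ ⊤ := hOfin.ne
  have hOAfin : volume (O \ A) ≠ ⊤ := (hOd.trans_le le_top).ne
  have hOd' : volume.real (O \ A) ≤ ε / 8 := by
    rw [Measure.real]
    exact (ENNReal.toReal_lt_of_lt_ofReal hOd).le
  obtain ⟨τ, hτ, hτO⟩ := erode hO hOfin' (show 0 < ε / 8 by positivity)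
  -- parameters
  set a := volume.real A with ha
  have ha0 : 0 ≤ a := measureReal_nonneg
  set η : ℝ := min 1 (min (τ / 2) (ε / (32 * (a + 1)))) with hη
  have hη0 : 0 < η := by rw [hη]; positivity
  have hη1 : η ≤ 1 := min_le_left _ _
  have hη2 : η ≤ τ / 2 := (min_le_right _ _).trans (min_le_left _ _)
  have hη3 : η * (32 * (a + 1)) ≤ ε := by
    rw [← le_div_iff₀ (by positivity)]
    exact (min_le_right _ _).trans (min_le_right _ _)
  set δ : ℝ := (τ / 8192) ^ 2 with hδ
  have hδ0 : 0 < δ := by positivity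
  -- polygon and small open set
  obtain ⟨P, hP, hPf, hPd⟩ := poly_approx hA hfin (δ := ENNReal.ofReal δ) (by simp [hδ0])
  obtain ⟨U, hU1, hU2, hU3⟩ := Set.exists_isOpen_lt_of_lt _ _ hPd
  have hUfin : volume U ≠ ⊤ := (hU3.trans_le le_top).ne
  have hUr : volume.real U ≤ δ := by
    rw [Measure.real]
    exact (ENNReal.toReal_lt_of_lt_ofReal hU3).le
  obtain ⟨F, hF1, hF2, hF3⟩ := collapse (open_sigma hU2) hUfin
  have hF2' : Reg F (τ / 2) := by
    apply hF2.mono
    have h1 : Real.sqrt (volume.real U) ≤ τ / 8192 := by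
      apply Real.sqrt_le_iff.2
      exact ⟨by positivity, hUr⟩
    linarith
  have hF1' : Lp 1 F := fun x y => by
    have := hF1.dist_le_mul x y
    simpa using this
  -- the curve
  obtain ⟨T, hT, hTs⟩ := hPf.segments (hP.isBounded.subset hP.isClosed.frontier_subset)
  obtain ⟨hRct, hH1⟩ := segments_rct hT hTs
  have hfrc : IsCompact (frontier P) :=
    hP.of_isClosed_subset isClosed_frontier hP.isClosed.frontier_subset
  obtain ⟨G, hG1, hG2⟩ := straighten (hfrc.image hF2.cont) (hRct.image hF1')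
    (H1_real_image zero_le_one hF1' hH1).1 hη0 hη1
  set g : E → E := G ∘ F with hg
  have hgLp : Lp (1 + η) g := by
    have := hG1.lip.comp hF1' (by linarith)
    rwa [mul_one] at this
  have hgReg : Reg g τ := (hG1.reg.comp hF2').mono (by linarith)
  set c : ℝ := (1 + η)⁻¹ with hc
  have hc0 : 0 < c := by positivity
  set f : E → E := fun x => c • g x with hf
  have hfimg : ∀ s : Set E, f '' s = c • (g '' s) := by
    intro s
    rw [← Set.image_smul, ← image_comp]
    rfl
  refine ⟨f, f '' P, ?_, ?_, ?_, ?_⟩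
  · apply LipschitzWith.of_dist_le_mul
    intro x y
    rw [NNReal.coe_one, one_mul, hf, dist_smul₀, Real.norm_eq_abs, abs_of_pos hc0]
    calc c * dist (g x) (g y) ≤ c * ((1 + η) * dist x y) := by gcongr; exact hgLp x y
      _ = dist x y := by rw [← mul_assoc, hc, inv_mul_cancel₀ (by positivity), one_mul]
  · have hsub : (f '' A \ f '' P) ∪ (f '' P \ f '' A) ⊆ f '' U := by
      rintro y (⟨⟨x, hx, rfl⟩, hy⟩ | ⟨⟨x, hx, rfl⟩, hy⟩)
      · exact ⟨x, hU1 (Or.inl ⟨hx, fun h => hy ⟨x, h, rfl⟩⟩), rfl⟩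
      · exact ⟨x, hU1 (Or.inr ⟨hx, fun h => hy ⟨x, h, rfl⟩⟩), rfl⟩
    apply measure_mono_null hsub
    rw [hfimg, Measure.addHaar_smul]
    have h1 : volume (g '' U) = 0 := by
      rw [hg, image_comp]
      have := volume_image_le hG1.lip.lip (F '' U)
      rw [hF3, mul_zero] at this
      exact le_antisymm this (zero_le)
    rw [h1, mul_zero]
  · -- lower bound
    have hgO : volume.real O - ε / 8 ≤ volume.real (g '' O) := by
      refine hτO.trans ?_
      apply measureReal_mono _ (vol_real_image (by positivity) hgLp hOfin').1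
      intro y hy
      exact hgReg.cover hy
    obtain ⟨h1, h2⟩ := vol_real_image (by positivity) hgLp hOAfin
    obtain ⟨h3, h4⟩ := vol_real_image (by positivity) hgLp hfin
    have h5 : volume.real (g '' O) ≤ volume.real (g '' A) + volume.real (g '' (O \ A)) := by
      refine le_trans (measureReal_mono ?_ (by
        exact ((measure_union_le _ _).trans_lt (ENNReal.add_lt_top.2
          ⟨lt_top_iff_ne_top.2 h3, lt_top_iff_ne_top.2 h1⟩)).ne)) (measureReal_union_le _ _)
      rw [← image_union]
      apply image_mono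
      intro x hx
      by_cases hxA : x ∈ A
      · exact Or.inl hxA
      · exact Or.inr ⟨hx, hxA⟩
    have hOA : a ≤ volume.real O := measureReal_mono hAO hOfin'
    have h6 : (1 + η) ^ 2 ≤ 4 := by nlinarith
    have h7 : volume.real (g '' (O \ A)) ≤ ε / 2 := by
      have : 0 ≤ volume.real (O \ A) := measureReal_nonneg
      nlinarith
    have h8 : a - 5 * ε / 8 ≤ volume.real (g '' A) := by linarith
    have h9 : volume.real (g '' A) ≤ 4 * a := by nlinarith
    have h10 : volume.real (f '' A) = c ^ 2 * volume.real (g '' A) := by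
      rw [hfimg, Measure.real, Measure.addHaar_smul, finrank_euclideanSpace_fin,
        ENNReal.toReal_mul, ENNReal.toReal_ofReal (abs_nonneg _), abs_of_pos (by positivity)]
      rfl
    rw [h10]
    have h11 : 1 - 2 * η ≤ c ^ 2 := by
      have h12 : (1 - 2 * η) * (1 + η) ^ 2 ≤ 1 := by nlinarith [mul_pos hη0 hη0]
      rw [hc, inv_pow, ← one_div, le_div_iff₀ (by positivity)]
      exact h12
    have h13 : 0 ≤ volume.real (g '' A) := measureReal_nonneg
    have h14 : (1 - 2 * η) * volume.real (g '' A) ≤ c ^ 2 * volume.real (g '' A) := by gcongr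
    have h15 : 2 * η * volume.real (g '' A) ≤ ε / 4 := by
      have : η * volume.real (g '' A) ≤ η * (4 * a) := by gcongr
      nlinarith
    linarith
  · -- polygon
    have hfr : frontier (f '' P) ⊆ c • (g '' frontier P) := by
      rw [hfimg]
      have h1 : frontier (c • (g '' P)) = c • frontier (g '' P) := by
        have := (Homeomorph.smulOfNeZero (α := E) c hc0.ne').image_frontier (g '' P)
        exact this.symm
      rw [h1]
      exact Set.smul_set_mono (hgReg.fr P hP)
    have hlines : InLines (c • (g '' frontier P)) := by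
      have h1 : InLines (g '' frontier P) := by
        rw [hg, image_comp]; exact hG2
      have h2 := h1.image (f := fun x => c • x) (FA.affine ((LinearMap.lsmul ℝ E c).toAffineMap))
      rwa [Set.image_smul] at h2
    apply (hlines.mono hfr).segments
    have hfP : IsCompact (f '' P) := by
      rw [hfimg]
      exact (hP.image hgLp.cont).smul c
    exact hfP.isBounded.subset hfP.isClosed.frontier_subset

end Pool.Agent.Hhelper31.PC
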